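import Pool.Agent.Lib.MP_c05f88_an.LimInj

/-!
# The limit is an open map (job LimOpen)

Let `x₀ ∈ U`, `U` open; choose `ρ > 0` with `closedBall x₀ ρ ⊆ U` and `n` with `x₀ ∈ L n`; let `k ≥ n + 3` with `5 * η k ≤ ρ` (`η k ≤ (1/2)^k`). Put
`V = {y | dist ((P k)⁻¹ y) ((P k)⁻¹ (Φ x₀)) < η k}`, a neighbourhood of `Φ x₀`. For `y ∈ V` let `v m = (P m)⁻¹ y`, `m ≥ k`. By `drift_limit` `dist (v k) x₀ < 3 * η k`.
Claim: `dist (v m) x₀ < 5 * η k - 2 * η m` for `m ≥ k`, in particular `v m ∈ L (k - 2)`. Indeed for `m = k` clear. If it holds for `m`, then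
`dist (v m) x₀ < 8 * η k ≤ η (k - 3)` and `x₀ ∈ L n ⊆ L (k - 3)`, so `v m ∈ L (k - 2) ⊆ L (m + 2)` by `nbd`, and `v (m+1) = (P (m+1))⁻¹ (P m (v m))` is at distance `< η m` from
`v m` (`near'`), and `5 * η k - 2 * η m + η m ≤ 5 * η k - 2 * η (m+1)` as `2 * η (m+1) ≤ η m`. The sequence `v` is Cauchy (`dist (v m) (v (m+1)) < η m ≤ (1/2)^m`) and
stays in the compact set `L (k - 2)`, so `v m → x` with `dist x x₀ ≤ 5 * η k ≤ ρ`, so `x ∈ U`. Now `dist y (Φ (v m)) = dist (P m (v m)) (Φ (v m)) ≤ 2 * (1/2)^m` by `hΦ`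
(`v m ∈ L (k-2)`, `k - 2 ≤ m`), so `Φ (v m) → y`, and `Φ (v m) → Φ x` by continuity (`limit_continuous`). So `y = Φ x ∈ Φ '' U`.
(It is convenient to write `k = i + 3`.)
-/

namespace Pool.Agent.Lib.MP_c05f88_an

open Set Filter Topology

variable {X : Type*} [MetricSpace X] {G : Subgroup (X ≃ₜ X)} {Z : Set X} {L : ℕ → Set X} {e : ℕ → Z} {f : Z → Z}
  {P : ℕ → X ≃ₜ X} {η : ℕ → ℝ} {Φ : X → X}

theorem limit_isOpenMap (hS : Seq G Z L e f P η) (hL : ∀ k, IsCompact (L k)) (hLi : ∀ k, L k ⊆ interior (L (k + 1)))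
    (hLU : ⋃ k, L k = univ)
    (hΦ : ∀ k, ∀ x ∈ L k, ∀ m, k ≤ m → dist (P m x) (Φ x) ≤ 2 * (1 / 2) ^ m) : IsOpenMap Φ := by
  have heta : ∀ k, 2 * η (k + 1) ≤ η k := fun k => by linarith [hS.half k]
  intro U hU
  rw [isOpen_iff_mem_nhds]
  rintro _ ⟨x₀, hx₀, rfl⟩
  obtain ⟨ρ, hρ, hρU⟩ := Metric.nhds_basis_closedBall.mem_iff.1 (hU.mem_nhds hx₀)
  obtain ⟨n, hn⟩ : ∃ n, x₀ ∈ L n := by
    have : x₀ ∈ ⋃ k, L k := hLU ▸ mem_univ x₀
    exact mem_iUnion.1 this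
  obtain ⟨i, hni, hi⟩ : ∃ i, n ≤ i ∧ 5 * η (i + 3) ≤ ρ := by
    have h1 : Tendsto (fun m : ℕ => 5 * (1 / 2 : ℝ) ^ m) atTop (𝓝 (5 * 0)) :=
      (tendsto_pow_atTop_nhds_zero_of_lt_one (by norm_num) (by norm_num)).const_mul 5
    rw [mul_zero] at h1
    have h2 := (h1.comp (tendsto_add_atTop_nat 3)).eventually (gt_mem_nhds hρ)
    obtain ⟨i, hi, hni⟩ := (h2.and (eventually_ge_atTop n)).exists
    refine ⟨i, hni, ?_⟩
    have h3 := hS.small (i + 3)
    have h4 : 5 * (1 / 2 : ℝ) ^ (i + 3) < ρ := hi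
    linarith
  have hpos := hS.pos (i + 3)
  have hxk : x₀ ∈ L (i + 3) := Lmono hLi (by omega) hn
  have hV : {y | dist ((P (i + 3)).symm y) ((P (i + 3)).symm (Φ x₀)) < η (i + 3)} ∈ 𝓝 (Φ x₀) := by
    have h1 : Tendsto (fun y => dist ((P (i + 3)).symm y) ((P (i + 3)).symm (Φ x₀))) (𝓝 (Φ x₀))
        (𝓝 (dist ((P (i + 3)).symm (Φ x₀)) ((P (i + 3)).symm (Φ x₀)))) :=
      ((P (i + 3)).symm.continuous.tendsto _).dist tendsto_const_nhds
    rw [dist_self] at h1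
    exact h1.eventually (gt_mem_nhds hpos)
  refine mem_of_superset hV fun y hy => ?_
  have hy' : dist ((P (i + 3)).symm y) ((P (i + 3)).symm (Φ x₀)) < η (i + 3) := hy
  have hd := drift_limit hS hLi hΦ hxk
  set v : ℕ → X := fun m => (P (i + 3 + m)).symm y with hv
  have h8 : 8 * η (i + 3) ≤ η i := by
    have h1 := heta i
    have h2 := heta (i + 1)
    have h3 := heta (i + 2)
    linarith
  have hxi : x₀ ∈ L i := Lmono hLi hni hn
  have hmemL : ∀ u, dist u x₀ < 5 * η (i + 3) → u ∈ L (i + 1) := fun u hu =>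
    hS.nbd i x₀ hxi u (by rw [dist_comm]; linarith)
  have hstep : ∀ m, v m ∈ L (i + 1) → dist (v (m + 1)) (v m) < η (i + 3 + m) := by
    intro m hm
    have h1 := hS.near' (i + 3 + m) (v m) (Lmono hLi (by omega) hm)
    have h2 : P (i + 3 + m) (v m) = y := (P (i + 3 + m)).apply_symm_apply y
    rw [h2] at h1
    exact h1
  have hclaim : ∀ m, dist (v m) x₀ < 5 * η (i + 3) - 2 * η (i + 3 + m) := by
    intro m
    induction m with
    | zero =>
      have h1 : dist (v 0) x₀ ≤ dist (v 0) ((P (i + 3)).symm (Φ x₀)) +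
          dist ((P (i + 3)).symm (Φ x₀)) x₀ := dist_triangle _ _ _
      have h2 : dist (v 0) ((P (i + 3)).symm (Φ x₀)) < η (i + 3) := hy'
      simp only [Nat.add_zero]
      linarith
    | succ m ih =>
      have hp := hS.pos (i + 3 + m)
      have h1 : v m ∈ L (i + 1) := hmemL _ (by linarith)
      have h2 := hstep m h1
      have h3 := dist_triangle (v (m + 1)) (v m) x₀
      have h4 := heta (i + 3 + m)
      rw [show i + 3 + (m + 1) = i + 3 + m + 1 by omega]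
      linarith
  have hvL : ∀ m, v m ∈ L (i + 1) := fun m => hmemL _ (by
    have := hclaim m
    have hp := hS.pos (i + 3 + m)
    linarith)
  have hcau : CauchySeq v := by
    refine cauchySeq_of_le_geometric (1 / 2) ((1 / 2) ^ (i + 3)) (by norm_num) fun m => ?_
    rw [dist_comm, ← pow_add]
    exact (hstep m (hvL m)).le.trans (hS.small _)
  obtain ⟨x, -, hx⟩ := cauchySeq_tendsto_of_isComplete (hL (i + 1)).isComplete hvL hcau
  have hxU : x ∈ U := by
    refine hρU ?_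
    rw [Metric.mem_closedBall]
    refine le_of_tendsto (hx.dist tendsto_const_nhds) (Eventually.of_forall fun m => ?_)
    have := hclaim m
    have hp := hS.pos (i + 3 + m)
    linarith
  refine ⟨x, hxU, ?_⟩
  have hcont := limit_continuous hLi hLU hΦ
  have h1 : Tendsto (fun m => Φ (v m)) atTop (𝓝 (Φ x)) := (hcont.tendsto x).comp hx
  have h2 : Tendsto (fun m => Φ (v m)) atTop (𝓝 y) := by
    rw [tendsto_iff_dist_tendsto_zero]
    have h3 : Tendsto (fun m : ℕ => 2 * (1 / 2 : ℝ) ^ (i + 3 + m)) atTop (𝓝 0) := by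
      have h4 : Tendsto (fun m : ℕ => 2 * (1 / 2 : ℝ) ^ m) atTop (𝓝 (2 * 0)) :=
        (tendsto_pow_atTop_nhds_zero_of_lt_one (by norm_num) (by norm_num)).const_mul 2
      rw [mul_zero] at h4
      refine (h4.comp (tendsto_add_atTop_nat (i + 3))).congr fun m => ?_
      rw [Function.comp_apply, Nat.add_comm]
    refine squeeze_zero (fun m => dist_nonneg) (fun m => ?_) h3
    have h4 := hΦ (i + 1) (v m) (hvL m) (i + 3 + m) (by omega)
    have h5 : P (i + 3 + m) (v m) = y := (P (i + 3 + m)).apply_symm_apply y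
    rw [h5, dist_comm] at h4
    exact h4
  exact tendsto_nhds_unique h1 h2

end Pool.Agent.Lib.MP_c05f88_an
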