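import Pool.Agent.Lib.MP_c05f88_an.Defs

/-!
# Extending finite partial injections, and permutations of subsets (job Ext)

`exists_perm_extend`: induction on `B`. If `π b = g b` on `B` and `b ∉ B`, then `Equiv.swap (π b) (g b) * π` works for `insert b B`: for `b' ∈ B`
`π b' = g b'` is neither `π b` (`π` injective) nor `g b` (`g` injective).

`permBy_mono`: a permutation `σ` of `Z' ⊆ Z` extends by the identity to a permutation of `Z` (for instance `Equiv.Perm.extendDomain` or
`Equiv.Perm.ofSubtype` applied to the permutation of `{z : Z // (z : X) ∈ Z'}` corresponding to `σ`), which is the restriction of some `F ∈ G`.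

`perm_of_coinfinite`: let `f : A → Z` be injective, `A ⊆ Z`, `Z \ A` and `Z \ range f` infinite, `Z` countable. Then `Z \ A` and `Z \ range f` are both
countably infinite, so there is a bijection between them; together with `f : A ≃ range f` it gives a permutation `σ` of `Z` with `σ = f` on `A`
(`Equiv.Set.sumCompl` or `Equiv.ofBijective` of the function defined by cases).
-/

namespace Pool.Agent.Lib.MP_c05f88_an

open Set Filter Topology

theorem exists_perm_extend {α : Type*} (B : Finset α) {g : α → α} (hg : Function.Injective g) :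
    ∃ π : Equiv.Perm α, ∀ b ∈ B, π b = g b := by
  classical
  induction B using Finset.induction_on with
  | empty => exact ⟨1, by simp⟩
  | insert b B hb ih =>
    obtain ⟨π, hπ⟩ := ih
    refine ⟨Equiv.swap (π b) (g b) * π, ?_⟩
    intro c hc
    rcases Finset.mem_insert.mp hc with rfl | hc
    · simp
    · have hne : c ≠ b := fun h => hb (h ▸ hc)
      rw [Equiv.Perm.mul_apply, Equiv.swap_apply_of_ne_of_ne]
      · exact hπ c hc
      · exact fun h => hne (π.injective h)
      · rw [hπ c hc]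
        exact fun h => hne (hg h)

theorem permBy_mono {X : Type*} [TopologicalSpace X] {G : Subgroup (X ≃ₜ X)} {Z Z' : Set X} (hZ : PermBy G Z) (h : Z' ⊆ Z) :
    PermBy G Z' := by
  intro σ
  let ι : Z' ↪ Z := ⟨Set.inclusion h, Set.inclusion_injective h⟩
  obtain ⟨F, hF, hz⟩ := hZ (σ.viaEmbedding ι)
  refine ⟨F, hF, ?_⟩
  intro z
  have h1 := hz (ι z)
  rw [Equiv.Perm.viaEmbedding_apply] at h1
  exact h1

theorem perm_of_coinfinite {X : Type*} {Z A : Set X} (hZ : Z.Countable) (hA : A ⊆ Z) (hc : (Z \ A).Infinite) (f : A → A)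
    (hf : Function.Injective f) : ∃ σ : Equiv.Perm Z, ∀ a : A, ((σ ⟨a, hA a.2⟩ : Z) : X) = f a := by
  classical
  have hZc : Countable Z := hZ.to_subtype
  let A' : Set Z := {z | (z : X) ∈ A}
  let g : A' → Z := fun z => ⟨f ⟨z, z.2⟩, hA (f ⟨z, z.2⟩).2⟩
  have hg : Function.Injective g := by
    intro x y hxy
    have h1 : ((f ⟨x, x.2⟩ : A) : X) = f ⟨y, y.2⟩ := congrArg (fun z : Z => (z : X)) hxy
    have h2 := hf (Subtype.ext h1)
    have h3 : ((x : Z) : X) = ((y : Z) : X) := congrArg (fun z : A => (z : X)) h2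
    exact Subtype.ext (Subtype.ext h3)
  have hinf1 : (A'ᶜ : Set Z).Infinite := by
    intro hfin
    apply hc
    refine (hfin.image (Subtype.val : Z → X)).subset ?_
    rintro x ⟨hx, hxA⟩
    exact ⟨⟨x, hx⟩, hxA, rfl⟩
  have hinf2 : ((Set.range g)ᶜ : Set Z).Infinite := by
    refine hinf1.mono ?_
    intro x hx hr
    obtain ⟨y, rfl⟩ := hr
    exact hx (f ⟨y, y.2⟩).2
  have i1 : Infinite (A'ᶜ : Set Z) := hinf1.to_subtype
  have i2 : Infinite ((Set.range g)ᶜ : Set Z) := hinf2.to_subtype
  obtain ⟨e⟩ : Nonempty ((A'ᶜ : Set Z) ≃ ((Set.range g)ᶜ : Set Z)) := by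
    obtain ⟨d1⟩ := nonempty_equiv_of_countable (α := (A'ᶜ : Set Z)) (β := ℕ)
    obtain ⟨d2⟩ := nonempty_equiv_of_countable (α := ((Set.range g)ᶜ : Set Z)) (β := ℕ)
    exact ⟨d1.trans d2.symm⟩
  refine ⟨(Equiv.Set.sumCompl A').symm.trans
    ((Equiv.sumCongr (Equiv.ofInjective g hg) e).trans (Equiv.Set.sumCompl (Set.range g))), ?_⟩
  intro a
  have ha : (⟨a, hA a.2⟩ : Z) ∈ A' := a.2
  rw [Equiv.trans_apply, Equiv.trans_apply, Equiv.Set.sumCompl_symm_apply_of_mem ha]
  rfl

end Pool.Agent.Lib.MP_c05f88_an
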