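import Pool.Agent.Lib.MP_c05f88_an.Defs
import Pool.Agent.Lib.MP_c05f88_an.Ext

/-!
# The recursive construction (job Step)

Constants: for each `k` choose `c k > 0` such that (a) `c k ≤` the `ε` of `Equi G` for `K = L (k+1)`, `K' = L (k+2)`; (b) `x ∈ L k`, `dist x y < c k` imply
`y ∈ L (k+1)`, and `x ∈ L (k+1)`, `dist x y < c k` imply `y ∈ L (k+2)` (a compact set contained in an open set has a thickening contained in it:
`IsCompact.exists_thickening_subset_open`); (c) `c k ≤ (1/2)^k`.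

A state at `k` is a triple `(P, η, A)`, `P ∈ G`, `P '' Z = Z`, `0 < η ≤ c k`, `Loc G Z (L (k+2)) η A`, `P z = f z` for `z ∈ A` and for `z = e i`, `i ≤ k`, and
`∀ x ∈ L k, ∀ y, dist x y < η → dist (P x) (P y) < (1/2)^k`.

State at `0`: `η = c 0`, `A` from `hloc` for `L 2`; `P ∈ G` the extension (`hZ`) of a permutation which agrees with `f` on the finite set
`A ∪ {e 0}` (`exists_perm_extend`); the last property is empty because `L 0 = ∅`. (`P '' Z = Z` because `P` restricts to a permutation of `Z`.)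

Step: let `(P, η, A)` be a state at `k`. By compactness of `L (k+2)` and continuity of `P` there is `s > 0` with
`u ∈ L (k+2), dist u v < s → dist (P u) (P v) < (1/2)^(k+1)` (`IsCompact.uniformContinuousAt_of_continuousAt`). Let `t` be the constant of `Equi G`
for `K = L (k+1)`, `K' = L (k+2)` and `s`, `η' = min t (min (η / 2) (c (k+1)))`, `A'` from `hloc` for `L (k+3), η'`. The function
`g = P⁻¹ ∘ f : Z → Z` (`P` permutes `Z`) is injective and `g a = a` for `a ∈ A`. Let `B = A' ∪ A ∪ {e 0, ..., e (k+1)}` and let `π` be a permutation of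
`Z` with `π = g` on `B`; it fixes `A`. `Loc` gives `H ∈ G`, `H '' Z = Z`, `H = π` on `B`, `H, H⁻¹` `η`-close to the identity on `L (k+2)`. Put
`P' = P * H` (`P' x = P (H x)`). Then `P' b = P (g b) = f b` on `B`, and for `x ∈ L (k+1)`, `dist x y < η'`: `dist (H x) (H y) < s` and `H x ∈ L (k+2)` by (b), so
`dist (P' x) (P' y) < (1/2)^(k+1)`. So `(P', η', A')` is a state at `k+1`, `η' ≤ η / 2`, and for `x ∈ L (k+2)`: `dist (P⁻¹ (P' x)) x = dist (H x) x < η`
and `dist (P'⁻¹ (P x)) x = dist (H⁻¹ x) x < η`. Iterate (recursion on a subtype or sigma type of states, or first prove a lemma for dependent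
choice: if `S : ℕ → Type`, `s0 : S 0` and `∀ k (s : S k), ∃ s' : S (k+1), R k s s'`, there is `s : ∀ k, S k` with `R k (s k) (s (k+1))`).
`η k ≤ c k ≤ (1/2)^k` gives `small` and `nbd`.
-/

namespace Pool.Agent.Lib.MP_c05f88_an

open Set Filter Topology

private theorem step_choice {S : Type*} (p : ℕ → S → Prop) (R : ℕ → S → S → Prop) {s0 : S} (h0 : p 0 s0)
    (h : ∀ k s, p k s → ∃ s', p (k + 1) s' ∧ R k s s') : ∃ s : ℕ → S, (∀ k, p k (s k)) ∧ ∀ k, R k (s k) (s (k + 1)) := by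
  choose g hg1 hg2 using h
  let s : ∀ k : ℕ, {x : S // p k x} := fun k => Nat.rec ⟨s0, h0⟩ (fun k x => ⟨g k x.1 x.2, hg1 k x.1 x.2⟩) k
  exact ⟨fun k => (s k).1, fun k => (s k).2, fun k => hg2 k (s k).1 (s k).2⟩

private theorem step_thick {X : Type*} [MetricSpace X] {K U : Set X} (hK : IsCompact K) (h : K ⊆ interior U) :
    ∃ c > 0, ∀ x ∈ K, ∀ y, dist x y < c → y ∈ U := by
  obtain ⟨δ, hδ, h⟩ := hK.exists_thickening_subset_open isOpen_interior h
  refine ⟨δ, hδ, fun x hx y hy => interior_subset (h ?_)⟩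
  rw [Metric.mem_thickening_iff]
  exact ⟨x, hx, by rwa [dist_comm]⟩

/-- states of the construction -/
private structure step_state {X : Type*} [MetricSpace X] (G : Subgroup (X ≃ₜ X)) (Z : Set X) (L : ℕ → Set X) (e : ℕ → Z) (f : Z → Z)
    (c : ℕ → ℝ) (k : ℕ) (s : (X ≃ₜ X) × ℝ × Finset Z) : Prop where
  mem : s.1 ∈ G
  img : s.1 '' Z = Z
  pos : 0 < s.2.1
  le : s.2.1 ≤ c k
  loc : Loc G Z (L (k + 2)) s.2.1 s.2.2
  valA : ∀ z ∈ s.2.2, s.1 z = f z
  vale : ∀ i ≤ k, s.1 (e i) = f (e i)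
  modulus : ∀ x ∈ L k, ∀ y, dist x y < s.2.1 → dist (s.1 x) (s.1 y) < (1 / 2) ^ k

private theorem step_img {X : Type*} [MetricSpace X] {P : X ≃ₜ X} {Z : Set X} {σ : Equiv.Perm Z}
    (h : ∀ z : Z, P z = σ z) : P '' Z = Z := by
  ext y
  constructor
  · rintro ⟨z, hz, rfl⟩
    rw [h ⟨z, hz⟩]
    exact (σ ⟨z, hz⟩).2
  · intro hy
    refine ⟨σ.symm ⟨y, hy⟩, (σ.symm ⟨y, hy⟩).2, ?_⟩
    rw [h (σ.symm ⟨y, hy⟩), Equiv.apply_symm_apply]

private theorem step_succ {X : Type*} [MetricSpace X] {G : Subgroup (X ≃ₜ X)} {Z : Set X}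
    (hloc : ∀ K : Set X, IsCompact K → ∀ ε > 0, ∃ A : Finset Z, Loc G Z K ε A) {L : ℕ → Set X} (hL : ∀ k, IsCompact (L k))
    (e : ℕ → Z) {f : Z → Z} (hf : Function.Injective f) {c : ℕ → ℝ}
    (hc0 : ∀ k, 0 < c k)
    (hcE : ∀ k, ∀ s > 0, ∃ t > 0,
      ∀ H ∈ G, (∀ x ∈ L (k + 2), dist (H x) x < c k) → ∀ x ∈ L (k + 1), ∀ y, dist x y < t → dist (H x) (H y) < s)
    (hc1 : ∀ k, ∀ x ∈ L (k + 1), ∀ y, dist x y < c k → y ∈ L (k + 2))
    (hLm : ∀ k, L k ⊆ L (k + 1))
    (k : ℕ) (s : (X ≃ₜ X) × ℝ × Finset Z) (hs : step_state G Z L e f c k s) :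
    ∃ s' : (X ≃ₜ X) × ℝ × Finset Z, step_state G Z L e f c (k + 1) s' ∧
      (s'.2.1 ≤ s.2.1 / 2 ∧ (∀ x ∈ L (k + 2), dist (s.1.symm (s'.1 x)) x < s.2.1) ∧
        ∀ x ∈ L (k + 2), dist (s'.1.symm (s.1 x)) x < s.2.1) := by
  classical
  obtain ⟨P, η, A⟩ := s
  obtain ⟨hPG, hPZ, hη, hηc, hA, hvA, hve, hmod⟩ := hs
  simp only at hPG hPZ hη hηc hA hvA hve hmod ⊢
  -- uniform continuity of P on L (k+2)
  obtain ⟨r, hr, hPr⟩ : ∃ r > 0, ∀ u ∈ L (k + 2), ∀ v, dist u v < r → dist (P u) (P v) < (1 / 2) ^ (k + 1) := by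
    have h1 := (hL (k + 2)).uniformContinuousAt_of_continuousAt (P : X → X) (fun x _ => P.continuous.continuousAt)
      (Metric.dist_mem_uniformity (show (0 : ℝ) < (1 / 2) ^ (k + 1) by positivity))
    rw [Metric.mem_uniformity_dist] at h1
    obtain ⟨r, hr, h⟩ := h1
    exact ⟨r, hr, fun u hu v huv => h huv hu⟩
  obtain ⟨t, ht, hEt⟩ := hcE k r hr
  let η' := min t (min (η / 2) (c (k + 1)))
  have hη' : 0 < η' := lt_min ht (lt_min (half_pos hη) (hc0 _))
  obtain ⟨A', hA'⟩ := hloc (L (k + 1 + 2)) (hL _) η' hη'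
  -- g = P⁻¹ ∘ f
  have hPs : ∀ z ∈ Z, P.symm z ∈ Z := by
    intro z hz
    rw [← hPZ] at hz
    obtain ⟨w, hw, rfl⟩ := hz
    rwa [Homeomorph.symm_apply_apply]
  let g : Z → Z := fun z => ⟨P.symm (f z), hPs _ (f z).2⟩
  have hg : Function.Injective g := by
    intro a b hab
    have h1 : P.symm (f a) = P.symm (f b) := congrArg Subtype.val hab
    exact hf (Subtype.ext (P.symm.injective h1))
  have hgA : ∀ a : Z, P a = f a → g a = a := by
    intro a ha
    apply Subtype.ext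
    show P.symm (f a) = a
    rw [← ha, Homeomorph.symm_apply_apply]
  let B : Finset Z := (A' ∪ A) ∪ (Finset.range (k + 2)).image e
  obtain ⟨π, hπ⟩ := exists_perm_extend B hg
  have hπA : ∀ a ∈ A, π a = a := by
    intro a ha
    rw [hπ a (by simp [B, ha]), hgA a (hvA a ha)]
  obtain ⟨H, hHG, hHZ, hHB, hH1, hH2⟩ := hA π hπA B
  have hval : ∀ b ∈ B, P (H b) = f b := by
    intro b hb
    rw [hHB b hb, hπ b hb]
    exact P.apply_symm_apply _
  refine ⟨(P * H, η', A'), ⟨mul_mem hPG hHG, ?_, hη', (min_le_right _ _).trans (min_le_right _ _), hA', ?_, ?_, ?_⟩, ?_, ?_, ?_⟩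
  · show (fun x => P (H x)) '' Z = Z
    rw [← image_image (fun x => P x) (fun x => H x) Z]
    have h1 : (fun x => H x) '' Z = Z := hHZ
    rw [h1]
    exact hPZ
  · intro z hz
    exact hval z (by simp [B]; tauto)
  · intro i hi
    exact hval (e i) (by
      simp only [B, Finset.mem_union, Finset.mem_image, Finset.mem_range]
      exact Or.inr ⟨i, by omega, rfl⟩)
  · intro x hx y hxy
    have h1 : dist (H x) (H y) < r := by
      refine hEt H hHG (fun z hz => (hH1 z hz).trans_le hηc) x hx y (lt_of_lt_of_le hxy (min_le_left _ _))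
    have h2 : H x ∈ L (k + 2) := by
      apply hc1 k x hx
      rw [dist_comm]
      exact (hH1 x (hLm _ hx)).trans_le hηc
    exact hPr _ h2 _ h1
  · exact (min_le_right _ _).trans (min_le_left _ _)
  · intro x hx
    show dist (P.symm (P (H x))) x < η
    rw [Homeomorph.symm_apply_apply]
    exact hH1 x hx
  · intro x hx
    show dist (H.symm (P.symm (P x))) x < η
    rw [Homeomorph.symm_apply_apply]
    exact hH2 x hx

theorem exists_seq {X : Type*} [MetricSpace X] {G : Subgroup (X ≃ₜ X)} (hE : Equi G) {Z : Set X} (hZ : PermBy G Z)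
    (hloc : ∀ K : Set X, IsCompact K → ∀ ε > 0, ∃ A : Finset Z, Loc G Z K ε A) {L : ℕ → Set X} (hL : ∀ k, IsCompact (L k))
    (hLi : ∀ k, L k ⊆ interior (L (k + 1))) (hL0 : L 0 = ∅) (e : ℕ → Z) {f : Z → Z} (hf : Function.Injective f) :
    ∃ (P : ℕ → X ≃ₜ X) (η : ℕ → ℝ), Seq G Z L e f P η := by
  classical
  have hLm : ∀ k, L k ⊆ L (k + 1) := fun k => (hLi k).trans interior_subset
  have hc : ∀ k, ∃ c > 0, (∀ s > 0, ∃ t > 0,
      ∀ H ∈ G, (∀ x ∈ L (k + 2), dist (H x) x < c) → ∀ x ∈ L (k + 1), ∀ y, dist x y < t → dist (H x) (H y) < s) ∧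
      (∀ x ∈ L k, ∀ y, dist x y < c → y ∈ L (k + 1)) ∧
      (∀ x ∈ L (k + 1), ∀ y, dist x y < c → y ∈ L (k + 2)) ∧ c ≤ (1 / 2) ^ k := by
    intro k
    obtain ⟨ε, hε, h⟩ := hE (L (k + 1)) (L (k + 2)) (hL _) (hL _) (hLi _)
    obtain ⟨c1, hc1, h1⟩ := step_thick (hL k) (hLi k)
    obtain ⟨c2, hc2, h2⟩ := step_thick (hL (k + 1)) (hLi (k + 1))
    refine ⟨min (min ε ((1 / 2) ^ k)) (min c1 c2), lt_min (lt_min hε (by positivity)) (lt_min hc1 hc2), ?_, ?_, ?_, ?_⟩
    · intro s hs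
      obtain ⟨t, ht, h⟩ := h s hs
      exact ⟨t, ht, fun H hH hc => h H hH fun x hx => (hc x hx).trans_le ((min_le_left _ _).trans (min_le_left _ _))⟩
    · intro x hx y hy
      exact h1 x hx y (hy.trans_le ((min_le_right _ _).trans (min_le_left _ _)))
    · intro x hx y hy
      exact h2 x hx y (hy.trans_le ((min_le_right _ _).trans (min_le_right _ _)))
    · exact (min_le_left _ _).trans (min_le_right _ _)
  choose c hc0 hcE hcN hc1 hcs using hc
  obtain ⟨A, hA⟩ := hloc (L (0 + 2)) (hL _) (c 0) (hc0 0)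
  obtain ⟨π, hπ⟩ := exists_perm_extend (insert (e 0) A) hf
  obtain ⟨P, hPG, hPπ⟩ := hZ π
  have h0 : step_state G Z L e f c 0 (P, c 0, A) := by
    refine ⟨hPG, step_img hPπ, hc0 0, le_rfl, hA, ?_, ?_, ?_⟩
    · intro z hz
      show P z = f z
      rw [hPπ z, hπ z (Finset.mem_insert_of_mem hz)]
    · intro i hi
      obtain rfl : i = 0 := by omega
      show P (e 0) = f (e 0)
      rw [hPπ, hπ _ (Finset.mem_insert_self _ _)]
    · intro x hx
      rw [hL0] at hx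
      exact absurd hx (notMem_empty x)
  obtain ⟨s, hs, hR⟩ := step_choice (step_state G Z L e f c)
    (fun k s s' => s'.2.1 ≤ s.2.1 / 2 ∧ (∀ x ∈ L (k + 2), dist (s.1.symm (s'.1 x)) x < s.2.1) ∧
        ∀ x ∈ L (k + 2), dist (s'.1.symm (s.1 x)) x < s.2.1) h0
    (step_succ hloc hL e hf hc0 hcE hc1 hLm)
  refine ⟨fun k => (s k).1, fun k => (s k).2.1, ?_⟩
  constructor
  · exact fun k => (hs k).mem
  · exact fun k => (hs k).img
  · exact fun k => (hs k).pos
  · exact fun k => (hR k).1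
  · exact fun k => (hs k).le.trans (hcs k)
  · exact fun k x hx y hy => hcN k x hx y (lt_of_lt_of_le hy (hs k).le)
  · exact fun k => (hs k).vale
  · exact fun k => (hR k).2.1
  · exact fun k => (hR k).2.2
  · exact fun k => (hs k).modulus

end Pool.Agent.Lib.MP_c05f88_an
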