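import Pool.Agent.Lib.MP_c05f88_an.Closed
import Pool.Agent.Lib.MP_c05f88_an.Step
import Pool.Agent.Lib.MP_c05f88_an.LimOpen

/-!
# The topological theorem (job Abs)

`Z` is closed and discrete (`closed_discrete`), so countable (`countable_of_Lindelof_of_discrete` or similar, `X` second countable) and infinite:
there is a surjection `e : ℕ → Z`. `L = (CompactExhaustion.choice X).shiftr`: `L 0 = ∅`, `L k` compact, `L k ⊆ interior (L (k+1))`, union everything
(`X` is locally compact and second countable, hence sigma-compact, weakly locally compact). Apply `exists_loc`, `exists_seq`, `exists_limit` and the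
theorems on the limit.
-/

namespace Pool.Agent.Lib.MP_c05f88_an

open Set Filter Topology

theorem exists_limit_map {X : Type*} [MetricSpace X] [LocallyCompactSpace X] [SecondCountableTopology X]
    {G : Subgroup (X ≃ₜ X)} (hE : Equi G) {Z : Set X} (hinf : Z.Infinite) (hZ : PermBy G Z) {f : Z → Z} (hf : Function.Injective f) :
    ∃ (Φ : X → X) (P : ℕ → X ≃ₜ X), (∀ k, P k ∈ G ∧ P k '' Z = Z) ∧ TendstoLocallyUniformly (fun m x => P m x) Φ atTop ∧
      Continuous Φ ∧ Function.Injective Φ ∧ IsOpenMap Φ ∧ (∀ z : Z, Φ z = f z) ∧ ∀ z : Z, (z : X) ∈ range Φ → z ∈ range f := by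
  obtain ⟨hZc, hZd⟩ := closed_discrete hE hZ
  have hcount : Countable Z := countable_of_Lindelof_of_discrete
  have hc : Z.Countable := Set.countable_coe_iff.mp hcount
  have hne : Nonempty Z := hinf.nonempty.to_subtype
  obtain ⟨e, he⟩ := exists_surjective_nat Z
  have hsig : SigmaCompactSpace X := inferInstance
  set C : CompactExhaustion X := (CompactExhaustion.choice X).shiftr with hCdef
  have hL : ∀ k, IsCompact (C k) := C.isCompact
  have hLi : ∀ k, (C k : Set X) ⊆ interior (C (k + 1)) := C.subset_interior_succ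
  have hL0 : (C 0 : Set X) = ∅ := rfl
  have hLU : ⋃ k, (C k : Set X) = univ := C.iUnion_eq
  obtain ⟨P, η, hS⟩ := exists_seq hE hZ (fun K hK ε hε => exists_loc G hc hZ hK hε) (L := fun k => C k) hL hLi hL0 e hf
  obtain ⟨Φ, hΦ⟩ := exists_limit hS hL hLi hLU
  exact ⟨Φ, P, fun k => ⟨hS.mem k, hS.img k⟩, limit_unif hLi hLU hΦ, limit_continuous hLi hLU hΦ,
    limit_injective hS hLi hLU hΦ, limit_isOpenMap hS hL hLi hLU hΦ, limit_val hS hLi hLU hΦ he,
    fun z hz => limit_range hS hLi hLU hΦ he hZc z hz⟩

end Pool.Agent.Lib.MP_c05f88_an
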