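import Mathlib

/-!
# Analytic sets which are not meagre are comeagre in a nonempty open set
-/

set_option autoImplicit false

namespace Pool.Agent.Lib.MP_c05f88_an

open Set Filter Topology TopologicalSpace MeasureTheory

variable {H : Type*} [TopologicalSpace H]

/-- The points at which `A` is not locally meagre. -/
def Dm (A : Set H) : Set H := {x | ∀ N ∈ 𝓝 x, ¬ IsMeagre (A ∩ N)}

theorem isClosed_Dm (A : Set H) : IsClosed (Dm A) := by
  rw [← isOpen_compl_iff, isOpen_iff_mem_nhds]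
  intro x hx
  simp only [Dm, mem_compl_iff, mem_ofPred_eq, not_forall, not_not] at hx
  obtain ⟨N, hN, hm⟩ := hx
  obtain ⟨N', hN', ho, hxN⟩ := mem_nhds_iff.mp hN
  refine Filter.mem_of_superset (ho.mem_nhds hxN) ?_
  intro y hy hyD
  exact hyD N' (ho.mem_nhds hy) (hm.mono (inter_subset_inter_right A hN'))

theorem meagre_diff_Dm [SecondCountableTopology H] (A : Set H) : IsMeagre (A \ Dm A) := by
  have h1 : A \ Dm A ⊆ ⋃ N ∈ {N ∈ countableBasis H | IsMeagre (A ∩ N)}, (A ∩ N) := by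
    rintro x ⟨hxA, hx⟩
    simp only [Dm, mem_ofPred_eq, not_forall, not_not] at hx
    obtain ⟨N, hN, hm⟩ := hx
    obtain ⟨B, hB, hxB, hBN⟩ := (isBasis_countableBasis H).mem_nhds_iff.mp hN
    simp only [mem_iUnion]
    exact ⟨B, ⟨hB, hm.mono (inter_subset_inter_right A hBN)⟩, hxA, hxB⟩
  refine IsMeagre.mono h1 ?_
  have hc : {N ∈ countableBasis H | IsMeagre (A ∩ N)}.Countable :=
    (countable_countableBasis H).mono (sep_subset _ _)
  have : Countable ↥{N ∈ countableBasis H | IsMeagre (A ∩ N)} := hc.to_subtype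
  rw [biUnion_eq_iUnion]
  exact isMeagre_iUnion fun N => N.2.2

theorem Dm_subset_closure (A : Set H) : Dm A ⊆ closure A := by
  intro x hx
  by_contra hcon
  refine hx (closure A)ᶜ (isClosed_closure.isOpen_compl.mem_nhds hcon) ?_
  have : A ∩ (closure A)ᶜ = ∅ := by
    rw [← Set.sdiff_eq, Set.sdiff_eq_empty]
    exact subset_closure
  rw [this]
  exact IsMeagre.empty

theorem interior_of_not_meagre {D N : Set H} (hD : IsClosed D) (h : ¬ IsMeagre (D ∩ N)) :
    (interior D ∩ N).Nonempty := by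
  by_contra hcon
  rw [not_nonempty_iff_eq_empty] at hcon
  apply h
  have h1 : IsNowhereDense (frontier D) := by
    rw [IsNowhereDense, isClosed_frontier.closure_eq]
    exact interior_frontier hD
  refine h1.isMeagre.mono ?_
  rintro x ⟨hxD, hxN⟩
  rw [hD.frontier_eq]
  refine ⟨hxD, fun hx => ?_⟩
  have : x ∈ interior D ∩ N := ⟨hx, hxN⟩
  rw [hcon] at this
  exact this

theorem meagre_T [SecondCountableTopology H] (A : Set H) (B : ℕ → Set H) (hAB : A ⊆ ⋃ n, B n) :
    IsMeagre (Dm A \ ⋃ n, Dm (B n)) := by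
  apply IsNowhereDense.isMeagre
  rw [IsNowhereDense]
  by_contra hcon
  rw [← ne_eq, ← nonempty_iff_ne_empty] at hcon
  set T := Dm A \ ⋃ n, Dm (B n) with hT
  set N := interior (closure T) with hN
  obtain ⟨x, hx⟩ := hcon
  have hND : N ⊆ Dm A := by
    refine interior_subset.trans ?_
    rw [← (isClosed_Dm A).closure_eq]
    exact closure_mono sdiff_subset
  have h1 : ¬ IsMeagre (A ∩ N) := hND hx N (isOpen_interior.mem_nhds hx)
  have h2 : ∃ n, ¬ IsMeagre (Dm (B n) ∩ N) := by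
    by_contra hcon2
    push Not at hcon2
    apply h1
    have h3 : A ∩ N ⊆ (⋃ n, (B n \ Dm (B n))) ∪ ⋃ n, (Dm (B n) ∩ N) := by
      rintro y ⟨hyA, hyN⟩
      obtain ⟨n, hn⟩ := mem_iUnion.mp (hAB hyA)
      by_cases hy : y ∈ Dm (B n)
      · exact Or.inr (mem_iUnion.mpr ⟨n, hy, hyN⟩)
      · exact Or.inl (mem_iUnion.mpr ⟨n, hn, hy⟩)
    refine IsMeagre.mono h3 ?_
    exact (isMeagre_iUnion fun n => meagre_diff_Dm (B n)).union (isMeagre_iUnion hcon2)
  obtain ⟨n, hn⟩ := h2
  obtain ⟨y, hy1, hy2⟩ := interior_of_not_meagre (isClosed_Dm (B n)) hn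
  have h4 : y ∈ closure T := interior_subset hy2
  rw [mem_closure_iff] at h4
  obtain ⟨z, hz1, hz2⟩ := h4 (interior (Dm (B n))) isOpen_interior hy1
  exact hz2.2 (mem_iUnion.mpr ⟨n, interior_subset hz1⟩)

/-- The finite sequence of the first `k` values. -/
def pre (x : ℕ → ℕ) (k : ℕ) : List ℕ := (List.range k).map x

theorem pre_succ (x : ℕ → ℕ) (k : ℕ) : pre x (k + 1) = pre x k ++ [x k] := by
  simp [pre, List.range_succ]

theorem pre_length (x : ℕ → ℕ) (k : ℕ) : (pre x k).length = k := by simp [pre]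

/-- Sequences which extend `l`. -/
def Cyl (l : List ℕ) : Set (ℕ → ℕ) := {x | pre x l.length = l}

theorem cyl_nil : Cyl [] = univ := by
  ext x
  simp [Cyl, pre]

theorem cyl_subset (l : List ℕ) : Cyl l ⊆ ⋃ n, Cyl (l ++ [n]) := by
  intro x hx
  refine mem_iUnion.mpr ⟨x l.length, ?_⟩
  have hx' : pre x l.length = l := hx
  show pre x (l ++ [x l.length]).length = l ++ [x l.length]
  rw [List.length_append, List.length_singleton, pre_succ, hx']

theorem eq_of_pre {x y : ℕ → ℕ} {k : ℕ} (h : pre x k = pre y k) {i : ℕ} (hi : i < k) : x i = y i := by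
  have h1 : (pre x k)[i]'(by rw [pre_length]; exact hi) = (pre y k)[i]'(by rw [pre_length]; exact hi) := by
    simp only [h]
  simpa [pre] using h1

theorem nhds_cyl (y : ℕ → ℕ) {U : Set (ℕ → ℕ)} (hU : U ∈ 𝓝 y) : ∃ k, Cyl (pre y k) ⊆ U := by
  rw [nhds_pi, Filter.mem_pi] at hU
  obtain ⟨I, hI, t, ht, hsub⟩ := hU
  obtain ⟨k, hk⟩ := hI.bddAbove
  refine ⟨k + 1, fun x hx => hsub ?_⟩
  intro i hi
  have hx' : pre x (pre y (k + 1)).length = pre y (k + 1) := hx
  rw [pre_length] at hx'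
  have h1 := eq_of_pre hx' (Nat.lt_succ_of_le (hk hi))
  show x i ∈ t i
  rw [h1]
  exact mem_of_mem_nhds (ht i)

theorem residual_of_analytic [SecondCountableTopology H] [T2Space H] {A : Set H}
    (hA : AnalyticSet A) (hm : ¬ IsMeagre A) :
    ∃ O : Set H, IsOpen O ∧ O.Nonempty ∧ IsMeagre (O \ A) := by
  rw [AnalyticSet] at hA
  rcases hA with h0 | ⟨g, hg, hgA⟩
  · exact absurd (h0 ▸ IsMeagre.empty) hm
  set D : List ℕ → Set H := fun l => Dm (g '' Cyl l) with hD
  have hT : ∀ l, IsMeagre (D l \ ⋃ n, D (l ++ [n])) := by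
    intro l
    refine meagre_T _ _ ?_
    rw [← image_iUnion]
    exact image_mono (cyl_subset l)
  have hA0 : g '' Cyl [] = A := by rw [cyl_nil, image_univ, hgA]
  have h1 : ¬ IsMeagre (D [] ∩ A) := by
    intro h2
    apply hm
    refine IsMeagre.mono ?_ ((meagre_diff_Dm A).union h2)
    intro x hx
    by_cases hxD : x ∈ D []
    · exact Or.inr ⟨hxD, hx⟩
    · refine Or.inl ⟨hx, ?_⟩
      rw [hD] at hxD
      simp only [hA0] at hxD
      exact hxD
  have h2 : (interior (D [])).Nonempty :=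
    (interior_of_not_meagre (isClosed_Dm _) h1).mono inter_subset_left
  refine ⟨interior (D []), isOpen_interior, h2, ?_⟩
  refine IsMeagre.mono (t := interior (D []) \ A) ?_ (isMeagre_iUnion hT)
  rintro x ⟨hxO, hxA⟩
  by_contra hcon
  simp only [mem_iUnion, mem_diff, not_exists, not_and, not_forall, not_not] at hcon
  -- the branch
  have hstep : ∀ l : {l // x ∈ D l}, ∃ n, x ∈ D (l.1 ++ [n]) := fun l => hcon l.1 l.2
  choose nx hnx using hstep
  let L : ℕ → {l // x ∈ D l} := fun k =>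
    Nat.rec ⟨[], interior_subset hxO⟩ (fun _ l => ⟨l.1 ++ [nx l], hnx l⟩) k
  let y : ℕ → ℕ := fun k => nx (L k)
  have hy : ∀ k, pre y k = (L k).1 := by
    intro k
    induction k with
    | zero => rfl
    | succ k ih =>
      rw [pre_succ, ih]
  have hcl : ∀ k, x ∈ closure (g '' Cyl (pre y k)) := by
    intro k
    rw [hy k]
    exact Dm_subset_closure _ (L k).2
  apply hxA
  rw [← hgA]
  refine ⟨y, ?_⟩
  by_contra hne
  obtain ⟨V, U, hV, hU, hyV, hxU, hdis⟩ := t2_separation hne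
  obtain ⟨k, hk⟩ := nhds_cyl y (hg.continuousAt.preimage_mem_nhds (hV.mem_nhds hyV))
  have h3 := hcl k
  rw [mem_closure_iff] at h3
  obtain ⟨z, hzU, w, hw, rfl⟩ := h3 U hU hxU
  exact Set.disjoint_left.mp hdis (hk hw) hzU

end Pool.Agent.Lib.MP_c05f88_an
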