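import Pool.Agent.Lib.MP_c05f88_an.Defs

/-!
# Baire category in the group of permutations of a countable set (job Baire)

If the permutations of the countable set `α` are covered by countably many sets `C j`, then for some `j` and some permutation `σ₀` and finite
set `A₀` the set `C j` is dense in the neighbourhood `{σ : σ = σ₀ on A₀ and σ⁻¹ = σ₀⁻¹ on A₀}` of `σ₀`.

Proof. Give `α` the discrete topology (`letI : TopologicalSpace α := ⊥`); `α → α` is Polish, and so is `(α → α) × (α → α)`. The set
`S = {(f, g) | ∀ a, f (g a) = a ∧ g (f a) = a}` is closed (for fixed `a` the map `(f, g) ↦ f (g a)` is continuous: it is locally constant, since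
near `(f, g)` the value `g a` is constant `= b` and then `f b` is constant), hence `S` is a Polish space (`IsClosed.polishSpace`), so a Baire space,
and it is nonempty. `S ≃ Equiv.Perm α`. The closures in `S` of the (images of the) sets `C j` cover `S`, so one of them has nonempty interior
(`nonempty_interior_of_iUnion_of_closed`). An interior point `σ₀` has a basic neighbourhood contained in the closure of `C j`, and a basic
neighbourhood is given by a finite set of coordinates: there is a finite `A₀` with `{σ | σ = σ₀, σ⁻¹ = σ₀⁻¹ on A₀} ⊆ closure (C j)`. Every `σ` in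
the closure is approximated on each finite set `B` by an element of `C j`.
-/

namespace Pool.Agent.Lib.MP_c05f88_an

open Set Filter Topology

theorem exists_dense_class {α : Type*} [Countable α] (C : ℕ → Set (Equiv.Perm α)) (hC : ∀ σ, ∃ j, σ ∈ C j) :
    ∃ (j : ℕ) (σ₀ : Equiv.Perm α) (A₀ : Finset α), ∀ σ : Equiv.Perm α,
      (∀ a ∈ A₀, σ a = σ₀ a ∧ σ.symm a = σ₀.symm a) → ∀ B : Finset α, ∃ τ ∈ C j, ∀ b ∈ B, τ b = σ b := by
  classical
  by_contra hcon
  push Not at hcon
  choose S hS B hB using hcon
  rcases isEmpty_or_nonempty α with hα | hα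
  · obtain ⟨j, hj⟩ := hC 1
    obtain ⟨b, _⟩ := hB j 1 ∅ 1 hj
    exact isEmptyElim b
  obtain ⟨e, he⟩ := exists_surjective_nat α
  let st : ℕ → Equiv.Perm α × Finset α := fun n =>
    Nat.rec (1, ∅) (fun n p => (S n p.1 p.2, p.2 ∪ B n p.1 p.2 ∪ {e n})) n
  have hst : ∀ n, st (n + 1) =
      (S n (st n).1 (st n).2, (st n).2 ∪ B n (st n).1 (st n).2 ∪ {e n}) := fun n => rfl
  have hmono : Monotone (fun n => (st n).2) := by
    refine monotone_nat_of_le_succ (fun n => ?_)
    intro a ha
    simp only [hst, Finset.mem_union]
    exact Or.inl (Or.inl ha)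
  have hag : ∀ n m, n ≤ m → ∀ a ∈ (st n).2,
      (st m).1 a = (st n).1 a ∧ (st m).1.symm a = (st n).1.symm a := by
    intro n m hnm
    induction m, hnm using Nat.le_induction with
    | base => intro a _; exact ⟨rfl, rfl⟩
    | succ m hm ih =>
      intro a ha
      have h1 := hS m (st m).1 (st m).2 a (hmono hm ha)
      rw [hst]
      exact ⟨h1.1.trans (ih a ha).1, h1.2.trans (ih a ha).2⟩
  have hex : ∀ a, ∃ n, a ∈ (st n).2 := by
    intro a
    obtain ⟨n, rfl⟩ := he a
    refine ⟨n + 1, ?_⟩
    simp only [hst, Finset.mem_union, Finset.mem_singleton]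
    exact Or.inr trivial
  choose N hN using hex
  have h1 : ∀ a m, N a ≤ m → (st m).1 a = (st (N a)).1 a ∧
      (st m).1.symm a = (st (N a)).1.symm a := fun a m hm => hag (N a) m hm a (hN a)
  let σ : Equiv.Perm α :=
    { toFun := fun a => (st (N a)).1 a
      invFun := fun a => (st (N a)).1.symm a
      left_inv := by
        intro a
        set b := (st (N a)).1 a with hb
        have h2 := (h1 a (max (N a) (N b)) (le_max_left _ _)).1
        have h3 := (h1 b (max (N a) (N b)) (le_max_right _ _)).2
        change (st (N b)).1.symm b = a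
        rw [← h3, Equiv.symm_apply_eq, h2]
      right_inv := by
        intro a
        set b := (st (N a)).1.symm a with hb
        have h2 := (h1 a (max (N a) (N b)) (le_max_left _ _)).2
        have h3 := (h1 b (max (N a) (N b)) (le_max_right _ _)).1
        change (st (N b)).1 b = a
        rw [← h3, ← Equiv.eq_symm_apply, h2] }
  obtain ⟨j, hj⟩ := hC σ
  obtain ⟨b, hb, hne⟩ := hB j (st j).1 (st j).2 σ hj
  apply hne
  have hb' : b ∈ (st (j + 1)).2 := by
    simp only [hst, Finset.mem_union]
    exact Or.inl (Or.inr hb)
  have h4 := (hag (j + 1) (max (j + 1) (N b)) (le_max_left _ _) b hb').1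
  have h5 := (h1 b (max (j + 1) (N b)) (le_max_right _ _)).1
  change (st (N b)).1 b = (st (j + 1)).1 b
  rw [← h5, h4]

end Pool.Agent.Lib.MP_c05f88_an
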