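import Mathlib

/-!
# Sets in complex manifolds all of whose bijections extend to automorphisms

A complex manifold is a Hausdorff second countable space modelled on a finite dimensional complex
normed space `E` with analytic changes of charts.
-/

set_option autoImplicit false

namespace Pool.Agent.Lib.MP_c05f88_an

open Set Filter Topology
open scoped Manifold ContDiff

section

variable (E : Type*) [NormedAddCommGroup E] [NormedSpace ℂ E]
variable {X : Type*} [TopologicalSpace X] [ChartedSpace E X]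

/-- Every bijection of `Z` is the restriction of a holomorphic automorphism of `X`. -/
def Permutable (Z : Set X) : Prop :=
  ∀ f : Z ≃ Z, ∃ F : X ≃ₘ^ω⟮𝓘(ℂ, E), 𝓘(ℂ, E)⟯ X, ∀ z : Z, F z = f z

/-- Tame sets: infinite, closed and discrete sets all of whose injective self-maps are restrictions
of holomorphic automorphisms of `X`. -/
def Tame (A : Set X) : Prop :=
  A.Infinite ∧ IsClosed A ∧ DiscreteTopology A ∧
    ∀ f : A → A, Function.Injective f → ∃ F : X ≃ₘ^ω⟮𝓘(ℂ, E), 𝓘(ℂ, E)⟯ X, ∀ a : A, F a = f a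

end

/-- The permutation of `ℕ` which exchanges `2 k` and `2 k + 1`. -/
def sw : Equiv.Perm ℕ where
  toFun n := if n % 2 = 0 then n + 1 else n - 1
  invFun n := if n % 2 = 0 then n + 1 else n - 1
  left_inv n := by
    dsimp only
    split_ifs <;> omega
  right_inv n := by
    dsimp only
    split_ifs <;> omega

theorem sw_odd (k : ℕ) : sw (2 * k + 1) = 2 * k := by
  show (if (2 * k + 1) % 2 = 0 then 2 * k + 1 + 1 else 2 * k + 1 - 1) = 2 * k
  split_ifs <;> omega

theorem sw_ge (n : ℕ) : n ≤ sw n + 1 := by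
  show n ≤ (if n % 2 = 0 then n + 1 else n - 1) + 1
  split_ifs <;> omega

variable {E : Type*} [NormedAddCommGroup E] [NormedSpace ℂ E]
variable {X : Type*} [TopologicalSpace X] [ChartedSpace E X]

/-- A set all of whose bijections extend has no accumulation point. -/
theorem no_acc [T2Space X] [IsManifold 𝓘(ℂ, E) ω X] {Z : Set X} (hZ : Permutable E Z) (p : X) :
    ∃ U ∈ 𝓝 p, (U ∩ Z).Finite := by
  by_contra hcon
  push Not at hcon
  set φ := extChartAt 𝓘(ℂ, E) p with hφ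
  have hsrc : φ.source ∈ 𝓝 p := extChartAt_source_mem_nhds p
  have hcont : ContinuousAt φ p := continuousAt_extChartAt p
  have hstep : ∀ δ : ℝ, 0 < δ → ∃ z : X, (z ∈ Z ∧ z ∈ φ.source ∧ 0 < ‖φ z - φ p‖) ∧ ‖φ z - φ p‖ < δ := by
    intro δ hδ
    have h1 : {x : X | ‖φ x - φ p‖ < δ} ∈ 𝓝 p := by
      have h2 : ContinuousAt (fun x => ‖φ x - φ p‖) p := (hcont.sub continuousAt_const).norm
      have h3 : (fun x => ‖φ x - φ p‖) p < δ := by simpa using hδ
      exact h2.eventually_lt continuousAt_const h3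
    have h4 := hcon _ (inter_mem h1 hsrc)
    obtain ⟨z, hz, hzp⟩ := h4.exists_notMem_finite (finite_singleton p)
    refine ⟨z, ⟨hz.2, hz.1.2, ?_⟩, hz.1.1⟩
    rw [norm_pos_iff, sub_ne_zero]
    intro h5
    exact hzp (φ.injOn hz.1.2 (mem_extChartAt_source p) h5)
  -- the sequence
  let T := {z : X // z ∈ Z ∧ z ∈ φ.source ∧ 0 < ‖φ z - φ p‖}
  have hstep2 : ∀ (n : ℕ) (x : T), ∃ y : T, ‖φ y.1 - φ p‖ < ‖φ x.1 - φ p‖ / (n + 2) := by
    intro n x
    obtain ⟨y, hy, hy2⟩ := hstep (‖φ x.1 - φ p‖ / (n + 2)) (div_pos x.2.2.2 (by positivity))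
    exact ⟨⟨y, hy⟩, hy2⟩
  choose nx hnx using hstep2
  obtain ⟨x0, hx0, -⟩ := hstep 1 one_pos
  let s : ℕ → T := fun n => Nat.rec ⟨x0, hx0⟩ (fun n x => nx n x) n
  have hs : ∀ n, ‖φ (s (n + 1)).1 - φ p‖ < ‖φ (s n).1 - φ p‖ / (n + 2) := fun n => hnx n (s n)
  have hpos : ∀ n, 0 < ‖φ (s n).1 - φ p‖ := fun n => (s n).2.2.2
  have hlt : ∀ n, ‖φ (s (n + 1)).1 - φ p‖ < ‖φ (s n).1 - φ p‖ := fun n => by
    refine (hs n).trans_le (div_le_self (hpos n).le ?_)
    have : (0 : ℝ) ≤ n := Nat.cast_nonneg n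
    linarith
  have hanti : StrictAnti fun n => ‖φ (s n).1 - φ p‖ := strictAnti_nat_of_succ_lt hlt
  have hinj : Function.Injective fun n => (⟨(s n).1, (s n).2.1⟩ : Z) := by
    intro m n hmn
    have h1 : (s m).1 = (s n).1 := congrArg (fun z : Z => z.1) hmn
    exact hanti.injective (by simp only [h1])
  obtain ⟨F, hF⟩ := hZ (sw.viaEmbedding ⟨_, hinj⟩)
  have hFs : ∀ n, F (s n).1 = (s (sw n)).1 := by
    intro n
    have h1 := hF ⟨(s n).1, (s n).2.1⟩
    have h2 := Equiv.Perm.viaEmbedding_apply sw ⟨_, hinj⟩ n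
    simp only [Function.Embedding.coeFn_mk] at h2
    rw [h2] at h1
    exact h1
  -- convergence
  have hhalf : ∀ n, ‖φ (s n).1 - φ p‖ ≤ ‖φ (s 0).1 - φ p‖ * (1 / 2) ^ n := by
    intro n
    induction n with
    | zero => simp
    | succ n ih =>
      have h1 : ‖φ (s n).1 - φ p‖ / (n + 2) ≤ ‖φ (s n).1 - φ p‖ / 2 := by
        apply div_le_div_of_nonneg_left (hpos n).le (by norm_num)
        have : (0 : ℝ) ≤ n := Nat.cast_nonneg n
        linarith
      calc ‖φ (s (n + 1)).1 - φ p‖ ≤ ‖φ (s n).1 - φ p‖ / 2 := (hs n).le.trans h1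
        _ ≤ ‖φ (s 0).1 - φ p‖ * (1 / 2) ^ n / 2 := by linarith
        _ = _ := by rw [pow_succ]; ring
  have hlim0 : Tendsto (fun n => ‖φ (s n).1 - φ p‖) atTop (𝓝 0) := by
    refine squeeze_zero (fun n => (hpos n).le) hhalf ?_
    have := (tendsto_pow_atTop_nhds_zero_of_lt_one (r := (1 / 2 : ℝ)) (by norm_num)
      (by norm_num)).const_mul ‖φ (s 0).1 - φ p‖
    simpa using this
  have hlim1 : Tendsto (fun n => φ (s n).1) atTop (𝓝 (φ p)) :=
    tendsto_iff_norm_sub_tendsto_zero.mpr hlim0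
  have hlim : Tendsto (fun n => (s n).1) atTop (𝓝 p) := by
    have h1 : ContinuousAt φ.symm (φ p) := continuousAt_extChartAt_symm p
    have h2 := h1.tendsto.comp hlim1
    rw [extChartAt_to_inv] at h2
    refine h2.congr fun n => ?_
    exact φ.left_inv (s n).2.2.1
  have hsw : Tendsto sw atTop atTop := by
    refine tendsto_atTop_mono (fun n => ?_) (tendsto_sub_atTop_nat 1)
    have := sw_ge n
    omega
  have hFp : F p = p := by
    have h1 : Tendsto (fun n => F (s n).1) atTop (𝓝 (F p)) :=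
      (F.continuous.tendsto p).comp hlim
    have h2 : Tendsto (fun n => F (s n).1) atTop (𝓝 p) := by
      simp only [hFs]
      exact hlim.comp hsw
    exact tendsto_nhds_unique h1 h2
  -- differentiability
  have hd : DifferentiableAt ℂ (φ ∘ F ∘ φ.symm) (φ p) := by
    have h1 : MDifferentiableAt 𝓘(ℂ, E) 𝓘(ℂ, E) F p :=
      (F.contMDiff.contMDiffAt).mdifferentiableAt (by simp)
    have h2 := h1.differentiableWithinAt_writtenInExtChartAt
    rw [writtenInExtChartAt, hFp] at h2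
    have h3 : DifferentiableWithinAt ℂ (φ ∘ F ∘ φ.symm) (range 𝓘(ℂ, E)) (φ p) := h2
    rwa [modelWithCornersSelf_coe, range_id, differentiableWithinAt_univ] at h3
  obtain ⟨C, hC⟩ := hd.isBigO_sub.bound
  have h5 := hlim1.eventually hC
  have h6 : Tendsto (fun k : ℕ => 2 * k + 1) atTop atTop := by
    refine tendsto_atTop_mono (fun n => ?_) tendsto_id
    show n ≤ 2 * n + 1
    omega
  have h7 := (h6.eventually h5).and (eventually_gt_atTop ⌈C⌉₊)
  obtain ⟨k, hk, hk2⟩ := h7.exists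
  have e1 : φ.symm (φ (s (2 * k + 1)).1) = (s (2 * k + 1)).1 := φ.left_inv (s (2 * k + 1)).2.2.1
  have e2 : φ.symm (φ p) = p := extChartAt_to_inv p
  simp only [Function.comp_apply, e1, e2, hFs, hFp, sw_odd] at hk
  have e3 := hs (2 * k)
  have e4 := hpos (2 * k + 1)
  have e5 : C ≤ (⌈C⌉₊ : ℝ) := Nat.le_ceil C
  have e6 : (⌈C⌉₊ : ℝ) < k := by exact_mod_cast hk2
  rw [lt_div_iff₀ (by positivity)] at e3
  push_cast at e3
  have e7 : C * ‖φ (s (2 * k + 1)).1 - φ p‖ ≤ (2 * (k : ℝ) + 2) * ‖φ (s (2 * k + 1)).1 - φ p‖ := by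
    apply mul_le_mul_of_nonneg_right _ e4.le
    have : (0 : ℝ) ≤ k := Nat.cast_nonneg k
    linarith
  nlinarith

theorem closed_discrete_of {X : Type*} [TopologicalSpace X] [T1Space X] {A : Set X}
    (h : ∀ p, ∃ U ∈ 𝓝 p, (U ∩ A).Finite) : IsClosed A ∧ DiscreteTopology A := by
  constructor
  · rw [← isOpen_compl_iff, isOpen_iff_mem_nhds]
    intro p hp
    obtain ⟨U, hU, hfin⟩ := h p
    have h1 : (U ∩ A)ᶜ ∈ 𝓝 p := hfin.isClosed.isOpen_compl.mem_nhds fun h2 => hp h2.2
    filter_upwards [hU, h1] with x hx hx2 hxA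
    exact hx2 ⟨hx, hxA⟩
  · rw [discreteTopology_subtype_iff']
    intro y hy
    obtain ⟨U, hU, hfin⟩ := h y
    have h2 : ((U ∩ A) \ {y}).Finite := hfin.subset diff_subset
    refine ⟨interior U ∩ ((U ∩ A) \ {y})ᶜ, isOpen_interior.inter h2.isClosed.isOpen_compl, ?_⟩
    ext x
    constructor
    · rintro ⟨⟨hx, hx2⟩, hxA⟩
      by_contra hxy
      exact hx2 ⟨⟨interior_subset hx, hxA⟩, hxy⟩
    · intro hx
      have hx' : x = y := hx
      subst hx'
      exact ⟨⟨mem_interior_iff_mem_nhds.mpr hU, fun h3 => h3.2 rfl⟩, hy⟩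

theorem exists_perm {T : Type*} [Countable T] (S : Set T) (hS : Sᶜ.Infinite) (f : S → T)
    (hf : Function.Injective f) (hr : (range f)ᶜ.Infinite) :
    ∃ π : T ≃ T, ∀ s : S, π s = f s := by
  classical
  have i1 : Infinite ↥Sᶜ := hS.to_subtype
  have i2 : Infinite ↥(range f)ᶜ := hr.to_subtype
  obtain ⟨e⟩ : Nonempty (↥Sᶜ ≃ ↥(range f)ᶜ) := by
    obtain ⟨d1⟩ := nonempty_denumerable ↥Sᶜ
    obtain ⟨d2⟩ := nonempty_denumerable ↥(range f)ᶜ
    exact ⟨Denumerable.equiv₂ _ _⟩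
  refine ⟨(Equiv.Set.sumCompl S).symm.trans
    (((Equiv.ofInjective f hf).sumCongr e).trans (Equiv.Set.sumCompl (range f))), fun s => ?_⟩
  rw [Equiv.trans_apply, Equiv.trans_apply, Equiv.Set.sumCompl_symm_apply_of_mem s.2]
  simp

section main

variable [T2Space X] [SecondCountableTopology X] [IsManifold 𝓘(ℂ, E) ω X]

theorem Permutable.closed_discrete {Z : Set X} (hZ : Permutable E Z) {A : Set X} (hA : A ⊆ Z) :
    IsClosed A ∧ DiscreteTopology A := by
  refine closed_discrete_of fun p => ?_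
  obtain ⟨U, hU, h1⟩ := no_acc hZ p
  exact ⟨U, hU, h1.subset (inter_subset_inter_right U hA)⟩

theorem Permutable.countable {Z : Set X} (hZ : Permutable E Z) : Countable Z := by
  have h1 := (hZ.closed_discrete subset_rfl).2
  exact TopologicalSpace.separableSpace_iff_countable.mp inferInstance

/-- Infinite subsets with infinite complement in `Z` are tame. -/
theorem Permutable.tame {Z : Set X} (hZ : Permutable E Z) {A : Set X} (hA : A ⊆ Z)
    (hinf : A.Infinite) (hco : (Z \ A).Infinite) : Tame E A := by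
  obtain ⟨h1, h2⟩ := hZ.closed_discrete hA
  refine ⟨hinf, h1, h2, fun f hf => ?_⟩
  have hcount := hZ.countable
  -- `A` as a subset of `Z`
  let S : Set Z := {z | (z : X) ∈ A}
  let f' : S → Z := fun s => ⟨f ⟨s.1.1, s.2⟩, hA (f ⟨s.1.1, s.2⟩).2⟩
  have hf' : Function.Injective f' := by
    intro s t hst
    have h3 : (f ⟨s.1.1, s.2⟩ : X) = f ⟨t.1.1, t.2⟩ := congrArg (fun z : Z => z.1) hst
    have h4 := congrArg (fun a : A => a.1) (hf (Subtype.ext h3))
    exact Subtype.ext (Subtype.ext h4)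
  have hS : Sᶜ.Infinite := by
    have h3 : (Z \ A) ⊆ (fun z : Z => (z : X)) '' Sᶜ := fun x hx => ⟨⟨x, hx.1⟩, hx.2, rfl⟩
    exact (hco.mono h3).of_image _
  have hr : (range f')ᶜ.Infinite := by
    refine hS.mono ?_
    intro z hz hz2
    obtain ⟨s, rfl⟩ := hz2
    exact hz (f ⟨s.1.1, s.2⟩).2
  obtain ⟨π, hπ⟩ := exists_perm S hS f' hf' hr
  obtain ⟨F, hF⟩ := hZ π
  refine ⟨F, fun a => ?_⟩
  have h3 := hF ⟨a, hA a.2⟩
  have h4 := hπ ⟨⟨a, hA a.2⟩, a.2⟩
  rw [h3, h4]

theorem Permutable.tame_iff {Z : Set X} (hZ : Permutable E Z) (hinf : Z.Infinite) :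
    Tame E Z ↔ ∃ F : X ≃ₘ^ω⟮𝓘(ℂ, E), 𝓘(ℂ, E)⟯ X, F '' Z ⊆ Z ∧ (Z \ F '' Z).Infinite := by
  constructor
  · rintro ⟨-, -, -, h⟩
    have hcount := hZ.countable
    have i1 : Infinite Z := hinf.to_subtype
    obtain ⟨d⟩ := nonempty_denumerable Z
    let e : Z ≃ ℕ := Denumerable.eqv Z
    obtain ⟨F, hF⟩ := h (fun z => e.symm (2 * e z)) (fun a b hab => by
      have h1 := e.symm.injective hab
      exact e.injective (by omega))
    refine ⟨F, ?_, ?_⟩
    · rintro _ ⟨z, hz, rfl⟩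
      rw [hF ⟨z, hz⟩]
      exact Subtype.coe_prop _
    · have h2 : (range fun n : ℕ => ((e.symm (2 * n + 1) : Z) : X)).Infinite := by
        refine infinite_range_of_injective fun a b hab => ?_
        have h3 := e.symm.injective (Subtype.ext hab)
        omega
      refine h2.mono ?_
      rintro _ ⟨n, rfl⟩
      refine ⟨Subtype.coe_prop _, ?_⟩
      rintro ⟨z, hz, h3⟩
      rw [hF ⟨z, hz⟩] at h3
      have h4 := e.symm.injective (Subtype.ext h3)
      omega
  · rintro ⟨F, hsub, hco⟩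
    obtain ⟨h1, h2⟩ := hZ.closed_discrete (subset_refl Z)
    refine ⟨hinf, h1, h2, fun f hf => ?_⟩
    have hB : Tame E (F '' Z) :=
      hZ.tame hsub (hinf.image F.injective.injOn) hco
    let e : Z ≃ F '' Z := Equiv.Set.image F Z F.injective
    obtain ⟨G, hG⟩ := hB.2.2.2 (fun b => e (f (e.symm b)))
      (e.injective.comp (hf.comp e.symm.injective))
    refine ⟨(F.trans G).trans F.symm, fun a => ?_⟩
    show F.symm (G (F a)) = f a
    have h3 := hG (e a)
    simp only [Equiv.symm_apply_apply] at h3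
    have h4 : ((e a : F '' Z) : X) = F a := rfl
    have h5 : ((e (f a) : F '' Z) : X) = F (f a) := rfl
    rw [h4, h5] at h3
    rw [h3]
    exact F.symm_apply_apply _

end main

end Pool.Agent.Lib.MP_c05f88_an
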