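import Pool.Agent.Lib.MP_c05f88_an.Defs

/-!
# Holomorphic maps in charts (job Chart)

`diffOn_chart`: `(chartAt E p).symm` is `MDifferentiableOn` its target (`mdifferentiableOn_atlas_symm` or `mdifferentiableOn_chart_symm`), `H` is `MDifferentiable`,
`chartAt E q` is `MDifferentiableOn` its source; the composition is `MDifferentiableOn` `s`, and `mdifferentiableOn_iff_differentiableOn`.

`mdiffAt_of_chart`: by the definition of `MDifferentiableAt` (`mdifferentiableAt_iff` : continuity at `x` and differentiability of `writtenInExtChartAt` within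
`range 𝓘(ℂ, E) = univ`), `writtenInExtChartAt 𝓘(ℂ, E) 𝓘(ℂ, E) x Φ = fun u => chartAt E (Φ x) (Φ ((chartAt E x).symm u))` up to simp lemmas (`mfld_simps`).
-/

namespace Pool.Agent.Lib.MP_c05f88_an

open Set Filter Topology Manifold

variable {E : Type*} [NormedAddCommGroup E] [NormedSpace ℂ E]
  {X : Type*} [TopologicalSpace X] [ChartedSpace E X]

theorem diffOn_chart [IsManifold 𝓘(ℂ, E) 1 X] {H : X → X} (hH : Hol E H) (p q : X) {s : Set E}
    (hst : s ⊆ (chartAt E p).target) (hm : ∀ u ∈ s, H ((chartAt E p).symm u) ∈ (chartAt E q).source) :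
    DifferentiableOn ℂ (fun u => chartAt E q (H ((chartAt E p).symm u))) s := by
  have h1 : MDifferentiableOn 𝓘(ℂ, E) 𝓘(ℂ, E) (chartAt E p).symm (chartAt E p).target :=
    mdifferentiableOn_atlas_symm (chart_mem_atlas E p)
  have h2 : MDifferentiableOn 𝓘(ℂ, E) 𝓘(ℂ, E) (chartAt E q) (chartAt E q).source :=
    mdifferentiableOn_atlas (chart_mem_atlas E q)
  have h3 : MDifferentiableOn 𝓘(ℂ, E) 𝓘(ℂ, E) (fun u => chartAt E q (H ((chartAt E p).symm u))) s :=
    h2.comp ((MDifferentiable.mdifferentiableOn (s := univ) hH).comp (h1.mono hst)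
      (fun u _ => mem_univ _)) hm
  exact mdifferentiableOn_iff_differentiableOn.mp h3

theorem mdiffAt_of_chart {Φ : X → X} {x : X} (hc : ContinuousAt Φ x)
    (hd : DifferentiableAt ℂ (fun u => chartAt E (Φ x) (Φ ((chartAt E x).symm u))) (chartAt E x x)) :
    MDifferentiableAt 𝓘(ℂ, E) 𝓘(ℂ, E) Φ x := by
  rw [mdifferentiableAt_iff]
  refine ⟨hc, ?_⟩
  simp only [mfld_simps] at hd ⊢
  rw [differentiableWithinAt_univ]
  exact hd

end Pool.Agent.Lib.MP_c05f88_an
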