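import Pool.Agent.Lib.MP_c05f88_an.LocE
import Pool.Agent.Lib.MP_c05f88_an.Ext

/-!
# Permutable sets are closed and discrete (job Closed)

`not_accPt_of_countable`: let `p` be an accumulation point of the countable set `Z`. Let `K'` be a compact neighbourhood of `p`, `K = {p}`, `ε` the
constant of `Equi G` for `K, K'`, and `A` the finite set of `exists_loc` for `K', ε`. As `p` is an accumulation point there is `w ∈ Z`, `w ≠ p`, `w ∉ A`
(`A` is finite: the punctured neighbourhoods of `p` avoiding `A` meet `Z`). Let `δ = dist w p > 0`, `s = δ / 4`, and `t > 0` the constant of `Equi G` for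
`s`. Choose `z, z' ∈ Z`, different from each other, from `w` and from the elements of `A`, with `dist p z < t`, `dist p z' < min t (δ / 2)` (again
because `p` is an accumulation point). Apply `Loc` to `π = Equiv.swap z w` (it fixes `A`) and `B = {z, z'}`: `H ∈ G` is `ε`-close to the identity on
`K'`, `H z = w` and `H z' = z'`. `Equi` gives `dist (H p) (H z) < s` and `dist (H p) (H z') < s`, so `dist w z' < 2 s = δ / 2`; but
`dist w z' ≥ dist w p - dist p z' > δ - δ / 2`. Contradiction.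

`closed_discrete`: if `p` is an accumulation point of `Z`, choose a sequence `u n ∈ Z`, `u n ≠ p`, `u n → p`
(`accPt_iff_frequently`, first countable; or `u n ∈ Z \ {p}` with `dist (u n) p < 1 / (n + 1)`), and `Z' = range u ⊆ Z`, which is countable, has
accumulation point `p`, and satisfies `PermBy G Z'` by `permBy_mono`: contradiction. So `Z` has no accumulation points, and
`isClosed_and_discrete_iff` (or the analogous lemma) gives the claim.
-/

namespace Pool.Agent.Lib.MP_c05f88_an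

open Set Filter Topology

theorem Closed_near {X : Type*} [MetricSpace X] {Z : Set X} {p : X} (hp : AccPt p (𝓟 Z)) {r : ℝ} (hr : 0 < r) {T : Set X}
    (hT : T.Finite) : ∃ w ∈ Z, dist p w < r ∧ w ≠ p ∧ w ∉ T := by
  have h1 : Metric.ball p r ∩ (T \ {p})ᶜ ∈ 𝓝 p := by
    refine inter_mem (Metric.ball_mem_nhds p hr) ?_
    refine IsOpen.mem_nhds (hT.subset Set.sdiff_subset).isClosed.isOpen_compl ?_
    intro h
    exact h.2 rfl
  obtain ⟨y, ⟨⟨hy1, hy2⟩, hyZ⟩, hyp⟩ := accPt_iff_nhds.1 hp _ h1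
  refine ⟨y, hyZ, ?_, hyp, fun hyT => hy2 ⟨hyT, hyp⟩⟩
  rw [dist_comm]
  exact hy1

theorem not_accPt_of_countable {X : Type*} [MetricSpace X] [LocallyCompactSpace X] [SecondCountableTopology X]
    {G : Subgroup (X ≃ₜ X)} (hE : Equi G) {Z : Set X} (hc : Z.Countable) (hZ : PermBy G Z) (p : X) : ¬ AccPt p (𝓟 Z) := by
  classical
  intro hp
  obtain ⟨K', hK', hpK'⟩ := exists_compact_mem_nhds p
  obtain ⟨ε, hε, hEq⟩ := hE {p} K' isCompact_singleton hK'
    (Set.singleton_subset_iff.2 (mem_interior_iff_mem_nhds.2 hpK'))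
  obtain ⟨A, hA⟩ := exists_loc G hc hZ hK' hε
  set SA : Set X := (fun a : Z => (a : X)) '' (A : Set Z) with hSA
  have hSAf : SA.Finite := A.finite_toSet.image _
  obtain ⟨w, hwZ, _, hwp, hwA⟩ := Closed_near hp one_pos hSAf
  have hδ : 0 < dist w p := dist_pos.2 hwp
  obtain ⟨t, ht, hEt⟩ := hEq (dist w p / 4) (by linarith)
  obtain ⟨z, hzZ, hzt, _, hzT⟩ := Closed_near hp ht (hSAf.union (Set.finite_singleton w))
  obtain ⟨z', hz'Z, hz't, _, hz'T⟩ := Closed_near hp (lt_min ht (show 0 < dist w p / 2 by linarith))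
    ((hSAf.union (Set.finite_singleton w)).union (Set.finite_singleton z))
  have hzA : z ∉ SA := fun h => hzT (Or.inl h)
  have hzw : z ≠ w := fun h => hzT (Or.inr h)
  have hz'w : z' ≠ w := fun h => hz'T (Or.inl (Or.inr h))
  have hz'z : z' ≠ z := fun h => hz'T (Or.inr h)
  obtain ⟨H, hHG, _, hHB, hH1, _⟩ := hA (Equiv.swap (⟨z, hzZ⟩ : Z) ⟨w, hwZ⟩) (by
    intro a ha
    refine Equiv.swap_apply_of_ne_of_ne ?_ ?_
    · rintro rfl
      exact hzA ⟨_, ha, rfl⟩
    · rintro rfl
      exact hwA ⟨_, ha, rfl⟩) {⟨z, hzZ⟩, ⟨z', hz'Z⟩}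
  have e1 : H z = w := by
    have := hHB ⟨z, hzZ⟩ (by simp)
    rw [Equiv.swap_apply_left] at this
    exact this
  have e2 : H z' = z' := by
    have := hHB ⟨z', hz'Z⟩ (by simp)
    rw [Equiv.swap_apply_of_ne_of_ne (fun h => hz'z (congrArg Subtype.val h)) (fun h => hz'w (congrArg Subtype.val h))] at this
    exact this
  have d1 := hEt H hHG hH1 p rfl z hzt
  have d2 := hEt H hHG hH1 p rfl z' (lt_of_lt_of_le hz't (min_le_left _ _))
  rw [e1] at d1
  rw [e2] at d2
  have d3 : dist p z' < dist w p / 2 := lt_of_lt_of_le hz't (min_le_right _ _)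
  have t1 := dist_triangle w (H p) z'
  have t2 := dist_triangle w z' p
  rw [dist_comm w (H p)] at t1
  rw [dist_comm z' p] at t2
  linarith

theorem closed_discrete {X : Type*} [MetricSpace X] [LocallyCompactSpace X] [SecondCountableTopology X]
    {G : Subgroup (X ≃ₜ X)} (hE : Equi G) {Z : Set X} (hZ : PermBy G Z) : IsClosed Z ∧ DiscreteTopology Z := by
  have key : ∀ p : X, ¬ AccPt p (𝓟 Z) := by
    intro p hp
    have h1 : ∀ n : ℕ, ∃ w ∈ Z, dist p w < 1 / ((n : ℝ) + 1) ∧ w ≠ p ∧ w ∉ (∅ : Set X) := fun n =>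
      Closed_near hp (by positivity) Set.finite_empty
    choose u hu1 hu2 hu3 _ using h1
    have h2 : Set.range u ⊆ Z := by
      rintro _ ⟨n, rfl⟩
      exact hu1 n
    refine not_accPt_of_countable hE (Set.countable_range u) (permBy_mono hZ h2) p ?_
    rw [accPt_iff_nhds]
    intro U hU
    obtain ⟨r, hr, hrU⟩ := Metric.mem_nhds_iff.1 hU
    obtain ⟨n, hn⟩ := exists_nat_one_div_lt hr
    refine ⟨u n, ⟨hrU ?_, ⟨n, rfl⟩⟩, hu3 n⟩
    rw [Metric.mem_ball, dist_comm]
    exact (hu2 n).trans hn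
  have h3 : IsClosed Z ∧ IsDiscrete Z := by
    rw [isClosed_and_discrete_iff]
    intro x
    rw [disjoint_iff]
    exact Filter.not_neBot.1 (key x)
  exact ⟨h3.1, h3.2.to_subtype⟩

end Pool.Agent.Lib.MP_c05f88_an
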