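import Pool.Agent.Lib.MP_c05f88_an.Basic

/-!
# Permutations of a countable set are products of two commutators
-/

set_option autoImplicit false

namespace Pool.Agent.Lib.MP_c05f88_an

open Set

/-- The shift of `B × ℤ`. -/
def shiftP (B : Type*) : Equiv.Perm (B × ℤ) where
  toFun p := (p.1, p.2 + 1)
  invFun p := (p.1, p.2 - 1)
  left_inv p := by simp
  right_inv p := by simp

/-- The permutation `π` on all levels `k ≥ 0`. -/
def halfP {B : Type*} (π : Equiv.Perm B) : Equiv.Perm (B × ℤ) where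
  toFun p := if 0 ≤ p.2 then (π p.1, p.2) else p
  invFun p := if 0 ≤ p.2 then (π.symm p.1, p.2) else p
  left_inv p := by
    by_cases h : 0 ≤ p.2 <;> simp [h]
  right_inv p := by
    by_cases h : 0 ≤ p.2 <;> simp [h]

/-- The permutation `π` on the level `0`. -/
def zeroP {B : Type*} (π : Equiv.Perm B) : Equiv.Perm (B × ℤ) where
  toFun p := if p.2 = 0 then (π p.1, p.2) else p
  invFun p := if p.2 = 0 then (π.symm p.1, p.2) else p
  left_inv p := by
    by_cases h : p.2 = 0
    · simp only [if_pos h, Equiv.symm_apply_apply]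
    · simp only [if_neg h]
  right_inv p := by
    by_cases h : p.2 = 0
    · simp only [if_pos h, Equiv.apply_symm_apply]
    · simp only [if_neg h]

theorem zeroP_eq {B : Type*} (π : Equiv.Perm B) :
    zeroP π = halfP π * shiftP B * (halfP π)⁻¹ * (shiftP B)⁻¹ := by
  rw [eq_mul_inv_iff_mul_eq, eq_mul_inv_iff_mul_eq]
  ext1 ⟨b, k⟩
  show (zeroP π) ((shiftP B) ((halfP π) (b, k))) = (halfP π) ((shiftP B) (b, k))
  show (zeroP π) ((shiftP B) (if 0 ≤ k then (π b, k) else (b, k))) =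
    if 0 ≤ k + 1 then (π b, k + 1) else (b, k + 1)
  by_cases h : 0 ≤ k
  · rw [if_pos h, if_pos (by omega)]
    show (if k + 1 = 0 then (π (π b), k + 1) else (π b, k + 1)) = _
    rw [if_neg (by omega)]
  · rw [if_neg h]
    show (if k + 1 = 0 then (π b, k + 1) else (b, k + 1)) = _
    by_cases h2 : k + 1 = 0
    · rw [if_pos h2, if_pos (by omega)]
    · rw [if_neg h2, if_neg (by omega)]

/-- A permutation which fixes an infinite set pointwise is a commutator. -/
theorem commutator_of_fix {W : Type*} [Countable W] (π : Equiv.Perm W) (A : Set W) (hA : A.Infinite)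
    (hfix : ∀ x ∈ A, π x = x) : ∃ a b : Equiv.Perm W, π = a * b * a⁻¹ * b⁻¹ := by
  classical
  -- `π` preserves the complement `B` of `A`
  have hB : ∀ x, π x ∈ Aᶜ ↔ x ∈ Aᶜ := by
    intro x
    constructor
    · intro hx hx2
      rw [hfix x hx2] at hx
      exact hx hx2
    · intro hx hx2
      have h1 := hfix _ hx2
      exact hx (π.injective h1 ▸ hx2)
  let πB : Equiv.Perm ↥Aᶜ := π.subtypePerm hB
  have : Infinite A := hA.to_subtype
  -- embedding of `B × ℤ`
  obtain ⟨g⟩ : Nonempty (↥Aᶜ × ℤ ↪ A) := by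
    obtain ⟨d⟩ := nonempty_denumerable A
    obtain ⟨f, hf⟩ := exists_injective_nat (↥Aᶜ × ℤ)
    exact ⟨⟨fun x => (Denumerable.eqv A).symm (f x), (Denumerable.eqv A).symm.injective.comp hf⟩⟩
  let ι : ↥Aᶜ × ℤ → W := fun p => if p.2 = 0 then (p.1 : W) else (g p : W)
  have hι : Function.Injective ι := by
    intro p q hpq
    by_cases hp : p.2 = 0 <;> by_cases hq : q.2 = 0 <;> simp only [ι, hp, hq, if_true, if_false] at hpq
    · exact Prod.ext (Subtype.ext hpq) (hp.trans hq.symm)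
    · exact absurd (g q).2 (hpq ▸ p.1.2)
    · exact absurd (g p).2 (hpq ▸ q.1.2)
    · exact g.injective (Subtype.ext hpq)
  let Ψ := Equiv.Perm.viaEmbeddingHom ⟨ι, hι⟩
  have hπ : π = Ψ (zeroP πB) := by
    ext x
    by_cases hx : x ∈ A
    · rw [hfix x hx]
      by_cases hr : x ∈ Set.range ι
      · obtain ⟨p, rfl⟩ := hr
        have h1 : Ψ (zeroP πB) (ι p) = ι (zeroP πB p) :=
          Equiv.Perm.viaEmbedding_apply (zeroP πB) ⟨ι, hι⟩ p
        rw [h1]
        have hp : p.2 ≠ 0 := by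
          intro hp
          have : ι p = p.1 := by simp [ι, hp]
          rw [this] at hx
          exact p.1.2 hx
        show ι p = ι (if p.2 = 0 then _ else p)
        rw [if_neg hp]
      · exact (Equiv.Perm.viaEmbedding_apply_of_notMem (zeroP πB) ⟨ι, hι⟩ x hr).symm
    · have h1 : Ψ (zeroP πB) (ι (⟨x, hx⟩, 0)) = ι (zeroP πB (⟨x, hx⟩, 0)) :=
        Equiv.Perm.viaEmbedding_apply (zeroP πB) ⟨ι, hι⟩ (⟨x, hx⟩, 0)
      have h2 : ι (⟨x, hx⟩, 0) = x := by simp [ι]
      rw [h2] at h1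
      rw [h1]
      show π x = ι (πB ⟨x, hx⟩, 0)
      simp [ι, πB]
  refine ⟨Ψ (halfP πB), Ψ (shiftP _), ?_⟩
  rw [hπ, zeroP_eq, map_mul, map_mul, map_mul, map_inv, map_inv]

/-- an infinite set is the union of two disjoint infinite sets -/
theorem split_infinite {W : Type*} {D : Set W} (hD : D.Infinite) :
    ∃ C C' : Set W, C ⊆ D ∧ C' ⊆ D ∧ Disjoint C C' ∧ C.Infinite ∧ C'.Infinite := by
  have : Infinite D := hD.to_subtype
  let f : ℕ ↪ D := Infinite.natEmbedding D
  refine ⟨range fun n : ℕ => (f (2 * n) : W), range fun n : ℕ => (f (2 * n + 1) : W), ?_, ?_, ?_, ?_, ?_⟩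
  · rintro _ ⟨n, rfl⟩
    exact (f _).2
  · rintro _ ⟨n, rfl⟩
    exact (f _).2
  · rw [Set.disjoint_left]
    rintro _ ⟨n, rfl⟩ ⟨m, hm⟩
    have := f.injective (Subtype.ext hm)
    omega
  · refine infinite_range_of_injective fun a b hab => ?_
    have := f.injective (Subtype.ext hab)
    omega
  · refine infinite_range_of_injective fun a b hab => ?_
    have := f.injective (Subtype.ext hab)
    omega

/-- an infinite set `A` such that the complement of `A ∪ π A` is infinite -/
theorem exists_moiety {W : Type*} [Infinite W] (π : Equiv.Perm W) :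
    ∃ A : Set W, A.Infinite ∧ ((A ∪ π '' A)ᶜ).Infinite := by
  obtain ⟨T0, T, h0, hT, hd, hi0, hiT⟩ := split_infinite (Set.infinite_univ (α := W))
  obtain ⟨T1, T2, h1, h2, hd12, hi1, hi2⟩ := split_infinite hiT
  by_cases hc : ((T0 ∪ π '' T0)ᶜ).Infinite
  · exact ⟨T0, hi0, hc⟩
  · rw [Set.not_infinite] at hc
    refine ⟨T1, hi1, ?_⟩
    intro hfin
    apply hi2
    have hsub : T2 ⊆ (T0 ∪ π '' T0)ᶜ ∪ (T1 ∪ π '' T1)ᶜ := by
      intro x hx
      by_contra hcon
      rw [mem_union, not_or, mem_compl_iff, mem_compl_iff, not_not, not_not] at hcon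
      obtain ⟨h3, h4⟩ := hcon
      have hx0 : x ∉ T0 := fun h5 => Set.disjoint_left.mp hd h5 (h2 hx)
      have hx1 : x ∉ T1 := fun h5 => Set.disjoint_left.mp hd12 h5 hx
      obtain ⟨a, ha, rfl⟩ := h3.resolve_left hx0
      obtain ⟨b, hb, hab⟩ := h4.resolve_left hx1
      have h6 : b = a := π.injective hab
      subst h6
      exact Set.disjoint_left.mp hd ha (h1 hb)
    exact (hc.union hfin).subset hsub

/-- every permutation of a countable infinite set is a product of two permutations each of which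
fixes an infinite set -/
theorem two_fix {W : Type*} [Countable W] [Infinite W] (π : Equiv.Perm W) :
    ∃ α β : Equiv.Perm W, π = α * β ∧ (∃ A : Set W, A.Infinite ∧ ∀ x ∈ A, β x = x) ∧
      ∃ C : Set W, C.Infinite ∧ ∀ x ∈ C, α x = x := by
  classical
  obtain ⟨A, hA, hD⟩ := exists_moiety π
  obtain ⟨C, C', hC, hC', hdis, hCi, hC'i⟩ := split_infinite hD
  have hCA : ∀ x ∈ C, x ∉ A := fun x hx hxA => hC hx (Or.inl hxA)
  have hCπ : ∀ x ∈ C, ∀ a ∈ A, π a ≠ x := fun x hx a ha h => hC hx (Or.inr ⟨a, ha, h⟩)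
  let S : Set W := A ∪ C
  let f : S → W := fun s => if (s : W) ∈ A then π s else s
  have hf : Function.Injective f := by
    intro s t hst
    apply Subtype.ext
    by_cases hs : (s : W) ∈ A <;> by_cases ht : (t : W) ∈ A <;> simp only [f, hs, ht, if_true, if_false] at hst
    · exact π.injective hst
    · exact absurd hst (hCπ t (t.2.resolve_left ht) s hs)
    · exact absurd hst.symm (hCπ s (s.2.resolve_left hs) t ht)
    · exact hst
  have hSc : Sᶜ.Infinite := by
    refine hC'i.mono fun x hx => ?_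
    rintro (h1 | h1)
    · exact hC' hx (Or.inl h1)
    · exact Set.disjoint_left.mp hdis h1 hx
  have hr : (range f)ᶜ.Infinite := by
    refine hC'i.mono fun x hx => ?_
    rintro ⟨s, hs⟩
    by_cases hsA : (s : W) ∈ A
    · simp only [f, hsA, if_true] at hs
      exact hC' hx (Or.inr ⟨s, hsA, hs⟩)
    · simp only [f, hsA, if_false] at hs
      rw [← hs] at hx
      exact Set.disjoint_left.mp hdis (s.2.resolve_left hsA) hx
  obtain ⟨α, hα⟩ := exists_perm S hSc f hf hr
  refine ⟨α, α⁻¹ * π, by rw [mul_inv_cancel_left], ⟨A, hA, fun x hx => ?_⟩, ⟨C, hCi, fun x hx => ?_⟩⟩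
  · show α.symm (π x) = x
    rw [Equiv.symm_apply_eq]
    have h1 := hα ⟨x, Or.inl hx⟩
    simp only [f, hx, if_true] at h1
    exact h1.symm
  · have h1 := hα ⟨x, Or.inr hx⟩
    simp only [f, hCA x hx, if_false] at h1
    exact h1

theorem two_comm {W : Type*} [Countable W] [Infinite W] (π : Equiv.Perm W) :
    ∃ a b c d : Equiv.Perm W, π = (a * b * a⁻¹ * b⁻¹) * (c * d * c⁻¹ * d⁻¹) := by
  obtain ⟨α, β, h, ⟨A, hA, hβ⟩, ⟨C, hC, hα⟩⟩ := two_fix π
  obtain ⟨a, b, hab⟩ := commutator_of_fix α C hC hα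
  obtain ⟨c, d, hcd⟩ := commutator_of_fix β A hA hβ
  exact ⟨a, b, c, d, by rw [h, hab, hcd]⟩

/-- the same for the permutations which fix a finite set -/
theorem two_comm_fix {W : Type*} [Countable W] [Infinite W] (S : Set W) (hS : S.Finite)
    (π : Equiv.Perm W) (hπ : ∀ x ∈ S, π x = x) :
    ∃ a b c d : Equiv.Perm W, (∀ x ∈ S, a x = x) ∧ (∀ x ∈ S, b x = x) ∧ (∀ x ∈ S, c x = x) ∧
      (∀ x ∈ S, d x = x) ∧ π = (a * b * a⁻¹ * b⁻¹) * (c * d * c⁻¹ * d⁻¹) := by
  classical
  have h1 : ∀ x, (π x ∉ S) ↔ (x ∉ S) := by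
    intro x
    constructor
    · intro hx hx2
      rw [hπ x hx2] at hx
      exact hx hx2
    · intro hx hx2
      have h2 := π.injective (hπ _ hx2)
      rw [h2] at hx2
      exact hx hx2
  have : Infinite {x // x ∉ S} := hS.infinite_compl.to_subtype
  let σ : Equiv.Perm {x // x ∉ S} := Equiv.Perm.subtypePerm (p := fun x => x ∉ S) π h1
  obtain ⟨a, b, c, d, h⟩ := two_comm σ
  refine ⟨Equiv.Perm.ofSubtype a, Equiv.Perm.ofSubtype b, Equiv.Perm.ofSubtype c,
    Equiv.Perm.ofSubtype d, fun x hx => Equiv.Perm.ofSubtype_apply_of_not_mem _ (not_not.mpr hx),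
    fun x hx => Equiv.Perm.ofSubtype_apply_of_not_mem _ (not_not.mpr hx),
    fun x hx => Equiv.Perm.ofSubtype_apply_of_not_mem _ (not_not.mpr hx),
    fun x hx => Equiv.Perm.ofSubtype_apply_of_not_mem _ (not_not.mpr hx), ?_⟩
  have h2 : π = Equiv.Perm.ofSubtype σ :=
    (Equiv.Perm.ofSubtype_subtypePerm (p := fun x => x ∉ S) h1 fun x hx hxS => hx (hπ x hxS)).symm
  rw [h2, h]
  simp only [map_mul, map_inv]

end Pool.Agent.Lib.MP_c05f88_an
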