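import Pool.Agent.Lib.MP_c05f88_an.Defs

/-!
# The homeomorphisms of `X` are covered by countably many small classes (job Cover)

`C(X, X)` (compact-open topology) is second countable (`ContinuousMap.instSecondCountableTopology`), hence so is `C(X, X) × C(X, X)`. Let
`S = {(F, F⁻¹) : F : X ≃ₜ X}` in it. Composition `C(X, X) × C(X, X) → C(X, X)` is continuous (`ContinuousMap.continuous_comp'`, `X` locally compact), so
for each homeomorphism `F` the set of pairs `(G₁, G₂)` with `G₁ ∘ G₂ ∈ 𝒰 := {h | ∀ x ∈ K, dist (h x) x < ε}` is open (`𝒰` is open in the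
compact-open topology: it is a neighbourhood of each of its points by `ContinuousMap.tendsto_iff_forall_isCompact_tendstoUniformlyOn` or
because `h ↦ (h restricted to K)` ...; it is enough that `𝒰 ∈ 𝓝 (id)`), and contains `(F⁻¹, F)`. So there are neighbourhoods `𝒱 ∋ F⁻¹`, `𝒲 ∋ F` with
`G₁ ∘ G₂ ∈ 𝒰` for `G₁ ∈ 𝒱`, `G₂ ∈ 𝒲`. The set `V_F = 𝒲 × 𝒱` is a neighbourhood of `(F, F⁻¹)`, and for `F₁, F₂` with `(F_i, F_i⁻¹) ∈ V_F` we have
`F₁⁻¹ ∘ F₂ ∈ 𝒰`. By `TopologicalSpace.countable_cover_nhdsWithin` countably many of the sets `V_F` cover `S` (`S` is nonempty, so they can be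
indexed by `ℕ`).
-/

namespace Pool.Agent.Lib.MP_c05f88_an

open Set Filter Topology

/-- the maps `ε`-close to the identity on `K` form a neighbourhood of the identity -/
private theorem cover_id_nhds {X : Type*} [MetricSpace X] {K : Set X} (hK : IsCompact K) {ε : ℝ} (hε : 0 < ε) :
    {h : C(X, X) | ∀ x ∈ K, dist (h x) x < ε} ∈ 𝓝 (ContinuousMap.id X) := by
  have h1 := ContinuousMap.tendsto_iff_forall_isCompact_tendstoUniformlyOn.1
    (tendsto_id (x := 𝓝 (ContinuousMap.id X))) K hK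
  rw [Metric.tendstoUniformlyOn_iff] at h1
  filter_upwards [h1 ε hε] with h hh x hx
  rw [dist_comm]
  exact hh x hx

/-- the pair of continuous maps `(F⁻¹, F)` of a homeomorphism `F` -/
private def cover_pair {X : Type*} [TopologicalSpace X] (F : X ≃ₜ X) : C(X, X) × C(X, X) :=
  (⟨F.symm, F.symm.continuous⟩, ⟨F, F.continuous⟩)

private theorem cover_local {X : Type*} [MetricSpace X] [LocallyCompactSpace X] {K : Set X}
    (hK : IsCompact K) {ε : ℝ} (hε : 0 < ε) (F : X ≃ₜ X) :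
    ∃ V ∈ 𝓝 (cover_pair F), ∀ F₁ F₂ : X ≃ₜ X, cover_pair F₁ ∈ V → cover_pair F₂ ∈ V →
      ∀ x ∈ K, dist (F₁.symm (F₂ x)) x < ε := by
  have h1 : Tendsto (fun p : C(X, X) × C(X, X) => p.1.comp p.2) (𝓝 (cover_pair F))
      (𝓝 ((cover_pair F).1.comp (cover_pair F).2)) :=
    (ContinuousMap.continuous_comp'.comp continuous_swap).tendsto (cover_pair F)
  have h2 : (cover_pair F).1.comp (cover_pair F).2 = ContinuousMap.id X := by
    ext x
    exact F.symm_apply_apply x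
  rw [h2] at h1
  have h3 := h1 (cover_id_nhds hK hε)
  rw [Filter.mem_map, show 𝓝 (cover_pair F) = 𝓝 (cover_pair F).1 ×ˢ 𝓝 (cover_pair F).2 from nhds_prod_eq,
    Filter.mem_prod_iff] at h3
  obtain ⟨V, hV, W, hW, hVW⟩ := h3
  refine ⟨V ×ˢ W, prod_mem_nhds hV hW, fun F₁ F₂ h₁ h₂ x hx => ?_⟩
  exact hVW (show ((cover_pair F₁).1, (cover_pair F₂).2) ∈ V ×ˢ W from ⟨h₁.1, h₂.2⟩) x hx

theorem exists_countable_cover {X : Type*} [MetricSpace X] [LocallyCompactSpace X] [SecondCountableTopology X] {K : Set X}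
    (hK : IsCompact K) {ε : ℝ} (hε : 0 < ε) :
    ∃ W : ℕ → Set (X ≃ₜ X), (∀ F : X ≃ₜ X, ∃ j, F ∈ W j) ∧
      ∀ j, ∀ F ∈ W j, ∀ F' ∈ W j, ∀ x ∈ K, dist (F.symm (F' x)) x < ε := by
  choose V hV hV' using fun F : X ≃ₜ X => cover_local hK hε F
  let _ : TopologicalSpace (X ≃ₜ X) := TopologicalSpace.induced cover_pair inferInstance
  have _ : SecondCountableTopology (X ≃ₜ X) := TopologicalSpace.secondCountableTopology_induced _ _ _
  obtain ⟨s, hs, hs'⟩ := TopologicalSpace.countable_cover_nhds (f := fun F : X ≃ₜ X => cover_pair ⁻¹' V F)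
    (fun F => by
      rw [nhds_induced]
      exact Filter.preimage_mem_comap (hV F))
  have hne : s.Nonempty := by
    have h1 : Homeomorph.refl X ∈ ⋃ F ∈ s, cover_pair ⁻¹' V F := by
      rw [hs']
      exact mem_univ _
    simp only [mem_iUnion] at h1
    obtain ⟨F, hF, -⟩ := h1
    exact ⟨F, hF⟩
  obtain ⟨e, he⟩ := hs.exists_eq_range hne
  refine ⟨fun j => cover_pair ⁻¹' V (e j), fun F => ?_, fun j F hF F' hF' => hV' (e j) F F' hF hF'⟩
  have h1 : F ∈ ⋃ F ∈ s, cover_pair ⁻¹' V F := by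
    rw [hs']
    exact mem_univ _
  simp only [mem_iUnion] at h1
  obtain ⟨G, hG, hFG⟩ := h1
  rw [he] at hG
  obtain ⟨j, rfl⟩ := hG
  exact ⟨j, hFG⟩

end Pool.Agent.Lib.MP_c05f88_an
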