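import Mathlib

/-!
# Sets whose permutations extend to automorphisms: definitions

`Hol`, `IsAut`, `Tame`, `Permutable` are the notions of the problem. The other definitions are used in the proof: the topological part of the
argument is carried out for an arbitrary group `G` of homeomorphisms of a metric space with the equicontinuity property `Equi`.
-/

namespace Pool.Agent.Lib.MP_c05f88_an

open Set Filter Topology Manifold

section Complex

variable (E : Type*) [NormedAddCommGroup E] [NormedSpace ℂ E]
  {X : Type*} [TopologicalSpace X] [ChartedSpace E X]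

/-- `F` is a holomorphic map from the complex manifold `X` to itself -/
def Hol (F : X → X) : Prop := MDifferentiable 𝓘(ℂ, E) 𝓘(ℂ, E) F

/-- `F` is a holomorphic automorphism of `X`: a bijection which is holomorphic together with its inverse -/
def IsAut (F : X ≃ X) : Prop := Hol E (F : X → X) ∧ Hol E (F.symm : X → X)

/-- tame sets: infinite closed discrete sets all of whose injective self-maps extend to automorphisms of `X` -/
def Tame (A : Set X) : Prop :=
  A.Infinite ∧ IsClosed A ∧ DiscreteTopology A ∧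
    ∀ f : A → A, Function.Injective f → ∃ F : X ≃ X, IsAut E F ∧ ∀ a : A, F a = f a

/-- every bijection `Z → Z` extends to an automorphism of `X` -/
def Permutable (Z : Set X) : Prop :=
  ∀ σ : Equiv.Perm Z, ∃ F : X ≃ X, IsAut E F ∧ ∀ z : Z, F z = σ z

end Complex

/-- the equicontinuity property which Cauchy's estimates give for the group of automorphisms -/
def Equi {X : Type*} [MetricSpace X] (G : Subgroup (X ≃ₜ X)) : Prop :=
  ∀ K K' : Set X, IsCompact K → IsCompact K' → K ⊆ interior K' → ∃ ε > 0, ∀ s > 0, ∃ t > 0,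
    ∀ H ∈ G, (∀ x ∈ K', dist (H x) x < ε) → ∀ x ∈ K, ∀ y, dist x y < t → dist (H x) (H y) < s

/-- every bijection of `Z` is the restriction of an element of `G` -/
def PermBy {X : Type*} [TopologicalSpace X] (G : Subgroup (X ≃ₜ X)) (Z : Set X) : Prop :=
  ∀ σ : Equiv.Perm Z, ∃ F ∈ G, ∀ z : Z, F z = σ z

/-- all permutations of `Z` fixing the finite set `A` are realised, on finite sets, by elements of `G` preserving `Z` and `ε`-close to the
identity on `K`, together with their inverses -/
def Loc {X : Type*} [MetricSpace X] (G : Subgroup (X ≃ₜ X)) (Z K : Set X) (ε : ℝ) (A : Finset Z) : Prop :=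
  ∀ π : Equiv.Perm Z, (∀ a ∈ A, π a = a) → ∀ B : Finset Z, ∃ H ∈ G, H '' Z = Z ∧ (∀ b ∈ B, H b = π b) ∧
    (∀ x ∈ K, dist (H x) x < ε) ∧ ∀ x ∈ K, dist (H.symm x) x < ε

/-- the output of the recursive construction: automorphisms `P k` preserving `Z` and converging quickly; `L` is an exhaustion of `X` by
compact sets, `e` an enumeration of `Z`, `f` the injective self-map of `Z` to be extended -/
structure Seq {X : Type*} [MetricSpace X] (G : Subgroup (X ≃ₜ X)) (Z : Set X) (L : ℕ → Set X) (e : ℕ → Z) (f : Z → Z)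
    (P : ℕ → X ≃ₜ X) (η : ℕ → ℝ) : Prop where
  mem : ∀ k, P k ∈ G
  img : ∀ k, P k '' Z = Z
  pos : ∀ k, 0 < η k
  half : ∀ k, η (k + 1) ≤ η k / 2
  small : ∀ k, η k ≤ (1 / 2) ^ k
  nbd : ∀ k, ∀ x ∈ L k, ∀ y, dist x y < η k → y ∈ L (k + 1)
  val : ∀ k, ∀ i ≤ k, P k (e i) = f (e i)
  near : ∀ k, ∀ x ∈ L (k + 2), dist ((P k).symm (P (k + 1) x)) x < η k
  near' : ∀ k, ∀ x ∈ L (k + 2), dist ((P (k + 1)).symm (P k x)) x < η k
  modulus : ∀ k, ∀ x ∈ L k, ∀ y, dist x y < η k → dist (P k x) (P k y) < (1 / 2) ^ k

end Pool.Agent.Lib.MP_c05f88_an
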