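import Pool.Agent.Lib.MP_c05f88_an.EquiL

/-!
# Cauchy estimates, global form (job EquiG)

`AutG` is the group of holomorphic automorphisms of `X` as a subgroup of the group of homeomorphisms (a holomorphic map is continuous).

`equi_hol`: let `K ⊆ interior K'`. For each `p ∈ K` take `N_p, V_p, ε_p` from `equi_local` with `U = interior K'`. Finitely many of the sets `interior V_p` cover
`K`: `p_1, ..., p_n` (if `K` is empty the statement is trivial). Let `ε = min ε_(p_i)`. By the Lebesgue number lemma (`lebesgue_number_lemma_of_metric`) there is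
`δ > 0` such that for every `x ∈ K` the ball `ball x δ` is contained in some `V_(p_i)`. For `s > 0` let `t = min δ (min t_(p_i)(s))`. If `H` is `ε`-close to the
identity on `K' ⊇ N_(p_i)`, `x ∈ K`, `dist x y < t`, then `x, y ∈ ball x δ ⊆ V_(p_i)` for some `i` and `dist (H x) (H y) < s`.
(Minima over a finite set: induction, or a lemma: if for each `i` in a finite set `∃ t > 0` with a property which is inherited by smaller `t > 0`,
there is a common `t > 0`. An alternative to Lebesgue numbers: `IsCompact.induction_on` on `K` for the statement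
`∃ ε > 0, ∀ s > 0, ∃ t > 0, ∀ H, ... → ∀ x ∈ K ∩ S, ∀ y, ...`, which is monotone and stable under unions, and holds near each point.)
-/

namespace Pool.Agent.Lib.MP_c05f88_an

open Set Filter Topology Manifold Metric

/-- the group of holomorphic automorphisms of `X` -/
def AutG (E : Type*) [NormedAddCommGroup E] [NormedSpace ℂ E] (X : Type*) [TopologicalSpace X] [ChartedSpace E X] :
    Subgroup (X ≃ₜ X) where
  carrier := {F | Hol E F ∧ Hol E F.symm}
  mul_mem' := by
    rintro F G ⟨h1, h2⟩ ⟨h3, h4⟩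
    have h5 : MDifferentiable 𝓘(ℂ, E) 𝓘(ℂ, E) (F ∘ G : X → X) := MDifferentiable.comp h1 h3
    have h6 : MDifferentiable 𝓘(ℂ, E) 𝓘(ℂ, E) (G.symm ∘ F.symm : X → X) := MDifferentiable.comp h4 h2
    exact ⟨h5, h6⟩
  one_mem' := ⟨mdifferentiable_id, mdifferentiable_id⟩
  inv_mem' := by
    rintro F ⟨h1, h2⟩
    exact ⟨h2, h1⟩

theorem mem_AutG {E : Type*} [NormedAddCommGroup E] [NormedSpace ℂ E] {X : Type*} [TopologicalSpace X] [ChartedSpace E X]
    {F : X ≃ₜ X} : F ∈ AutG E X ↔ Hol E F ∧ Hol E F.symm := Iff.rfl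

theorem equi_hol {E : Type*} [NormedAddCommGroup E] [NormedSpace ℂ E] [ProperSpace E] {X : Type*} [MetricSpace X]
    [ChartedSpace E X] [IsManifold 𝓘(ℂ, E) 1 X] : Equi (AutG E X) := by
  intro K K' hK _ hKK'
  have key : (∃ ε > 0, ∀ s > 0, ∃ t > 0,
    ∀ H ∈ AutG E X, (∀ x ∈ K', dist (H x) x < ε) → ∀ x ∈ K ∩ K, ∀ y, dist x y < t → dist (H x) (H y) < s) := by
    refine hK.induction_on (p := fun S => ∃ ε > 0, ∀ s > 0, ∃ t > 0,
      ∀ H ∈ AutG E X, (∀ x ∈ K', dist (H x) x < ε) → ∀ x ∈ K ∩ S, ∀ y, dist x y < t → dist (H x) (H y) < s)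
      ?_ ?_ ?_ ?_
    · exact ⟨1, one_pos, fun s _ => ⟨1, one_pos, fun H _ _ x hx => absurd hx.2 (notMem_empty x)⟩⟩
    · rintro S T hST ⟨ε, hε, h⟩
      refine ⟨ε, hε, fun s hs => ?_⟩
      obtain ⟨t, ht, h⟩ := h s hs
      exact ⟨t, ht, fun H hH hc x hx => h H hH hc x ⟨hx.1, hST hx.2⟩⟩
    · rintro S T ⟨ε, hε, h⟩ ⟨ε', hε', h'⟩
      refine ⟨min ε ε', lt_min hε hε', fun s hs => ?_⟩
      obtain ⟨t, ht, h⟩ := h s hs
      obtain ⟨t', ht', h'⟩ := h' s hs
      refine ⟨min t t', lt_min ht ht', fun H hH hc x hx y hy => ?_⟩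
      rcases hx.2 with h1 | h1
      · exact h H hH (fun z hz => (hc z hz).trans_le (min_le_left _ _)) x ⟨hx.1, h1⟩ y (hy.trans_le (min_le_left _ _))
      · exact h' H hH (fun z hz => (hc z hz).trans_le (min_le_right _ _)) x ⟨hx.1, h1⟩ y
          (hy.trans_le (min_le_right _ _))
    · intro p hp
      obtain ⟨N, hN, V, hV, ε, hε, h⟩ := equi_local (E := E) p (U := K') (mem_interior_iff_mem_nhds.1 (hKK' hp))
      obtain ⟨δ, hδ, hδV⟩ := Metric.mem_nhds_iff.1 hV
      refine ⟨ball p (δ / 2), mem_nhdsWithin_of_mem_nhds (ball_mem_nhds p (half_pos hδ)), ε, hε, fun s hs => ?_⟩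
      obtain ⟨t, ht, h⟩ := h s hs
      refine ⟨min t (δ / 2), lt_min ht (half_pos hδ), fun H hH hc x hx y hy => ?_⟩
      have hxp : dist x p < δ / 2 := hx.2
      have hy2 : dist x y < δ / 2 := hy.trans_le (min_le_right _ _)
      refine h H hH.1 (fun z hz => hc z (hN hz)) x (hδV ?_) y (hδV ?_) (hy.trans_le (min_le_left _ _))
      · rw [mem_ball]; linarith
      · rw [mem_ball]
        have := dist_triangle y x p
        rw [dist_comm y x] at this
        linarith
  simpa only [inter_self] using key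

end Pool.Agent.Lib.MP_c05f88_an
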