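import Pool.Agent.Lib.MP_c05f88_an.Chart

/-!
# Cauchy estimates, local form (job EquiL)

Let `φ = chartAt E p`, `a = φ p`. Choose `r > 0` such that `closedBall a (4 r) ⊆ φ.target`, and `φ.symm '' closedBall a (2 r) ⊆ U` (`φ.symm` is continuous at `a`,
`φ.symm a = p`). `N = φ.symm '' closedBall a (2 r)` is compact (`E` proper, `φ.symm` continuous on the target). The set `O = φ.symm '' ball a (3 r)` is open in
`X` (`OpenPartialHomeomorph.isOpen_image_symm_of_subset_target` or similar) and contains `N`, so there is `ε > 0` such that `x ∈ N`, `dist y x < ε` imply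
`y ∈ O` (`IsCompact.exists_thickening_subset_open`). `V = φ.symm '' ball a (r / 2)`, an open neighbourhood of `p`.
Let `H` be holomorphic and `ε`-close to the identity on `N`. Then `h = φ ∘ H ∘ φ.symm` maps `ball a (2 r)` into `ball a (3 r)` and is differentiable on
`ball a (2 r)` (`diffOn_chart`). For `u, v ∈ ball a (r / 2)`: `v ∈ ball u r`, `ball u r ⊆ ball a (2 r)`, `h` maps `ball u r` into `ball (h u) (6 r)`, so the Schwarz lemma
`Complex.dist_le_div_mul_dist_of_mapsTo_ball` gives `dist (h v) (h u) ≤ 6 * dist v u`.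
Let `s > 0`. `φ.symm` is uniformly continuous on the compact set `closedBall a (3 r)`: there is `s' > 0` with `dist (φ.symm b) (φ.symm b') < s` for
`b, b' ∈ closedBall a (3 r)`, `dist b b' < s'`. `φ` is uniformly continuous on the compact set `φ.symm '' closedBall a (r / 2)`: there is `t > 0` with
`dist (φ x) (φ y) < s' / 7` for `x, y ∈ V`, `dist x y < t`. Then for `x, y ∈ V`, `dist x y < t`: with `u = φ x`, `v = φ y ∈ ball a (r / 2)`, `φ.symm u = x`, `φ (H x) = h u`,
`H x ∈ O ⊆ φ.source`, so `H x = φ.symm (h u)`, and `dist (h u) (h v) ≤ 6 * s' / 7 < s'`, hence `dist (H x) (H y) < s`.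
-/

namespace Pool.Agent.Lib.MP_c05f88_an

open Set Filter Topology Manifold Metric

theorem equi_local {E : Type*} [NormedAddCommGroup E] [NormedSpace ℂ E] [ProperSpace E] {X : Type*} [MetricSpace X]
    [ChartedSpace E X] [IsManifold 𝓘(ℂ, E) 1 X] (p : X) {U : Set X} (hU : U ∈ 𝓝 p) :
    ∃ N ⊆ U, ∃ V ∈ 𝓝 p, ∃ ε > 0, ∀ s > 0, ∃ t > 0, ∀ H : X → X, Hol E H → (∀ x ∈ N, dist (H x) x < ε) →
      ∀ x ∈ V, ∀ y ∈ V, dist x y < t → dist (H x) (H y) < s := by
  set φ := chartAt E p with hφ
  set a := φ p with ha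
  have hps : p ∈ φ.source := mem_chart_source E p
  have hat : a ∈ φ.target := mem_chart_target E p
  have hsa : φ.symm a = p := φ.left_inv hps
  have hcs : ContinuousAt φ.symm a := φ.continuousAt_symm hat
  have hmem : φ.target ∩ φ.symm ⁻¹' U ∈ 𝓝 a := by
    refine inter_mem (φ.open_target.mem_nhds hat) (hcs ?_)
    rw [hsa]
    exact hU
  obtain ⟨ρ, hρ, hρs⟩ := Metric.nhds_basis_closedBall.mem_iff.1 hmem
  obtain ⟨r, hr, hr4⟩ : ∃ r : ℝ, 0 < r ∧ ρ = 4 * r := ⟨ρ / 4, by positivity, by ring⟩
  have hT : ∀ u, u ∈ closedBall a (3 * r) → u ∈ φ.target := fun u hu =>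
    (hρs (closedBall_subset_closedBall (by linarith) hu)).1
  have hcont : ContinuousOn φ.symm (closedBall a (3 * r)) := φ.continuousOn_symm.mono (fun u hu => hT u hu)
  have hNc : IsCompact (φ.symm '' closedBall a (2 * r)) :=
    (isCompact_closedBall a (2 * r)).image_of_continuousOn
      (hcont.mono (closedBall_subset_closedBall (by linarith)))
  have hOo : IsOpen (φ.symm '' ball a (3 * r)) :=
    φ.symm.isOpen_image_of_subset_source isOpen_ball (fun u hu => hT u (ball_subset_closedBall hu))
  have hNO : φ.symm '' closedBall a (2 * r) ⊆ φ.symm '' ball a (3 * r) :=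
    image_mono (closedBall_subset_ball (by linarith))
  obtain ⟨ε, hε, hth⟩ := hNc.exists_thickening_subset_open hOo hNO
  have hVo : IsOpen (φ.symm '' ball a (r / 2)) :=
    φ.symm.isOpen_image_of_subset_source isOpen_ball
      (fun u hu => hT u (closedBall_subset_closedBall (by linarith) (ball_subset_closedBall hu)))
  refine ⟨φ.symm '' closedBall a (2 * r), ?_, φ.symm '' ball a (r / 2),
    hVo.mem_nhds ⟨a, mem_ball_self (by positivity), hsa⟩, ε, hε, ?_⟩
  · rintro _ ⟨u, hu, rfl⟩
    exact (hρs (closedBall_subset_closedBall (by linarith) hu)).2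
  intro s hs
  obtain ⟨s', hs', hu1⟩ := Metric.uniformContinuousOn_iff.1
    ((isCompact_closedBall a (3 * r)).uniformContinuousOn_of_continuous hcont) s hs
  have hKc : IsCompact (φ.symm '' closedBall a (r / 2)) :=
    (isCompact_closedBall a (r / 2)).image_of_continuousOn
      (hcont.mono (closedBall_subset_closedBall (by linarith)))
  have hKφ : ContinuousOn φ (φ.symm '' closedBall a (r / 2)) := by
    refine φ.continuousOn.mono ?_
    rintro _ ⟨u, hu, rfl⟩
    exact φ.map_target (hT u (closedBall_subset_closedBall (by linarith) hu))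
  obtain ⟨t, ht, hu2⟩ := Metric.uniformContinuousOn_iff.1
    (hKc.uniformContinuousOn_of_continuous hKφ) (s' / 7) (by positivity)
  refine ⟨t, ht, ?_⟩
  intro H hH hcl x hx y hy hxy
  have hHO : ∀ u ∈ ball a (2 * r), ∃ w ∈ ball a (3 * r), φ.symm w = H (φ.symm u) := by
    intro u hu
    have h1 : φ.symm u ∈ φ.symm '' closedBall a (2 * r) := ⟨u, ball_subset_closedBall hu, rfl⟩
    have h2 : H (φ.symm u) ∈ thickening ε (φ.symm '' closedBall a (2 * r)) :=
      mem_thickening_iff.2 ⟨φ.symm u, h1, hcl _ h1⟩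
    obtain ⟨w, hw, hw'⟩ := hth h2
    exact ⟨w, hw, hw'⟩
  have hHb : ∀ u ∈ ball a (2 * r), φ (H (φ.symm u)) ∈ ball a (3 * r) ∧
      φ.symm (φ (H (φ.symm u))) = H (φ.symm u) := by
    intro u hu
    obtain ⟨w, hw, hw'⟩ := hHO u hu
    have h1 : φ (φ.symm w) = w := φ.right_inv (hT w (ball_subset_closedBall hw))
    rw [← hw', h1]
    exact ⟨hw, rfl⟩
  have hdiff : DifferentiableOn ℂ (fun u => φ (H (φ.symm u))) (ball a (2 * r)) := by
    refine diffOn_chart hH p p
      (fun u hu => hT u (closedBall_subset_closedBall (by linarith) (ball_subset_closedBall hu))) ?_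
    intro u hu
    obtain ⟨w, hw, hw'⟩ := hHO u hu
    have h1 : H (φ.symm u) ∈ φ.source := by
      rw [← hw']
      exact φ.map_target (hT w (ball_subset_closedBall hw))
    exact h1
  obtain ⟨u, hu, rfl⟩ := hx
  obtain ⟨v, hv, rfl⟩ := hy
  have hφu : φ (φ.symm u) = u :=
    φ.right_inv (hT u (closedBall_subset_closedBall (by linarith) (ball_subset_closedBall hu)))
  have hφv : φ (φ.symm v) = v :=
    φ.right_inv (hT v (closedBall_subset_closedBall (by linarith) (ball_subset_closedBall hv)))
  have huv : dist u v < s' / 7 := by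
    have h1 := hu2 (φ.symm u) ⟨u, ball_subset_closedBall hu, rfl⟩ (φ.symm v) ⟨v, ball_subset_closedBall hv, rfl⟩ hxy
    rw [hφu, hφv] at h1
    exact h1
  have hu' : dist u a < r / 2 := hu
  have hv' : dist v a < r / 2 := hv
  have hsub : ball u r ⊆ ball a (2 * r) := by
    intro w hw
    have h1 : dist w u < r := hw
    have h2 := dist_triangle w u a
    show dist w a < 2 * r
    linarith
  have hub : u ∈ ball a (2 * r) := hsub (mem_ball_self hr)
  have hvu : v ∈ ball u r := by
    have h2 := dist_triangle v a u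
    rw [dist_comm a u] at h2
    show dist v u < r
    linarith
  have hvb : v ∈ ball a (2 * r) := hsub hvu
  have hSch : dist (φ (H (φ.symm v))) (φ (H (φ.symm u))) ≤ (6 * r) / r * dist v u := by
    refine Complex.dist_le_div_mul_dist_of_mapsTo_ball (f := fun u => φ (H (φ.symm u))) (hdiff.mono hsub) ?_ hvu
    intro w hw
    have h1 : dist (φ (H (φ.symm w))) a < 3 * r := (hHb w (hsub hw)).1
    have h2 : dist (φ (H (φ.symm u))) a < 3 * r := (hHb u hub).1
    have h3 := dist_triangle (φ (H (φ.symm w))) a (φ (H (φ.symm u)))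
    rw [dist_comm a] at h3
    show dist (φ (H (φ.symm w))) (φ (H (φ.symm u))) ≤ 6 * r
    linarith
  have h6 : (6 * r) / r = 6 := by field_simp
  rw [h6, dist_comm v u] at hSch
  have h7 := hu1 (φ (H (φ.symm u))) (ball_subset_closedBall (hHb u hub).1) (φ (H (φ.symm v)))
    (ball_subset_closedBall (hHb v hvb).1) (by rw [dist_comm]; linarith)
  rw [(hHb u hub).2, (hHb v hvb).2] at h7
  exact h7

end Pool.Agent.Lib.MP_c05f88_an
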