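import Mathlib

/-!
# Entire maps of several variables: Cauchy estimate, limits, maps near the identity
-/

set_option autoImplicit false

namespace Pool.Agent.Lib.MP_c05f88_an

open Set Filter Topology Metric

variable {E : Type*} [NormedAddCommGroup E] [NormedSpace ℂ E]
variable {F : Type*} [NormedAddCommGroup F] [NormedSpace ℂ F]

theorem norm_fderiv_le {f : E → F} (hf : Differentiable ℂ f) {x : E} {r M : ℝ} (hr : 0 < r)
    (hM : ∀ y, ‖y - x‖ ≤ r → ‖f y‖ ≤ M) : ‖fderiv ℂ f x‖ ≤ M / r := by
  have hM0 : 0 ≤ M := (norm_nonneg _).trans (hM x (by simpa using hr.le))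
  refine ContinuousLinearMap.opNorm_le_bound _ (div_nonneg hM0 hr.le) fun h => ?_
  rcases eq_or_ne h 0 with rfl | hh
  · simp
  have hh' : 0 < ‖h‖ := norm_pos_iff.mpr hh
  set g : ℂ → F := fun t => f (x + t • h) with hg
  have hline : ∀ t : ℂ, HasDerivAt (fun t : ℂ => x + t • h) h t := by
    intro t
    have := (hasDerivAt_id t).smul_const h
    simpa using this.const_add x
  have hd : ∀ t : ℂ, HasDerivAt g (fderiv ℂ f (x + t • h) h) t := fun t =>
    (hf (x + t • h)).hasFDerivAt.comp_hasDerivAt t (hline t)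
  have h1 := Complex.norm_deriv_le_of_forall_mem_sphere_norm_le (c := (0 : ℂ)) (R := r / ‖h‖)
    (C := M) (f := g) (div_pos hr hh')
    (Differentiable.diffContOnCl fun t => (hd t).differentiableAt) (by
      intro t ht
      apply hM
      rw [mem_sphere_iff_norm, sub_zero] at ht
      rw [add_sub_cancel_left, norm_smul, ht, div_mul_cancel₀ _ hh'.ne'])
  rw [(hd 0).deriv, zero_smul, add_zero] at h1
  calc ‖fderiv ℂ f x h‖ ≤ M / (r / ‖h‖) := h1
    _ = M / r * ‖h‖ := by field_simp

/-- Locally uniform limits of entire maps are entire. -/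
theorem differentiable_of_tendsto [CompleteSpace F] {f : ℕ → E → F} {g : E → F}
    (hf : ∀ n, Differentiable ℂ (f n))
    (hg : ∀ R : ℝ, TendstoUniformlyOn f g atTop (closedBall 0 R)) : Differentiable ℂ g := by
  have hC : ∀ R : ℝ, UniformCauchySeqOn (fun n => fderiv ℂ (f n)) atTop (ball 0 R) := by
    intro R
    rw [Metric.uniformCauchySeqOn_iff]
    intro ε hε
    have h1 := (hg (R + 1)).uniformCauchySeqOn
    rw [Metric.uniformCauchySeqOn_iff] at h1
    obtain ⟨N, hN⟩ := h1 (ε / 2) (by linarith)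
    refine ⟨N, fun m hm n hn x hx => ?_⟩
    rw [dist_eq_norm, ← fderiv_sub (hf m x) (hf n x)]
    refine lt_of_le_of_lt (norm_fderiv_le (r := 1) (M := ε / 2) ((hf m).sub (hf n)) one_pos ?_)
      (by linarith)
    intro y hy
    have hy2 : y ∈ closedBall (0 : E) (R + 1) := by
      rw [mem_closedBall_zero_iff]
      rw [mem_ball_zero_iff] at hx
      calc ‖y‖ = ‖(y - x) + x‖ := by rw [sub_add_cancel]
        _ ≤ ‖y - x‖ + ‖x‖ := norm_add_le _ _
        _ ≤ R + 1 := by linarith
    have := hN m hm n hn y hy2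
    rw [dist_eq_norm] at this
    exact this.le
  have hpt : ∀ x : E, ∃ L, Tendsto (fun n => fderiv ℂ (f n) x) atTop (𝓝 L) := by
    intro x
    have h1 := (hC (‖x‖ + 1)).cauchySeq (x := x) (by rw [mem_ball_zero_iff]; linarith)
    exact cauchySeq_tendsto_of_complete h1
  choose L hL using hpt
  intro x
  have h2 : TendstoLocallyUniformlyOn (fun n => fderiv ℂ (f n)) L atTop (ball (0 : E) (‖x‖ + 1)) :=
    ((hC (‖x‖ + 1)).tendstoUniformlyOn_of_tendsto fun y _ => hL y).tendstoLocallyUniformlyOn
  have h3 := hasFDerivAt_of_tendstoLocallyUniformlyOn (x := x) isOpen_ball h2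
    (fun n y _ => (hf n y).hasFDerivAt) (fun y hy => (hg (‖x‖ + 1)).tendsto_at (ball_subset_closedBall hy))
    (by rw [mem_ball_zero_iff]; linarith)
  exact h3.differentiableAt

/-- Near the identity on a ball: `f - id` is a contraction on the smaller ball. -/
theorem near_id {f : E → E} (hf : Differentiable ℂ f) {R η : ℝ}
    (h : ∀ x, ‖x‖ ≤ R + 1 → ‖f x - x‖ ≤ η) {x y : E} (hx : ‖x‖ ≤ R) (hy : ‖y‖ ≤ R) :
    ‖(f x - x) - (f y - y)‖ ≤ η * ‖x - y‖ := by
  have hd : Differentiable ℂ fun x => f x - x := hf.sub differentiable_id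
  have h1 := Convex.norm_image_sub_le_of_norm_fderiv_le (𝕜 := ℂ) (f := fun x => f x - x)
    (s := closedBall (0 : E) R) (C := η) (x := y) (y := x) (fun z _ => hd z) (fun z hz => by
      have h2 := norm_fderiv_le (r := 1) (M := η) hd (x := z) one_pos (fun w hw => by
        apply h
        rw [mem_closedBall_zero_iff] at hz
        calc ‖w‖ = ‖(w - z) + z‖ := by rw [sub_add_cancel]
          _ ≤ ‖w - z‖ + ‖z‖ := norm_add_le _ _
          _ ≤ R + 1 := by linarith)
      simpa using h2) (convex_closedBall 0 R) (by simpa using hy) (by simpa using hx)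
  exact h1

end Pool.Agent.Lib.MP_c05f88_an
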