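import Pool.Agent.Lib.MP_c05f88_an.Holo

/-!
# Infinite compositions of entire maps near the identity
-/

set_option autoImplicit false

namespace Pool.Agent.Lib.MP_c05f88_an

open Set Filter Topology Metric

variable {E : Type*} [NormedAddCommGroup E] [NormedSpace ℂ E]

/-- `T_m ∘ T_{m+1} ∘ ⋯ ∘ T_{m+n-1}` -/
def PP (T : ℕ → E → E) (m : ℕ) : ℕ → E → E
  | 0 => id
  | n + 1 => PP T m n ∘ T (m + n)

/-- `A ∘ T_0 ∘ ⋯ ∘ T_{k-1}` -/
def FF (A : E → E) (T : ℕ → E → E) : ℕ → E → E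
  | 0 => A
  | k + 1 => FF A T k ∘ T k

omit [NormedAddCommGroup E] [NormedSpace ℂ E] in
theorem FF_add (A : E → E) (T : ℕ → E → E) (m n : ℕ) : FF A T (m + n) = FF A T m ∘ PP T m n := by
  induction n with
  | zero => rfl
  | succ n ih =>
    show FF A T (m + n) ∘ T (m + n) = FF A T m ∘ (PP T m n ∘ T (m + n))
    rw [ih]
    rfl

/-- near the identity on larger and larger balls -/
def Near (T : ℕ → E → E) : Prop :=
  ∀ (k : ℕ) (x : E), ‖x‖ ≤ (k : ℝ) + 2 → ‖T k x - x‖ ≤ (1 / 2 : ℝ) ^ (k + 2)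

omit [NormedSpace ℂ E] in
theorem PP_near2 {T : ℕ → E → E} (hT : Near T) (m n : ℕ) (x : E) (hx : ‖x‖ ≤ m + 1) :
    ‖PP T m n x - x‖ ≤ (1 / 2) ^ (m + 1) * (1 - (1 / 2) ^ n) := by
  -- more generally, with a margin
  have key : ∀ n : ℕ, ∀ x : E, ‖x‖ + 1 / 2 * (1 - (1 / 2) ^ n) ≤ m + 2 →
      ‖PP T m n x - x‖ ≤ (1 / 2) ^ (m + 1) * (1 - (1 / 2) ^ n) := by
    intro n
    induction n with
    | zero =>
      intro x _
      simp [PP]
    | succ n ih =>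
      intro x hx
      have hp : (0 : ℝ) < (1 / 2) ^ n := by positivity
      have hpm : (1 / 2 : ℝ) ^ (m + 1) ≤ 1 / 2 := by
        calc (1 / 2 : ℝ) ^ (m + 1) ≤ (1 / 2) ^ 1 :=
              pow_le_pow_of_le_one (by norm_num) (by norm_num) (by omega)
          _ = 1 / 2 := pow_one _
      have hpm0 : (0 : ℝ) < (1 / 2) ^ (m + 1) := by positivity
      have hn1 : (1 / 2 : ℝ) ^ n ≤ 1 := pow_le_one₀ (by norm_num) (by norm_num)
      have h1 : ‖T (m + n) x - x‖ ≤ (1 / 2) ^ (m + n + 2) := by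
        apply hT
        push_cast
        have h2 : (0 : ℝ) ≤ n := Nat.cast_nonneg n
        rw [pow_succ] at hx
        nlinarith
      have e1 : (1 / 2 : ℝ) ^ (m + n + 2) = (1 / 2) ^ (m + 1) * ((1 / 2) ^ n * (1 / 2)) := by ring
      have h3 : ‖T (m + n) x‖ ≤ ‖x‖ + (1 / 2) ^ (m + n + 2) := by
        calc ‖T (m + n) x‖ = ‖(T (m + n) x - x) + x‖ := by rw [sub_add_cancel]
          _ ≤ ‖T (m + n) x - x‖ + ‖x‖ := norm_add_le _ _
          _ ≤ _ := by linarith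
      have h4 := ih (T (m + n) x) (by
        rw [pow_succ] at hx
        rw [e1] at h3
        nlinarith)
      show ‖PP T m n (T (m + n) x) - x‖ ≤ _
      calc ‖PP T m n (T (m + n) x) - x‖
          = ‖(PP T m n (T (m + n) x) - T (m + n) x) + (T (m + n) x - x)‖ := by rw [sub_add_sub_cancel]
        _ ≤ ‖PP T m n (T (m + n) x) - T (m + n) x‖ + ‖T (m + n) x - x‖ := norm_add_le _ _
        _ ≤ (1 / 2) ^ (m + 1) * (1 - (1 / 2) ^ n) + (1 / 2) ^ (m + n + 2) := add_le_add h4 h1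
        _ = _ := by rw [e1, pow_succ]; ring
  have hp : (0 : ℝ) < (1 / 2) ^ n := by positivity
  exact key n x (by linarith)

omit [NormedSpace ℂ E] in
theorem PP_near {T : ℕ → E → E} (hT : Near T) (m n : ℕ) (x : E) (hx : ‖x‖ ≤ m + 1) :
    ‖PP T m n x - x‖ ≤ 1 / 2 * (1 - (1 / 2) ^ n) := by
  have hn1 : (1 / 2 : ℝ) ^ n ≤ 1 := pow_le_one₀ (by norm_num) (by norm_num)
  have hpm : (1 / 2 : ℝ) ^ (m + 1) ≤ 1 / 2 := by
    calc (1 / 2 : ℝ) ^ (m + 1) ≤ (1 / 2) ^ 1 :=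
          pow_le_pow_of_le_one (by norm_num) (by norm_num) (by omega)
      _ = 1 / 2 := pow_one _
  exact (PP_near2 hT m n x hx).trans (mul_le_mul_of_nonneg_right hpm (by linarith))

theorem PP_near' {T : ℕ → E → E} (hT : Near T) (m n : ℕ) (x : E) (hx : ‖x‖ ≤ m + 1) :
    ‖PP T m n x - x‖ ≤ 1 / 2 := by
  have hp : (0 : ℝ) < (1 / 2) ^ n := by positivity
  have := PP_near hT m n x hx
  linarith

theorem PP_diff {T : ℕ → E → E} (hd : ∀ k, Differentiable ℂ (T k)) (m n : ℕ) :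
    Differentiable ℂ (PP T m n) := by
  induction n with
  | zero => exact differentiable_id
  | succ n ih => exact ih.comp (hd _)

theorem PP_bi {T : ℕ → E → E} (hT : Near T) (hd : ∀ k, Differentiable ℂ (T k)) (m n : ℕ) {x y : E}
    (hx : ‖x‖ ≤ m) (hy : ‖y‖ ≤ m) :
    ‖(PP T m n x - x) - (PP T m n y - y)‖ ≤ 1 / 2 * ‖x - y‖ :=
  near_id (PP_diff hd m n) (fun z hz => PP_near' hT m n z hz) hx hy

theorem PP_lower {T : ℕ → E → E} (hT : Near T) (hd : ∀ k, Differentiable ℂ (T k)) (m n : ℕ) {x y : E}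
    (hx : ‖x‖ ≤ m) (hy : ‖y‖ ≤ m) : 1 / 2 * ‖x - y‖ ≤ ‖PP T m n x - PP T m n y‖ := by
  have h1 := PP_bi hT hd m n hx hy
  have h2 : ‖x - y‖ ≤ ‖PP T m n x - PP T m n y‖ + ‖(PP T m n x - x) - (PP T m n y - y)‖ := by
    calc ‖x - y‖ = ‖(PP T m n x - PP T m n y) - ((PP T m n x - x) - (PP T m n y - y))‖ := by
          congr 1; abel
      _ ≤ _ := norm_sub_le _ _
  linarith

theorem PP_upper {T : ℕ → E → E} (hT : Near T) (hd : ∀ k, Differentiable ℂ (T k)) (m n : ℕ) {x y : E}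
    (hx : ‖x‖ ≤ m) (hy : ‖y‖ ≤ m) : ‖PP T m n x - PP T m n y‖ ≤ 2 * ‖x - y‖ := by
  have h1 := PP_bi hT hd m n hx hy
  have h2 : ‖PP T m n x - PP T m n y‖ ≤ ‖(PP T m n x - x) - (PP T m n y - y)‖ + ‖x - y‖ := by
    calc ‖PP T m n x - PP T m n y‖ = ‖((PP T m n x - x) - (PP T m n y - y)) + (x - y)‖ := by
          congr 1; abel
      _ ≤ _ := norm_add_le _ _
  have h3 := norm_nonneg (x - y)
  linarith

theorem PP_step {T : ℕ → E → E} (hT : Near T) (hd : ∀ k, Differentiable ℂ (T k)) (m n : ℕ) {x : E}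
    (hx : ‖x‖ + 1 ≤ m) : dist (PP T m n x) (PP T m (n + 1) x) ≤ 1 * (1 / 2) ^ n := by
  have h1 : ‖T (m + n) x - x‖ ≤ (1 / 2) ^ (m + n + 2) := by
    apply hT
    push_cast
    have h2 : (0 : ℝ) ≤ n := Nat.cast_nonneg n
    linarith
  have h2 : (1 / 2 : ℝ) ^ (m + n + 2) ≤ 1 / 2 * (1 / 2) ^ n := by
    calc (1 / 2 : ℝ) ^ (m + n + 2) ≤ (1 / 2) ^ (n + 1) :=
          pow_le_pow_of_le_one (by norm_num) (by norm_num) (by omega)
      _ = _ := by rw [pow_succ]; ring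
  have h3 : (1 / 2 : ℝ) ^ n ≤ 1 := pow_le_one₀ (by norm_num) (by norm_num)
  have h4 : ‖T (m + n) x‖ ≤ m := by
    calc ‖T (m + n) x‖ = ‖(T (m + n) x - x) + x‖ := by rw [sub_add_cancel]
      _ ≤ ‖T (m + n) x - x‖ + ‖x‖ := norm_add_le _ _
      _ ≤ m := by linarith
  show dist (PP T m n x) (PP T m n (T (m + n) x)) ≤ _
  rw [dist_comm, dist_eq_norm]
  have h5 := PP_upper hT hd m n h4 (show ‖x‖ ≤ m by linarith)
  calc _ ≤ 2 * ‖T (m + n) x - x‖ := h5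
    _ ≤ 2 * (1 / 2 * (1 / 2) ^ n) := by linarith
    _ = _ := by ring

/-- the tails converge uniformly -/
theorem PP_tendsto [CompleteSpace E] {T : ℕ → E → E} (hT : Near T) (hd : ∀ k, Differentiable ℂ (T k))
    (m : ℕ) : ∃ Ψ : E → E, TendstoUniformlyOn (PP T m) Ψ atTop {x | ‖x‖ + 1 ≤ m} := by
  have hcs : ∀ x ∈ {x : E | ‖x‖ + 1 ≤ m}, CauchySeq fun n => PP T m n x := fun x hx =>
    cauchySeq_of_le_geometric (1 / 2) 1 (by norm_num) fun n => PP_step hT hd m n hx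
  have hlim : ∀ x : E, ∃ y, x ∈ {x : E | ‖x‖ + 1 ≤ m} → Tendsto (fun n => PP T m n x) atTop (𝓝 y) := by
    intro x
    by_cases hx : x ∈ {x : E | ‖x‖ + 1 ≤ m}
    · obtain ⟨y, hy⟩ := cauchySeq_tendsto_of_complete (hcs x hx)
      exact ⟨y, fun _ => hy⟩
    · exact ⟨0, fun h => absurd h hx⟩
  choose Ψ hΨ using hlim
  refine ⟨Ψ, ?_⟩
  rw [Metric.tendstoUniformlyOn_iff]
  intro ε hε
  have h1 : Tendsto (fun n : ℕ => (1 : ℝ) * (1 / 2) ^ n / (1 - 1 / 2)) atTop (𝓝 0) := by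
    have := (tendsto_pow_atTop_nhds_zero_of_lt_one (r := (1 / 2 : ℝ)) (by norm_num)
      (by norm_num)).const_mul (1 / (1 - 1 / 2))
    simp only [mul_zero] at this
    refine this.congr fun n => ?_
    ring
  filter_upwards [h1.eventually_lt_const hε] with n hn x hx
  rw [dist_comm]
  exact (dist_le_of_le_geometric_of_tendsto (1 / 2) 1 (by norm_num)
    (fun n => PP_step hT hd m n hx) (hΨ x hx) n).trans_lt hn

/-- A locally uniform limit of `A ∘ T_0 ∘ ⋯ ∘ T_{k-1}`. -/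
theorem FF_limit [FiniteDimensional ℂ E] {A : E → E} {T : ℕ → E → E} (hA : Differentiable ℂ A)
    (hT : Near T) (hd : ∀ k, Differentiable ℂ (T k)) :
    ∃ Φ : E → E, Differentiable ℂ Φ ∧
      (∀ R : ℝ, TendstoUniformlyOn (FF A T) Φ atTop (closedBall 0 R)) ∧
      ∀ m : ℕ, ∃ Ψ : E → E, (∀ x, ‖x‖ + 1 ≤ m → Tendsto (fun n => PP T m n x) atTop (𝓝 (Ψ x))) ∧
        ∀ x, ‖x‖ + 1 ≤ m → Φ x = FF A T m (Ψ x) := by
  have : ProperSpace E := FiniteDimensional.proper ℂ E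
  have : CompleteSpace E := FiniteDimensional.complete ℂ E
  have hFd : ∀ k, Differentiable ℂ (FF A T k) := by
    intro k
    induction k with
    | zero => exact hA
    | succ k ih => exact ih.comp (hd k)
  choose Ψ hΨ using PP_tendsto hT hd
  have hΨt : ∀ (m : ℕ) (x : E), ‖x‖ + 1 ≤ (m : ℝ) → Tendsto (fun n => PP T m n x) atTop (𝓝 (Ψ m x)) :=
    fun m x hx => (hΨ m).tendsto_at hx
  have hlim : ∀ (m : ℕ) (x : E), ‖x‖ + 1 ≤ (m : ℝ) → Tendsto (fun k => FF A T k x) atTop (𝓝 (FF A T m (Ψ m x))) := by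
    intro m x hx
    have h1 := ((hFd m).continuous.tendsto (Ψ m x)).comp (hΨt m x hx)
    rw [← tendsto_add_atTop_iff_nat m]
    refine h1.congr fun n => ?_
    show FF A T m (PP T m n x) = FF A T (n + m) x
    rw [Nat.add_comm n m, FF_add]
    rfl
  let Φ : E → E := fun x => FF A T ⌈‖x‖ + 1⌉₊ (Ψ ⌈‖x‖ + 1⌉₊ x)
  have hΦ : ∀ (m : ℕ) (x : E), ‖x‖ + 1 ≤ (m : ℝ) → Φ x = FF A T m (Ψ m x) := fun m x hx =>
    tendsto_nhds_unique (hlim _ x (Nat.le_ceil _)) (hlim m x hx)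
  have hunif : ∀ R : ℝ, TendstoUniformlyOn (FF A T) Φ atTop (closedBall 0 R) := by
    intro R
    obtain ⟨m, hm⟩ := exists_nat_ge (R + 1)
    -- uniform continuity of `FF A T m` on a large ball
    have hK : IsCompact (closedBall (0 : E) (m + 2)) := isCompact_closedBall 0 _
    have huc := hK.uniformContinuousOn_of_continuous (hFd m).continuous.continuousOn
    rw [Metric.tendstoUniformlyOn_iff]
    intro ε hε
    rw [Metric.uniformContinuousOn_iff] at huc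
    obtain ⟨δ, hδ, hδ2⟩ := huc ε hε
    have h1 := (Metric.tendstoUniformlyOn_iff.mp (hΨ m)) δ hδ
    have h2 : ∀ᶠ k in atTop, m ≤ k ∧ ∀ x ∈ {x : E | ‖x‖ + 1 ≤ m}, dist (Ψ m x) (PP T m (k - m) x) < δ :=
      (eventually_ge_atTop m).and ((tendsto_sub_atTop_nat m).eventually h1)
    filter_upwards [h2] with k hk x hx
    rw [mem_closedBall_zero_iff] at hx
    have hx2 : ‖x‖ + 1 ≤ (m : ℝ) := by linarith
    have h3 : FF A T k x = FF A T m (PP T m (k - m) x) := by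
      have := FF_add A T m (k - m)
      rw [Nat.add_sub_cancel' hk.1] at this
      rw [this]
      rfl
    rw [hΦ m x hx2, h3]
    have hb : ∀ n, ‖PP T m n x‖ ≤ m + 2 := by
      intro n
      have h4 := PP_near' hT m n x (by linarith)
      calc ‖PP T m n x‖ = ‖(PP T m n x - x) + x‖ := by rw [sub_add_cancel]
        _ ≤ ‖PP T m n x - x‖ + ‖x‖ := norm_add_le _ _
        _ ≤ m + 2 := by linarith
    have hb2 : ‖Ψ m x‖ ≤ m + 2 :=
      le_of_tendsto (hΨt m x hx2).norm (Eventually.of_forall hb)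
    exact hδ2 _ (mem_closedBall_zero_iff.mpr hb2) _ (mem_closedBall_zero_iff.mpr (hb _))
      (hk.2 x hx2)
  exact ⟨Φ, differentiable_of_tendsto hFd hunif, hunif, fun m => ⟨Ψ m, hΨt m, hΦ m⟩⟩

/-- injectivity of the limit -/
theorem limit_injective {A : E → E} {T : ℕ → E → E} (hT : Near T) (hd : ∀ k, Differentiable ℂ (T k))
    (hinj : ∀ m, Function.Injective (FF A T m)) {Φ : E → E}
    (h : ∀ m : ℕ, ∃ Ψ : E → E, (∀ x, ‖x‖ + 1 ≤ m → Tendsto (fun n => PP T m n x) atTop (𝓝 (Ψ x))) ∧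
        ∀ x, ‖x‖ + 1 ≤ m → Φ x = FF A T m (Ψ x)) : Function.Injective Φ := by
  intro x y hxy
  obtain ⟨m, hm⟩ := exists_nat_ge (max ‖x‖ ‖y‖ + 1)
  obtain ⟨Ψ, hΨ, hΦ⟩ := h m
  have hx : ‖x‖ + 1 ≤ (m : ℝ) := by linarith [le_max_left ‖x‖ ‖y‖]
  have hy : ‖y‖ + 1 ≤ (m : ℝ) := by linarith [le_max_right ‖x‖ ‖y‖]
  rw [hΦ x hx, hΦ y hy] at hxy
  have h1 := hinj m hxy
  have h2 : Tendsto (fun n => ‖PP T m n x - PP T m n y‖) atTop (𝓝 ‖Ψ x - Ψ y‖) :=
    ((hΨ x hx).sub (hΨ y hy)).norm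
  have h3 : 1 / 2 * ‖x - y‖ ≤ ‖Ψ x - Ψ y‖ := ge_of_tendsto h2
    (Eventually.of_forall fun n => PP_lower hT hd m n (by linarith) (by linarith))
  rw [h1, sub_self, norm_zero] at h3
  have h4 : ‖x - y‖ ≤ 0 := by linarith
  exact sub_eq_zero.mp (norm_le_zero_iff.mp h4)

end Pool.Agent.Lib.MP_c05f88_an
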