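import Pool.Agent.Lib.MP_c05f88_an.Holo

/-!
# Entire maps which expand distances locally are open
-/

set_option autoImplicit false

namespace Pool.Agent.Lib.MP_c05f88_an

open Set Filter Topology Metric

variable {E : Type*} [NormedAddCommGroup E] [NormedSpace ℂ E]

/-- entire maps are strictly differentiable -/
theorem strict_of_entire {f : E → E} (hf : Differentiable ℂ f) (x : E) :
    HasStrictFDerivAt f (fderiv ℂ f x) x := by
  rw [hasStrictFDerivAt_iff_isLittleO, Asymptotics.isLittleO_iff]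
  intro ε hε
  set L := fderiv ℂ f x with hL
  let g : E → E := fun y => f y - L y
  have hg : Differentiable ℂ g := hf.sub L.differentiable
  have hgx : HasFDerivAt g (0 : E →L[ℂ] E) x := by
    have h1 := (hf x).hasFDerivAt.sub L.hasFDerivAt
    rwa [← hL, sub_self] at h1
  have h2 := hgx.isLittleO
  rw [Asymptotics.isLittleO_iff] at h2
  have h3 := h2 (show (0 : ℝ) < ε / 2 by linarith)
  rw [Metric.eventually_nhds_iff] at h3
  obtain ⟨r, hr, h4⟩ := h3
  -- bound of `g - g x`
  have h5 : ∀ y, ‖y - x‖ < r → ‖g y - g x‖ ≤ ε / 2 * ‖y - x‖ := by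
    intro y hy
    have h6 := h4 (show dist y x < r by rwa [dist_eq_norm])
    simpa using h6
  have hg' : Differentiable ℂ fun y => g y - g x := hg.sub_const _
  have h7 : ∀ z, ‖z - x‖ < r / 3 → ‖fderiv ℂ (fun y => g y - g x) z‖ ≤ ε := by
    intro z hz
    have h8 := norm_fderiv_le (r := r / 3) (M := ε / 2 * (2 * (r / 3))) hg' (x := z) (by linarith) (fun w hw => by
      have h9 : ‖w - x‖ ≤ 2 * (r / 3) := by
        calc ‖w - x‖ = ‖(w - z) + (z - x)‖ := by rw [sub_add_sub_cancel]
          _ ≤ ‖w - z‖ + ‖z - x‖ := norm_add_le _ _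
          _ ≤ 2 * (r / 3) := by linarith
      exact (h5 w (by linarith)).trans (mul_le_mul_of_nonneg_left h9 (by linarith)))
    refine h8.trans (le_of_eq ?_)
    field_simp
  have h10 : ∀ᶠ p : E × E in 𝓝 (x, x), ‖p.1 - x‖ < r / 3 ∧ ‖p.2 - x‖ < r / 3 := by
    have a1 : ∀ᶠ y : E in 𝓝 x, ‖y - x‖ < r / 3 := by
      rw [Metric.eventually_nhds_iff]
      exact ⟨r / 3, by linarith, fun y hy => by rwa [dist_eq_norm] at hy⟩
    have a2 := a1.prod_mk a1
    rw [nhds_prod_eq]
    exact a2
  filter_upwards [h10] with p hp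
  have h11 := Convex.norm_image_sub_le_of_norm_fderiv_le (𝕜 := ℂ) (f := fun y => g y - g x)
    (s := ball x (r / 3)) (C := ε) (x := p.2) (y := p.1) (fun z _ => hg' z)
    (fun z hz => h7 z (by rwa [mem_ball_iff_norm] at hz)) (convex_ball _ _)
    (by rw [mem_ball_iff_norm]; exact hp.2) (by rw [mem_ball_iff_norm]; exact hp.1)
  have e : f p.1 - f p.2 - L (p.1 - p.2) = (g p.1 - g x) - (g p.2 - g x) := by
    simp only [g, map_sub]
    abel
  rw [e]
  exact h11

/-- entire maps which locally do not decrease distances by more than a factor are open and have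
invertible derivatives -/
theorem isOpenMap_of_lower [FiniteDimensional ℂ E] {f : E → E} (hf : Differentiable ℂ f)
    (h : ∀ R : ℝ, ∃ c : ℝ, 0 < c ∧ ∀ u v : E, ‖u‖ ≤ R → ‖v‖ ≤ R → c * ‖u - v‖ ≤ ‖f u - f v‖) :
    IsOpenMap f ∧ ∀ x, Function.Bijective (fderiv ℂ f x) := by
  have : ProperSpace E := FiniteDimensional.proper ℂ E
  have : CompleteSpace E := FiniteDimensional.complete ℂ E
  have hinj : ∀ x, Function.Injective (fderiv ℂ f x) := by
    intro x
    obtain ⟨c, hc, h1⟩ := h (‖x‖ + 1)
    rw [injective_iff_map_eq_zero]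
    intro v hv
    by_contra hne
    have hv0 : 0 < ‖v‖ := norm_pos_iff.mpr hne
    have h2 := (hf x).hasFDerivAt.isLittleO
    rw [Asymptotics.isLittleO_iff] at h2
    have h3 := h2 (show (0 : ℝ) < c / 2 by linarith)
    rw [Metric.eventually_nhds_iff] at h3
    obtain ⟨r, hr, h4⟩ := h3
    -- a small multiple of `v`
    set t : ℝ := min (r / 2) 1 / ‖v‖ with ht
    have ht0 : 0 < t := div_pos (lt_min (by linarith) one_pos) hv0
    have htv : ‖(t : ℂ) • v‖ = min (r / 2) 1 := by
      rw [norm_smul, Complex.norm_real, Real.norm_eq_abs, abs_of_pos ht0, ht, div_mul_cancel₀ _ hv0.ne']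
    have h5 := h4 (y := x + (t : ℂ) • v) (by
      rw [dist_eq_norm, add_sub_cancel_left, htv]
      exact (min_le_left _ _).trans_lt (by linarith))
    rw [add_sub_cancel_left, map_smul, hv, smul_zero, sub_zero] at h5
    have h6 := h1 (x + (t : ℂ) • v) x (by
      refine (norm_add_le _ _).trans ?_
      rw [htv]
      linarith [min_le_right (r / 2) 1]) (by linarith)
    rw [add_sub_cancel_left] at h6
    have h7 : 0 < ‖(t : ℂ) • v‖ := by
      rw [htv]
      exact lt_min (by linarith) one_pos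
    nlinarith
  have hbij : ∀ x, Function.Bijective (fderiv ℂ f x) := fun x =>
    ⟨hinj x, LinearMap.surjective_of_injective (f := (fderiv ℂ f x).toLinearMap) (hinj x)⟩
  refine ⟨?_, hbij⟩
  rw [isOpenMap_iff_nhds_le]
  intro x
  have h1 := (strict_of_entire hf x).map_nhds_eq_of_surj (by
    rw [LinearMap.range_eq_top]
    exact (hbij x).2)
  exact h1.ge

end Pool.Agent.Lib.MP_c05f88_an
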