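import Pool.Agent.Lib.MP_c05f88_an.Unif
import Pool.Agent.Lib.MP_c05f88_an.Strict
import Pool.Agent.Lib.MP_c05f88_an.Limit
import Pool.Agent.Lib.MP_c05f88_an.Basic

/-!
# Injective self-maps extend to injective entire maps
-/

set_option autoImplicit false

namespace Pool.Agent.Lib.MP_c05f88_an

open Set Filter Topology Metric

variable {E : Type*} [NormedAddCommGroup E] [NormedSpace ℂ E]

theorem lipschitz_ball [ProperSpace E] {G : E → E} (hG : Differentiable ℂ G) (Λ : ℝ) :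
    ∃ C : ℝ, 0 ≤ C ∧ ∀ a b : E, ‖a‖ ≤ Λ → ‖b‖ ≤ Λ → ‖G a - G b‖ ≤ C * ‖a - b‖ := by
  obtain ⟨M, hM⟩ := ((isCompact_closedBall (0 : E) (Λ + 1)).image hG.continuous).isBounded.exists_norm_le
  refine ⟨max M 0, le_max_right _ _, fun a b ha hb => ?_⟩
  refine Convex.norm_image_sub_le_of_norm_fderiv_le (𝕜 := ℂ) (f := G)
    (s := closedBall (0 : E) Λ) (C := max M 0) (x := b) (y := a) (fun z _ => hG z) (fun z hz => ?_)
    (convex_closedBall 0 Λ) (by simpa using hb) (by simpa using ha)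
  have h2 := norm_fderiv_le (r := 1) (M := M) hG (x := z) one_pos (fun w hw => by
    apply hM
    refine ⟨w, ?_, rfl⟩
    rw [mem_closedBall_zero_iff] at hz ⊢
    calc ‖w‖ = ‖(w - z) + z‖ := by rw [sub_add_cancel]
      _ ≤ ‖w - z‖ + ‖z‖ := norm_add_le _ _
      _ ≤ Λ + 1 := by linarith)
  rw [div_one] at h2
  exact h2.trans (le_max_left _ _)

theorem lower_ball [ProperSpace E] {F G : E → E} (hF : Differentiable ℂ F) (hG : Differentiable ℂ G)
    (hGF : ∀ x, G (F x) = x) (ρ : ℝ) :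
    ∃ c : ℝ, 0 < c ∧ ∀ u v : E, ‖u‖ ≤ ρ → ‖v‖ ≤ ρ → c * ‖u - v‖ ≤ ‖F u - F v‖ := by
  obtain ⟨Λ, hΛ⟩ := ((isCompact_closedBall (0 : E) ρ).image hF.continuous).isBounded.exists_norm_le
  obtain ⟨C, hC0, hC⟩ := lipschitz_ball hG Λ
  refine ⟨1 / (C + 1), by positivity, fun u v hu hv => ?_⟩
  have h1 := hC (F u) (F v) (hΛ _ ⟨u, by simpa using hu, rfl⟩) (hΛ _ ⟨v, by simpa using hv, rfl⟩)
  rw [hGF, hGF] at h1
  rw [div_mul_eq_mul_div, one_mul, div_le_iff₀ (by positivity)]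
  nlinarith [norm_nonneg (F u - F v)]

/-- a homeomorphism which is expanding on a sphere covers a ball -/
theorem cover_ball {F G : E → E} (hG : Continuous G) (hGF : ∀ x, G (F x) = x)
    (hFG : ∀ x, F (G x) = x) {x : E} {c δ : ℝ} (hδ : 0 < δ)
    (h : ∀ y, ‖y - x‖ = δ → c * δ ≤ ‖F y - F x‖) {w : E} (hw : ‖w - F x‖ < c * δ) :
    ‖G w - x‖ < δ := by
  by_contra hcon
  push Not at hcon
  let g : ℝ → ℝ := fun t => ‖G (F x + (t : ℂ) • (w - F x)) - x‖
  have hg : Continuous g := by fun_prop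
  have h0 : g 0 = 0 := by simp [g, hGF]
  have h1 : g 1 = ‖G w - x‖ := by simp [g]
  obtain ⟨t, ht, hgt⟩ := intermediate_value_Icc (zero_le_one (α := ℝ)) hg.continuousOn
    (show δ ∈ Icc (g 0) (g 1) by rw [h0, h1]; exact ⟨hδ.le, hcon⟩)
  have h2 := h _ hgt
  rw [hFG, add_sub_cancel_left, norm_smul, Complex.norm_real, Real.norm_eq_abs,
    abs_of_nonneg ht.1] at h2
  nlinarith [norm_nonneg (w - F x), ht.2]

section

variable {Z : Set E}

omit [NormedAddCommGroup E] [NormedSpace ℂ E] in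
/-- Permutations which agree with a given injection on a finite set. -/
theorem exists_perm_finite [Countable Z] (hinf : Z.Infinite) (j : Z → Z) (hj : Function.Injective j)
    (S : Set Z) (hS : S.Finite) : ∃ P : Z ≃ Z, ∀ z ∈ S, P z = j z := by
  have : Infinite Z := hinf.to_subtype
  have : Finite S := hS.to_subtype
  obtain ⟨P, hP⟩ := exists_perm S hS.infinite_compl (fun s : S => j s)
    (hj.comp Subtype.val_injective) (finite_range _).infinite_compl
  exact ⟨P, fun z hz => hP ⟨z, hz⟩⟩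

/-- The properties of the extension `Φ` of an injection `j`. -/
structure ExtProp (Z : Set E) (j : Z → Z) (Φ : E → E) : Prop where
  diff : Differentiable ℂ Φ
  inj : Function.Injective Φ
  openMap : IsOpenMap Φ
  ext : ∀ z : Z, Φ z = j z
  pre : ∀ x, Φ x ∈ Z → x ∈ Z
  lim : ∃ F : ℕ → E ≃ E, (∀ k, Differentiable ℂ (F k) ∧ Differentiable ℂ (F k).symm ∧
      ∀ x, F k x ∈ Z ↔ x ∈ Z) ∧ ∀ R : ℝ, TendstoUniformlyOn (fun k => F k) Φ atTop (closedBall 0 R)

/-- Extension of injections, with a given beginning `A` of the construction. -/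
theorem ext_core [FiniteDimensional ℂ E] (hinf : Z.Infinite) (hcl : IsClosed Z)
    (hd : DiscreteTopology Z) (hZ : AutPerm Z) (j : Z → Z) (hj : Function.Injective j)
    (S0 : Set Z) (hS0 : S0.Finite) (M : ℕ) :
    ∃ P : Z ≃ Z, (∀ z ∈ S0, P z = j z) ∧ ∀ A : E ≃ E, Differentiable ℂ A → Differentiable ℂ A.symm →
      (∀ z : Z, A z = P z) → ∃ Φ : E → E, ExtProp Z j Φ ∧
        ∀ x, ‖x‖ ≤ (M : ℝ) + 1 → ‖A.symm (Φ x) - x‖ ≤ (1 / 2 : ℝ) ^ (M + 1) := by
  have : ProperSpace E := FiniteDimensional.proper ℂ E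
  have hcount : Countable Z := TopologicalSpace.separableSpace_iff_countable.mp inferInstance
  have : Infinite Z := hinf.to_subtype
  obtain ⟨den⟩ := nonempty_denumerable Z
  let e : Z ≃ ℕ := Denumerable.eqv Z
  -- the finite sets
  have hopen := fun k : ℕ => open_property hcl hd e hZ (((M + k : ℕ) : ℝ) + 2)
    ((1 / 2 : ℝ) ^ (M + k + 2)) (by positivity)
  choose S hSfin hS using hopen
  let S' : ℕ → Set Z := fun k => ((⋃ i ∈ {i | i ≤ k}, S i) ∪ e.symm '' {i | i < k}) ∪ S0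
  have hS'fin : ∀ k, (S' k).Finite := fun k =>
    (((finite_le_nat k).biUnion fun i _ => hSfin i).union ((finite_lt_nat k).image _)).union hS0
  have hS'mono : ∀ k, S' k ⊆ S' (k + 1) := by
    intro k z hz
    rcases hz with (hz | hz) | hz
    · simp only [mem_iUnion] at hz
      obtain ⟨i, hi, hz⟩ := hz
      refine Or.inl (Or.inl ?_)
      simp only [mem_iUnion]
      exact ⟨i, Nat.le_succ_of_le hi, hz⟩
    · obtain ⟨i, hi, rfl⟩ := hz
      exact Or.inl (Or.inr ⟨i, Nat.lt_succ_of_lt hi, rfl⟩)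
    · exact Or.inr hz
  have hSS' : ∀ k, S k ⊆ S' k := by
    intro k z hz
    refine Or.inl (Or.inl ?_)
    simp only [mem_iUnion]
    exact ⟨k, (show k ≤ k from le_rfl), hz⟩
  choose P hP using fun k => exists_perm_finite hinf j hj (S' k) (hS'fin k)
  have hev : ∀ z : Z, ∀ᶠ k in atTop, P k z = j z := by
    intro z
    filter_upwards [eventually_gt_atTop (e z)] with k hk
    exact hP k z (Or.inl (Or.inr ⟨e z, hk, e.symm_apply_apply z⟩))
  refine ⟨P 0, fun z hz => hP 0 z (Or.inr hz), fun A hA1 hA2 hA => ?_⟩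
  -- automorphisms
  have hT := fun k => hS k ((P (k + 1)).trans (P k).symm) (fun z hz => by
    show (P k).symm (P (k + 1) z) = z
    rw [Equiv.symm_apply_eq, hP k z (hSS' k hz), hP (k + 1) z (hS'mono k (hSS' k hz))])
  choose p hpV hpT using hT
  let T : ℕ → E → E := fun k => (p k).1.1
  have hTd : ∀ k, Differentiable ℂ (T k) := fun k => (p k).2.2.2.1
  have hTM : ∀ (k : ℕ) (x : E), ‖x‖ ≤ ((M + k : ℕ) : ℝ) + 2 → ‖T k x - x‖ ≤ (1 / 2 : ℝ) ^ (M + k + 2) :=
    fun k x hx => ((hpV k).1 x hx).le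
  have hTn : Near T := by
    intro k x hx
    refine (hTM k x ?_).trans (pow_le_pow_of_le_one (by norm_num) (by norm_num) (by omega))
    push_cast
    have h1 : (0 : ℝ) ≤ M := Nat.cast_nonneg M
    linarith
  -- the partial compositions as equivalences
  let Te : ℕ → E ≃ E := fun k => ⟨(p k).1.1, (p k).1.2, (p k).2.2.1, (p k).2.1⟩
  let Fe : ℕ → E ≃ E := fun k => Nat.rec A (fun k F => (Te k).trans F) k
  have hFe : ∀ k, (Fe k : E → E) = FF A T k := by
    intro k
    induction k with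
    | zero => rfl
    | succ k ih =>
      show (Fe k : E → E) ∘ T k = FF A T k ∘ T k
      rw [ih]
  have hFed : ∀ k, Differentiable ℂ (Fe k) ∧ Differentiable ℂ (Fe k).symm := by
    intro k
    induction k with
    | zero => exact ⟨hA1, hA2⟩
    | succ k ih => exact ⟨ih.1.comp (hTd k), (show Differentiable ℂ (Te k).symm from (p k).2.2.2.2.1).comp ih.2⟩
  have hFeP : ∀ k, ∀ z : Z, Fe k z = P k z := by
    intro k
    induction k with
    | zero => exact hA
    | succ k ih =>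
      intro z
      show Fe k ((p k).1.1 z) = P (k + 1) z
      rw [hpT k z, ih]
      show ((P k) ((P k).symm (P (k + 1) z)) : E) = _
      rw [Equiv.apply_symm_apply]
  have hFeZ : ∀ k x, Fe k x ∈ Z ↔ x ∈ Z := by
    intro k x
    constructor
    · intro hx
      have h1 : Fe k ((P k).symm ⟨Fe k x, hx⟩) = Fe k x := by
        rw [hFeP, Equiv.apply_symm_apply]
      rw [← (Fe k).injective h1]
      exact Subtype.coe_prop _
    · intro hx
      rw [hFeP k ⟨x, hx⟩]
      exact Subtype.coe_prop _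
  obtain ⟨Φ, hΦd, hΦu, hΦ⟩ := FF_limit hA1 hTn hTd
  have hΦinj : Function.Injective Φ := limit_injective hTn hTd (fun m => by
    rw [← hFe m]
    exact (Fe m).injective) hΦ
  have hΦt : ∀ x, Tendsto (fun k => Fe k x) atTop (𝓝 (Φ x)) := by
    intro x
    have h1 := (hΦu ‖x‖).tendsto_at (show x ∈ closedBall (0 : E) ‖x‖ by simp)
    refine h1.congr fun k => ?_
    rw [← hFe k]
  have hΦj : ∀ z : Z, Φ z = j z := by
    intro z
    refine tendsto_nhds_unique (hΦt z) ?_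
    refine tendsto_const_nhds.congr' ?_
    filter_upwards [hev z] with k hk
    rw [hFeP, hk]
  -- expansion
  have hexpand : ∀ m : ℕ, ∃ c : ℝ, 0 < c ∧ ∀ n, ∀ u v, ‖u‖ ≤ m → ‖v‖ ≤ m →
      c / 2 * ‖u - v‖ ≤ ‖Fe (m + n) u - Fe (m + n) v‖ := by
    intro m
    obtain ⟨c, hc, hc2⟩ := lower_ball (hFed m).1 (hFed m).2 (Fe m).symm_apply_apply ((m : ℝ) + 1)
    refine ⟨c, hc, fun n u v hu hv => ?_⟩
    have hb : ∀ u : E, ‖u‖ ≤ m → ‖PP T m n u‖ ≤ m + 1 := by
      intro u hu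
      have h4 := PP_near' hTn m n u (by linarith)
      calc ‖PP T m n u‖ = ‖(PP T m n u - u) + u‖ := by rw [sub_add_cancel]
        _ ≤ ‖PP T m n u - u‖ + ‖u‖ := norm_add_le _ _
        _ ≤ m + 1 := by linarith
    have h1 := hc2 _ _ (hb u hu) (hb v hv)
    have h2 := PP_lower hTn hTd m n hu hv
    have h3 : ∀ u, Fe (m + n) u = Fe m (PP T m n u) := by
      intro u
      rw [hFe, FF_add, hFe m]
      rfl
    rw [h3, h3]
    calc c / 2 * ‖u - v‖ = c * (1 / 2 * ‖u - v‖) := by ring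
      _ ≤ c * ‖PP T m n u - PP T m n v‖ := mul_le_mul_of_nonneg_left h2 hc.le
      _ ≤ _ := h1
  have hlower : ∀ R : ℝ, ∃ c : ℝ, 0 < c ∧ ∀ u v : E, ‖u‖ ≤ R → ‖v‖ ≤ R → c * ‖u - v‖ ≤ ‖Φ u - Φ v‖ := by
    intro R
    obtain ⟨m, hm⟩ := exists_nat_ge R
    obtain ⟨c, hc, h1⟩ := hexpand m
    refine ⟨c / 2, by linarith, fun u v hu hv => ?_⟩
    have h2 : Tendsto (fun n => ‖Fe (m + n) u - Fe (m + n) v‖) atTop (𝓝 ‖Φ u - Φ v‖) := by
      have h3 : Tendsto (fun n : ℕ => m + n) atTop atTop :=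
        tendsto_atTop_mono (fun n => Nat.le_add_left n m) tendsto_id
      exact (((hΦt u).comp h3).sub ((hΦt v).comp h3)).norm
    exact ge_of_tendsto h2 (Eventually.of_forall fun n => h1 n u v (hu.trans hm) (hv.trans hm))
  refine ⟨Φ, ⟨hΦd, hΦinj, (isOpenMap_of_lower hΦd hlower).1, hΦj, ?_,
    Fe, fun k => ⟨(hFed k).1, (hFed k).2, hFeZ k⟩, fun R => ?_⟩, fun x hx => ?_⟩
  · -- no new points of `Z` in the image
    intro x hx
    obtain ⟨m, hm⟩ := exists_nat_ge (‖x‖ + 1)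
    obtain ⟨c, hc, hexp⟩ := hexpand m
    -- preimages of `Φ x` are close to `x`
    have hnear : ∀ δ : ℝ, 0 < δ → δ ≤ 1 → ∀ᶠ k in atTop, ‖(Fe k).symm (Φ x) - x‖ < δ := by
      intro δ hδ hδ1
      have h1 : ∀ᶠ k in atTop, ‖Φ x - Fe k x‖ < c / 2 * δ := by
        have h2 : Tendsto (fun k => ‖Φ x - Fe k x‖) atTop (𝓝 0) := by
          have := (tendsto_const_nhds (x := Φ x)).sub (hΦt x)
          simpa using this.norm
        exact h2.eventually_lt_const (by positivity)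
      filter_upwards [h1, eventually_ge_atTop m] with k hk hkm
      refine cover_ball (F := Fe k) (G := (Fe k).symm) (hFed k).2.continuous
        (Fe k).symm_apply_apply (Fe k).apply_symm_apply hδ (fun y hy => ?_) hk
      have h3 := hexp (k - m) y x (by
        calc ‖y‖ = ‖(y - x) + x‖ := by rw [sub_add_cancel]
          _ ≤ ‖y - x‖ + ‖x‖ := norm_add_le _ _
          _ ≤ m := by linarith) (by linarith)
      rw [Nat.add_sub_cancel' hkm, hy] at h3
      exact h3
    have hmemZ : ∀ k, (Fe k).symm (Φ x) ∈ Z := by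
      intro k
      rw [← hFeZ k, Equiv.apply_symm_apply]
      exact hx
    rw [← hcl.closure_eq, Metric.mem_closure_iff]
    intro ε hε
    obtain ⟨k, hk⟩ := (hnear (min ε 1) (lt_min hε one_pos) (min_le_right _ _)).exists
    refine ⟨_, hmemZ k, ?_⟩
    rw [dist_comm, dist_eq_norm]
    exact hk.trans_le (min_le_left _ _)
  · refine (hΦu R).congr (Eventually.of_forall fun k x _ => ?_)
    show FF A T k x = Fe k x
    rw [hFe]
  · -- `A⁻¹ Φ` is near the identity
    have h1 : Tendsto (fun k => ‖A.symm (Fe k x) - x‖) atTop (𝓝 ‖A.symm (Φ x) - x‖) :=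
      (((hA2.continuous.tendsto _).comp (hΦt x)).sub tendsto_const_nhds).norm
    refine le_of_tendsto h1 (Eventually.of_forall fun k => ?_)
    -- shift of the sequence
    let T2 : ℕ → E → E := fun i => if i < M then id else T (i - M)
    have hT2 : Near T2 := by
      intro i x hx
      by_cases hi : i < M
      · simp only [T2, hi, if_true, id, sub_self, norm_zero]
        positivity
      · simp only [T2, hi, if_false]
        have h2 : M + (i - M) = i := by omega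
        have h3 := hTM (i - M) x (by rw [h2]; exact hx)
        rwa [h2] at h3
    have hPP : ∀ k, PP T2 M k = PP T 0 k := by
      intro k
      induction k with
      | zero => rfl
      | succ k ih =>
        show PP T2 M k ∘ T2 (M + k) = PP T 0 k ∘ T (0 + k)
        have h4 : T2 (M + k) = T (0 + k) := by
          have h5 : ¬ (M + k < M) := by omega
          simp only [T2, h5, if_false]
          congr 1
          omega
        rw [ih, h4]
    have h6 := PP_near2 hT2 M k x hx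
    have h7 : A.symm (Fe k x) = PP T 0 k x := by
      have h8 := FF_add A T 0 k
      rw [Nat.zero_add] at h8
      rw [hFe, h8]
      show A.symm (A (PP T 0 k x)) = _
      rw [Equiv.symm_apply_apply]
    rw [h7, ← hPP]
    refine h6.trans ?_
    have h9 : (0 : ℝ) < (1 / 2) ^ k := by positivity
    have h10 : (0 : ℝ) < (1 / 2) ^ (M + 1) := by positivity
    nlinarith

/-- Every injective self-map of `Z` extends to an injective entire map. -/
theorem injection_extends [FiniteDimensional ℂ E] (hinf : Z.Infinite) (hcl : IsClosed Z)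
    (hd : DiscreteTopology Z) (hZ : AutPerm Z) (j : Z → Z) (hj : Function.Injective j) :
    ∃ Φ : E → E, ExtProp Z j Φ := by
  obtain ⟨P, -, h⟩ := ext_core hinf hcl hd hZ j hj ∅ finite_empty 0
  obtain ⟨A, hA1, hA2, hA⟩ := hZ P
  obtain ⟨Φ, hΦ, -⟩ := h A hA1 hA2 hA
  exact ⟨Φ, hΦ⟩

/-- For every ball there is a finite set such that the injective self-maps of `Z` which fix it extend to
injective entire maps arbitrarily near the identity on the ball. -/
theorem injection_near [FiniteDimensional ℂ E] (hinf : Z.Infinite) (hcl : IsClosed Z)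
    (hd : DiscreteTopology Z) (hZ : AutPerm Z) (R : ℝ) : ∃ S : Set Z, S.Finite ∧ ∀ ε : ℝ, 0 < ε →
      (∀ f : Z ≃ Z, (∀ z ∈ S, f z = z) → ∃ F : E ≃ E, Differentiable ℂ F ∧ Differentiable ℂ F.symm ∧
        (∀ z : Z, F z = f z) ∧ ∀ x, ‖x‖ ≤ R → ‖F x - x‖ < ε ∧ ‖F.symm x - x‖ < ε) ∧
      ∀ j : Z → Z, Function.Injective j → (∀ z ∈ S, j z = z) →
        ∃ Φ : E → E, ExtProp Z j Φ ∧ ∀ x, ‖x‖ ≤ R → ‖Φ x - x‖ < ε := by
  obtain ⟨S, hSfin, hS⟩ := unif_open hinf hcl hd hZ (R + 1)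
  have hS2 : ∀ ε : ℝ, 0 < ε → ∀ f : Z ≃ Z, (∀ z ∈ S, f z = z) → ∃ F : E ≃ E, Differentiable ℂ F ∧
      Differentiable ℂ F.symm ∧ (∀ z : Z, F z = f z) ∧
      ∀ x, ‖x‖ ≤ R + 1 → ‖F x - x‖ < ε ∧ ‖F.symm x - x‖ < ε := by
    intro ε hε f hf
    obtain ⟨p, hp, hpf⟩ := hS ε hε f hf
    exact ⟨⟨p.1.1, p.1.2, p.2.2.1, p.2.1⟩, p.2.2.2.1, p.2.2.2.2.1, hpf,
      fun x hx => ⟨hp.1 x hx, hp.2 x hx⟩⟩
  refine ⟨S, hSfin, fun ε hε => ⟨fun f hf => ?_, fun j hj hjS => ?_⟩⟩
  · obtain ⟨F, h1, h2, h3, h4⟩ := hS2 ε hε f hf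
    exact ⟨F, h1, h2, h3, fun x hx => h4 x (by linarith)⟩
  · obtain ⟨M, hM⟩ : ∃ M : ℕ, R ≤ M ∧ (1 / 2 : ℝ) ^ (M + 1) < ε / 2 := by
      obtain ⟨k, hk⟩ := exists_pow_lt_of_lt_one (show 0 < ε / 2 by linarith) (show (1 / 2 : ℝ) < 1 by norm_num)
      obtain ⟨m, hm⟩ := exists_nat_ge R
      refine ⟨max k m, hm.trans (by exact_mod_cast le_max_right k m), lt_of_le_of_lt ?_ hk⟩
      exact pow_le_pow_of_le_one (by norm_num) (by norm_num) (by omega)
    obtain ⟨P, hP, h⟩ := ext_core hinf hcl hd hZ j hj S hSfin M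
    obtain ⟨A, hA1, hA2, hA3, hA4⟩ := hS2 (ε / 2) (by linarith) P (fun z hz => by
      rw [hP z hz, hjS z hz])
    obtain ⟨Φ, hΦ, hn⟩ := h A hA1 hA2 hA3
    refine ⟨Φ, hΦ, fun x hx => ?_⟩
    have h1 := hn x (by linarith)
    have h2 : (1 / 2 : ℝ) ^ (M + 1) ≤ 1 := pow_le_one₀ (by norm_num) (by norm_num)
    have h3 : ‖A.symm (Φ x)‖ ≤ R + 1 := by
      calc ‖A.symm (Φ x)‖ = ‖(A.symm (Φ x) - x) + x‖ := by rw [sub_add_cancel]
        _ ≤ ‖A.symm (Φ x) - x‖ + ‖x‖ := norm_add_le _ _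
        _ ≤ R + 1 := by linarith
    have h4 := (hA4 _ h3).1
    rw [Equiv.apply_symm_apply] at h4
    calc ‖Φ x - x‖ = ‖(Φ x - A.symm (Φ x)) + (A.symm (Φ x) - x)‖ := by rw [sub_add_sub_cancel]
      _ ≤ ‖Φ x - A.symm (Φ x)‖ + ‖A.symm (Φ x) - x‖ := norm_add_le _ _
      _ < ε := by linarith [hM.2]

end

end Pool.Agent.Lib.MP_c05f88_an
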