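import Pool.Agent.Lib.MP_c05f88_an.Defs

/-!
# The limit of the automorphisms `P k` (job Lim)

`eta_add`: `2 * η (k+1) ≤ η k` (`half`), in particular `η` is decreasing.
`Lmono`: `L` is increasing.

`step_dist`: for `x ∈ L k`: `x ∈ L (k+2)`, so `u = (P k)⁻¹ (P (k+1) x)` satisfies `dist u x < η k` (`near`), and `modulus` gives
`dist (P k x) (P k u) < (1/2)^k`, where `P k u = P (k+1) x`.

`drift`: let `x ∈ L k` and `k ≤ m`. Claim `dist ((P k)⁻¹ (P m x)) x < 2 * η k`. Downward induction on `k` (or induction on `m - k`): for `k = m` it is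
`0 < 2 * η m`. Suppose it holds for `k+1` (note `x ∈ L k ⊆ L (k+1)`): `u = (P (k+1))⁻¹ (P m x)` has `dist u x < 2 * η (k+1) ≤ η k`, so `u ∈ L (k+1) ⊆ L (k+2)` by `nbd`, and
`(P k)⁻¹ (P m x) = (P k)⁻¹ (P (k+1) u)` is at distance `< η k` from `u` by `near`. In total `< η k + 2 * η (k+1) ≤ 2 * η k`.

`exists_limit`: let `x ∈ X`, `x ∈ L j`. For `m ≥ j` `dist (P m x) (P (m+1) x) < (1/2)^m`, so the sequence is Cauchy
(`cauchySeq_of_le_geometric` after a shift). For `m ≥ j + 1`: `u = (P (j+1))⁻¹ (P m x)` has `dist u x < 2 * η (j+1) ≤ η j` (`drift` for `k = j+1`), so `u ∈ L (j+1)` by `nbd` and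
`P m x = P (j+1) u ∈ P (j+1) '' L (j+1)`, which is compact, hence complete: the sequence converges (`cauchySeq_tendsto_of_isComplete`). Let `Φ x` be the
limit. Summing, `dist (P m x) (Φ x) ≤ 2 * (1/2)^m` for `x ∈ L k`, `m ≥ k`.

`limit_continuous`, `limit_unif`: `P m → Φ` uniformly on each `L k`, and every point has a neighbourhood `L k` (`hLi`, `hLU`), so the convergence is
locally uniform and `Φ` is continuous.
-/

namespace Pool.Agent.Lib.MP_c05f88_an

open Set Filter Topology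

variable {X : Type*} [MetricSpace X] {G : Subgroup (X ≃ₜ X)} {Z : Set X} {L : ℕ → Set X} {e : ℕ → Z} {f : Z → Z}
  {P : ℕ → X ≃ₜ X} {η : ℕ → ℝ}

private theorem Lim_eta (hS : Seq G Z L e f P η) (k : ℕ) : 2 * η (k + 1) ≤ η k := by
  have := hS.half k
  linarith

theorem Lmono (hLi : ∀ k, L k ⊆ interior (L (k + 1))) : Monotone L :=
  monotone_nat_of_le_succ fun k => (hLi k).trans interior_subset

private theorem Lim_step (hS : Seq G Z L e f P η) (hLi : ∀ k, L k ⊆ interior (L (k + 1))) {k : ℕ}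
    {x : X} (hx : x ∈ L k) : dist (P k x) (P (k + 1) x) < (1 / 2) ^ k := by
  have h1 := hS.near k x (Lmono hLi (by omega : k ≤ k + 2) hx)
  have h2 := hS.modulus k x hx ((P k).symm (P (k + 1) x)) (by rw [dist_comm]; exact h1)
  rwa [(P k).apply_symm_apply] at h2

theorem drift (hS : Seq G Z L e f P η) (hLi : ∀ k, L k ⊆ interior (L (k + 1))) {k m : ℕ} (hkm : k ≤ m) {x : X} (hx : x ∈ L k) :
    dist ((P k).symm (P m x)) x < 2 * η k := by
  obtain ⟨n, rfl⟩ := Nat.exists_eq_add_of_le hkm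
  clear hkm
  induction n generalizing k with
  | zero =>
    rw [Nat.add_zero, (P k).symm_apply_apply, dist_self]
    have := hS.pos k
    linarith
  | succ n ih =>
    have hx1 : x ∈ L (k + 1) := Lmono hLi (by omega) hx
    have h1 := ih hx1
    rw [show k + 1 + n = k + (n + 1) by omega] at h1
    set u := (P (k + 1)).symm (P (k + (n + 1)) x) with hu
    have h2 : dist u x < η k := h1.trans_le (Lim_eta hS k)
    have h3 : u ∈ L (k + 1) := hS.nbd k x hx u (by rw [dist_comm]; exact h2)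
    have h4 := hS.near k u (Lmono hLi (by omega) h3)
    have h5 : P (k + 1) u = P (k + (n + 1)) x := (P (k + 1)).apply_symm_apply _
    rw [h5] at h4
    calc dist ((P k).symm (P (k + (n + 1)) x)) x
        ≤ dist ((P k).symm (P (k + (n + 1)) x)) u + dist u x := dist_triangle _ _ _
      _ < η k + 2 * η (k + 1) := add_lt_add h4 h1
      _ ≤ 2 * η k := by linarith [Lim_eta hS k]

theorem exists_limit (hS : Seq G Z L e f P η) (hL : ∀ k, IsCompact (L k)) (hLi : ∀ k, L k ⊆ interior (L (k + 1)))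
    (hLU : ⋃ k, L k = univ) :
    ∃ Φ : X → X, ∀ k, ∀ x ∈ L k, ∀ m, k ≤ m → dist (P m x) (Φ x) ≤ 2 * (1 / 2) ^ m := by
  have key : ∀ x : X, ∃ y : X, ∀ k, x ∈ L k → ∀ m, k ≤ m → dist (P m x) y ≤ 2 * (1 / 2) ^ m := by
    intro x
    obtain ⟨j, hj⟩ : ∃ j, x ∈ L j := by
      have : x ∈ ⋃ k, L k := hLU ▸ mem_univ x
      exact mem_iUnion.1 this
    have hc : IsCompact (P (j + 1) '' L (j + 1)) := (hL _).image (P (j + 1)).continuous
    have hmem : ∀ n, P (j + 1 + n) x ∈ P (j + 1) '' L (j + 1) := by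
      intro n
      refine ⟨(P (j + 1)).symm (P (j + 1 + n) x), ?_, (P (j + 1)).apply_symm_apply _⟩
      have h1 := drift hS hLi (Nat.le_add_right (j + 1) n) (Lmono hLi (Nat.le_succ j) hj)
      exact hS.nbd j x hj _ (by rw [dist_comm]; exact h1.trans_le (Lim_eta hS j))
    have hgeo : ∀ n, dist (P (j + 1 + n) x) (P (j + 1 + (n + 1)) x) ≤
        (1 / 2) ^ (j + 1) * (1 / 2) ^ n := by
      intro n
      have h1 := Lim_step hS hLi (Lmono hLi (by omega : j ≤ j + 1 + n) hj)
      rw [← pow_add]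
      exact h1.le
    have hcau : CauchySeq fun n => P (j + 1 + n) x :=
      cauchySeq_of_le_geometric (1 / 2) ((1 / 2) ^ (j + 1)) (by norm_num) hgeo
    obtain ⟨y, -, hy⟩ := cauchySeq_tendsto_of_isComplete hc.isComplete hmem hcau
    have hy' : Tendsto (fun n => P n x) atTop (𝓝 y) := by
      have h1 : Tendsto (fun n => P (n + (j + 1)) x) atTop (𝓝 y) := by
        refine hy.congr fun n => ?_
        rw [Nat.add_comm]
      exact (tendsto_add_atTop_iff_nat (f := fun n => P n x) (j + 1)).1 h1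
    refine ⟨y, fun k hk m hkm => ?_⟩
    have h1 : Tendsto (fun n => P (m + n) x) atTop (𝓝 y) := by
      have h2 := (tendsto_add_atTop_iff_nat (f := fun n => P n x) m).2 hy'
      refine h2.congr fun n => ?_
      rw [Nat.add_comm]
    have h2 := dist_le_of_le_geometric_of_tendsto₀ (1 / 2) ((1 / 2) ^ m) (by norm_num)
      (f := fun n => P (m + n) x) (fun n => by
        have h3 := Lim_step hS hLi (Lmono hLi (by omega : k ≤ m + n) hk)
        rw [← pow_add]
        exact h3.le) h1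
    have h3 : (1 / 2 : ℝ) ^ m / (1 - 1 / 2) = 2 * (1 / 2) ^ m := by ring
    rw [h3] at h2
    exact h2
  choose Φ hΦ using key
  exact ⟨Φ, fun k x hx m hkm => hΦ x k hx m hkm⟩

theorem limit_unif (hLi : ∀ k, L k ⊆ interior (L (k + 1))) (hLU : ⋃ k, L k = univ) {Φ : X → X}
    (hΦ : ∀ k, ∀ x ∈ L k, ∀ m, k ≤ m → dist (P m x) (Φ x) ≤ 2 * (1 / 2) ^ m) :
    TendstoLocallyUniformly (fun m x => P m x) Φ atTop := by
  rw [Metric.tendstoLocallyUniformly_iff]
  intro ε hε x
  obtain ⟨j, hj⟩ : ∃ j, x ∈ L j := by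
    have : x ∈ ⋃ k, L k := hLU ▸ mem_univ x
    exact mem_iUnion.1 this
  refine ⟨L (j + 1), mem_interior_iff_mem_nhds.1 (hLi j hj), ?_⟩
  have h1 : Tendsto (fun m : ℕ => 2 * (1 / 2 : ℝ) ^ m) atTop (𝓝 (2 * 0)) :=
    (tendsto_pow_atTop_nhds_zero_of_lt_one (by norm_num) (by norm_num)).const_mul 2
  rw [mul_zero] at h1
  filter_upwards [h1.eventually (gt_mem_nhds hε), eventually_ge_atTop (j + 1)] with m hm hjm
  intro y hy
  rw [dist_comm]
  exact (hΦ (j + 1) y hy m hjm).trans_lt hm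

theorem limit_continuous (hLi : ∀ k, L k ⊆ interior (L (k + 1))) (hLU : ⋃ k, L k = univ) {Φ : X → X}
    (hΦ : ∀ k, ∀ x ∈ L k, ∀ m, k ≤ m → dist (P m x) (Φ x) ≤ 2 * (1 / 2) ^ m) : Continuous Φ :=
  (limit_unif hLi hLU hΦ).continuous (Eventually.frequently (Eventually.of_forall fun m => (P m).continuous))

end Pool.Agent.Lib.MP_c05f88_an
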