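import Pool.Agent.Lib.MP_c05f88_an.Chart

/-!
# Locally uniform limits of holomorphic maps (job LimHol)

`differentiableAt_of_limit`: let `f n → g` uniformly on `ball c r`. For `x ∈ ball c (r / 2)` and `m, n` with `dist (f m y) (f n y) < δ` on `ball c r`: the map
`h = f m - f n` maps `ball x (r / 2)` into `ball (h x) (2 δ)`, so `‖fderiv ℂ h x‖ ≤ 2 δ / (r / 2)` (`Complex.norm_fderiv_le_div_of_mapsTo_ball`). So the
derivatives `fderiv ℂ (f n)` form a uniform Cauchy sequence on `ball c (r / 2)`; they converge uniformly there to some `g'` (completeness of `E →L[ℂ] F`), and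
`hasFDerivAt_of_tendstoUniformlyOn` gives `HasFDerivAt g (g' c) c`.

`hol_of_limit`: fix `x`, `φ = chartAt E x`, `ψ = chartAt E (Φ x)`. `Φ` is continuous (`TendstoLocallyUniformly.continuous`). Choose `ρ > 0` with `closedBall (ψ (Φ x)) ρ ⊆ ψ.target`;
`Q = ψ.symm '' ball (ψ (Φ x)) ρ` is an open neighbourhood of `Φ x`, and let `δ > 0` with `closedBall (Φ x) (2 δ) ⊆ Q`. Choose `r > 0` such that `ball (φ x) r ⊆ φ.target`,
`Φ (φ.symm (ball (φ x) r)) ⊆ ball (Φ x) δ` and `P n → Φ` uniformly on `φ.symm '' ball (φ x) r`. For `n` large `P n` maps `φ.symm '' ball (φ x) r` into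
`closedBall (Φ x) (2 δ)`, so `f n = ψ ∘ P n ∘ φ.symm` is differentiable on the ball (`diffOn_chart`). `ψ` need not be uniformly continuous, so choose things such
that it is: `ψ` is uniformly continuous on the compact set `C = ψ.symm '' closedBall (ψ (Φ x)) (ρ / 2)`, a neighbourhood of `Φ x` (take `closedBall (Φ x) (2 δ) ⊆ C`), so `f n → ψ ∘ Φ ∘ φ.symm`
uniformly on the ball (`UniformContinuousOn.comp_tendstoUniformlyOn` or by hand). Conclude with `differentiableAt_of_limit` and `mdiffAt_of_chart`.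
-/

namespace Pool.Agent.Lib.MP_c05f88_an

open Set Filter Topology Manifold Metric

theorem differentiableAt_of_limit {E : Type*} [NormedAddCommGroup E] [NormedSpace ℂ E] {F : Type*} [NormedAddCommGroup F]
    [NormedSpace ℂ F] [CompleteSpace F] {f : ℕ → E → F} {g : E → F} {c : E} {r : ℝ} (hr : 0 < r)
    (hf : ∀ᶠ n in atTop, DifferentiableOn ℂ (f n) (ball c r)) (h : TendstoUniformlyOn f g atTop (ball c r)) :
    DifferentiableAt ℂ g c := by
  obtain ⟨N, hN⟩ := eventually_atTop.1 hf
  let G : ℕ → E → F := fun n => f (n + N)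
  have hd : ∀ n, DifferentiableOn ℂ (G n) (ball c r) := fun n => hN _ (by omega)
  have hu : TendstoUniformlyOn G g atTop (ball c r) := fun u hu => (tendsto_add_atTop_nat N).eventually (h u hu)
  have hcs : UniformCauchySeqOn (fun n => fderiv ℂ (G n)) atTop (ball c (r / 2)) := by
    rw [Metric.uniformCauchySeqOn_iff]
    intro ε hε
    obtain ⟨M, hM⟩ := Metric.uniformCauchySeqOn_iff.1 hu.uniformCauchySeqOn (ε * r / 16) (by positivity)
    refine ⟨M, fun m hm n hn x hx => ?_⟩
    have hxc : dist x c < r / 2 := hx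
    have hsub : ball x (r / 2) ⊆ ball c r := ball_subset_ball' (by linarith)
    have hxr : x ∈ ball c r := hsub (mem_ball_self (half_pos hr))
    have hdm : DifferentiableAt ℂ (G m) x := (hd m).differentiableAt (isOpen_ball.mem_nhds hxr)
    have hdn : DifferentiableAt ℂ (G n) x := (hd n).differentiableAt (isOpen_ball.mem_nhds hxr)
    have h1 := Complex.norm_fderiv_le_div_of_mapsTo_ball (f := fun y => G m y - G n y) (c := x) (R₁ := r / 2)
      (R₂ := ε * r / 8) (((hd m).sub (hd n)).mono hsub) (by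
        intro y hy
        rw [mem_closedBall, dist_eq_norm]
        have h2 := hM m hm n hn y (hsub hy)
        have h3 := hM m hm n hn x hxr
        rw [dist_eq_norm] at h2 h3
        have h4 := norm_sub_le (G m y - G n y) (G m x - G n x)
        linarith) (half_pos hr)
    have h5 : fderiv ℂ (fun y => G m y - G n y) x = fderiv ℂ (G m) x - fderiv ℂ (G n) x := fderiv_fun_sub hdm hdn
    rw [dist_eq_norm, ← h5]
    refine h1.trans_lt ?_
    have h6 : ε * r / 8 / (r / 2) = ε / 4 := by
      field_simp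
      ring
    rw [h6]
    linarith
  have hlim : ∀ x : E, ∃ l : E →L[ℂ] F, x ∈ ball c (r / 2) → Tendsto (fun n => fderiv ℂ (G n) x) atTop (𝓝 l) := by
    intro x
    by_cases hx : x ∈ ball c (r / 2)
    · obtain ⟨l, hl⟩ := cauchySeq_tendsto_of_complete (hcs.cauchySeq hx)
      exact ⟨l, fun _ => hl⟩
    · exact ⟨0, fun h => absurd h hx⟩
  choose g' hg' using hlim
  have hu' : TendstoUniformlyOn (fun n => fderiv ℂ (G n)) g' atTop (ball c (r / 2)) :=
    hcs.tendstoUniformlyOn_of_tendsto (fun x hx => hg' x hx)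
  have hsub : ball c (r / 2) ⊆ ball c r := ball_subset_ball (by linarith)
  exact (hasFDerivAt_of_tendstoUniformlyOn isOpen_ball hu'
    (fun n x hx => ((hd n).differentiableAt (isOpen_ball.mem_nhds (hsub hx))).hasFDerivAt)
    (fun x hx => hu.tendsto_at (hsub hx)) (mem_ball_self (half_pos hr))).differentiableAt

theorem hol_of_limit {E : Type*} [NormedAddCommGroup E] [NormedSpace ℂ E] [ProperSpace E] {X : Type*} [MetricSpace X]
    [ChartedSpace E X] [IsManifold 𝓘(ℂ, E) 1 X] {P : ℕ → X → X} {Φ : X → X} (hP : ∀ n, Hol E (P n))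
    (h : TendstoLocallyUniformly P Φ atTop) : Hol E Φ := by
  have : LocallyCompactSpace X := ChartedSpace.locallyCompactSpace E X
  have hPc : ∀ n, Continuous (P n) := fun n => (hP n).continuous
  have hc : Continuous Φ := h.continuous (Frequently.of_forall hPc)
  intro x
  refine mdiffAt_of_chart hc.continuousAt ?_
  set φ := chartAt E x with hφ
  set ψ := chartAt E (Φ x) with hψ
  have hxs : x ∈ φ.source := mem_chart_source E x
  have hys : Φ x ∈ ψ.source := mem_chart_source E (Φ x)
  obtain ⟨C, hC, hCs, hCc⟩ := local_compact_nhds (ψ.open_source.mem_nhds hys)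
  obtain ⟨δ, hδ, hδC⟩ := Metric.mem_nhds_iff.1 hC
  have hU : φ.source ∩ Φ ⁻¹' (ball (Φ x) (δ / 2)) ∈ 𝓝 x :=
    inter_mem (φ.open_source.mem_nhds hxs) (hc.continuousAt (ball_mem_nhds _ (half_pos hδ)))
  obtain ⟨D, hD, hDs, hDc⟩ := local_compact_nhds hU
  have huD : TendstoUniformlyOn P Φ atTop D :=
    (tendstoLocallyUniformly_iff_forall_isCompact.1 h) D hDc
  rw [Metric.tendstoUniformlyOn_iff] at huD
  have hunif : UniformContinuousOn ψ C := hCc.uniformContinuousOn_of_continuous (ψ.continuousOn.mono hCs)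
  rw [Metric.uniformContinuousOn_iff] at hunif
  -- ball in the chart
  have hsymm : φ.symm ⁻¹' D ∈ 𝓝 (φ x) := by
    apply φ.continuousAt_symm (φ.map_source hxs)
    rw [φ.left_inv hxs]
    exact hD
  obtain ⟨r, hr, hrD⟩ := Metric.mem_nhds_iff.1 (inter_mem (φ.open_target.mem_nhds (φ.map_source hxs)) hsymm)
  have hPC : ∀ᶠ n in atTop, ∀ y ∈ D, P n y ∈ C := by
    filter_upwards [huD (δ / 2) (half_pos hδ)] with n hn y hy
    apply hδC
    have h1 := hn y hy
    have h2 : dist (Φ y) (Φ x) < δ / 2 := (hDs hy).2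
    have h3 := dist_triangle (P n y) (Φ y) (Φ x)
    rw [dist_comm (P n y) (Φ y)] at h3
    rw [mem_ball]
    linarith
  have hΦC : ∀ y ∈ D, Φ y ∈ C := by
    intro y hy
    apply hδC
    have h2 : dist (Φ y) (Φ x) < δ / 2 := (hDs hy).2
    rw [mem_ball]
    linarith
  refine differentiableAt_of_limit (f := fun n u => ψ (P n (φ.symm u))) hr ?_ ?_
  · filter_upwards [hPC] with n hn
    exact diffOn_chart (hP n) x (Φ x) (fun u hu => (hrD hu).1) (fun u hu => hCs (hn _ (hrD hu).2))
  · rw [Metric.tendstoUniformlyOn_iff]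
    intro ε hε
    obtain ⟨δ', hδ', h1⟩ := hunif ε hε
    filter_upwards [hPC, huD δ' hδ'] with n hn hn' u hu
    exact h1 _ (hΦC _ (hrD hu).2) _ (hn _ (hrD hu).2) (hn' _ (hrD hu).2)

end Pool.Agent.Lib.MP_c05f88_an
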