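import Pool.Agent.Lib.MP_c05f88_an.Lim

/-!
# Injectivity and values of the limit (job LimInj)

`drift_limit`: for `x ∈ L k`, `(P k)⁻¹` is continuous and `P m x → Φ x` (`m → ∞`, from `hΦ`), so `drift` gives `dist ((P k)⁻¹ (Φ x)) x ≤ 2 * η k`.

`limit_injective`: if `Φ x = Φ y` then for all large `k` (with `x, y ∈ L k`) `dist x y ≤ 4 * η k ≤ 4 * (1/2)^k → 0`.

`limit_val`: `e` is surjective, `z = e i`; `P m z = f z` for `m ≥ i` (`val`), so the limit is `f z`.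

`limit_range`: if `Φ x = z ∈ Z` then `(P k)⁻¹ z ∈ Z` (`img`) and `dist ((P k)⁻¹ z) x ≤ 2 * η k → 0`, so `x ∈ closure Z = Z`; as `Z` is discrete,
`(P k)⁻¹ z = x` for large `k`... (not even needed:) `x ∈ Z` and `limit_val` give `z = Φ x = f x`.
-/

namespace Pool.Agent.Lib.MP_c05f88_an

open Set Filter Topology

variable {X : Type*} [MetricSpace X] {G : Subgroup (X ≃ₜ X)} {Z : Set X} {L : ℕ → Set X} {e : ℕ → Z} {f : Z → Z}
  {P : ℕ → X ≃ₜ X} {η : ℕ → ℝ} {Φ : X → X}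

private theorem LimInj_mem (hLU : ⋃ k, L k = univ) (x : X) : ∃ j, x ∈ L j := by
  have : x ∈ ⋃ k, L k := hLU ▸ mem_univ x
  exact mem_iUnion.1 this

private theorem LimInj_pow : Tendsto (fun m : ℕ => 2 * (1 / 2 : ℝ) ^ m) atTop (𝓝 0) := by
  have h1 : Tendsto (fun m : ℕ => 2 * (1 / 2 : ℝ) ^ m) atTop (𝓝 (2 * 0)) :=
    (tendsto_pow_atTop_nhds_zero_of_lt_one (by norm_num) (by norm_num)).const_mul 2
  rwa [mul_zero] at h1

private theorem LimInj_tendsto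
    (hΦ : ∀ k, ∀ x ∈ L k, ∀ m, k ≤ m → dist (P m x) (Φ x) ≤ 2 * (1 / 2) ^ m) {k : ℕ} {x : X} (hx : x ∈ L k) :
    Tendsto (fun m => P m x) atTop (𝓝 (Φ x)) := by
  rw [tendsto_iff_dist_tendsto_zero]
  refine squeeze_zero' (Eventually.of_forall fun m => dist_nonneg) ?_ LimInj_pow
  filter_upwards [eventually_ge_atTop k] with m hm
  exact hΦ k x hx m hm

theorem drift_limit (hS : Seq G Z L e f P η) (hLi : ∀ k, L k ⊆ interior (L (k + 1)))
    (hΦ : ∀ k, ∀ x ∈ L k, ∀ m, k ≤ m → dist (P m x) (Φ x) ≤ 2 * (1 / 2) ^ m) {k : ℕ} {x : X} (hx : x ∈ L k) :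
    dist ((P k).symm (Φ x)) x ≤ 2 * η k := by
  have h1 : Tendsto (fun m => dist ((P k).symm (P m x)) x) atTop (𝓝 (dist ((P k).symm (Φ x)) x)) :=
    (((P k).symm.continuous.tendsto (Φ x)).comp (LimInj_tendsto hΦ hx)).dist tendsto_const_nhds
  refine le_of_tendsto h1 ?_
  filter_upwards [eventually_ge_atTop k] with m hm
  exact (drift hS hLi hm hx).le

private theorem LimInj_zero (hS : Seq G Z L e f P η) (hLi : ∀ k, L k ⊆ interior (L (k + 1))) (hLU : ⋃ k, L k = univ)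
    (hΦ : ∀ k, ∀ x ∈ L k, ∀ m, k ≤ m → dist (P m x) (Φ x) ≤ 2 * (1 / 2) ^ m) (x : X) :
    Tendsto (fun k => (P k).symm (Φ x)) atTop (𝓝 x) := by
  obtain ⟨j, hj⟩ := LimInj_mem hLU x
  rw [tendsto_iff_dist_tendsto_zero]
  refine squeeze_zero' (Eventually.of_forall fun m => dist_nonneg) ?_ LimInj_pow
  filter_upwards [eventually_ge_atTop j] with k hk
  exact (drift_limit hS hLi hΦ (Lmono hLi hk hj)).trans
    (mul_le_mul_of_nonneg_left (hS.small k) (by norm_num))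

theorem limit_injective (hS : Seq G Z L e f P η) (hLi : ∀ k, L k ⊆ interior (L (k + 1))) (hLU : ⋃ k, L k = univ)
    (hΦ : ∀ k, ∀ x ∈ L k, ∀ m, k ≤ m → dist (P m x) (Φ x) ≤ 2 * (1 / 2) ^ m) : Function.Injective Φ := by
  intro x y hxy
  have h1 := LimInj_zero hS hLi hLU hΦ x
  have h2 := LimInj_zero hS hLi hLU hΦ y
  rw [hxy] at h1
  exact tendsto_nhds_unique h1 h2

theorem limit_val (hS : Seq G Z L e f P η) (hLi : ∀ k, L k ⊆ interior (L (k + 1))) (hLU : ⋃ k, L k = univ)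
    (hΦ : ∀ k, ∀ x ∈ L k, ∀ m, k ≤ m → dist (P m x) (Φ x) ≤ 2 * (1 / 2) ^ m) (he : Function.Surjective e) (z : Z) :
    Φ z = f z := by
  obtain ⟨i, rfl⟩ := he z
  obtain ⟨j, hj⟩ := LimInj_mem hLU (e i : X)
  have h1 := LimInj_tendsto hΦ hj
  have h2 : Tendsto (fun m => P m (e i : X)) atTop (𝓝 (f (e i) : X)) := by
    refine tendsto_const_nhds.congr' ?_
    filter_upwards [eventually_ge_atTop i] with m hm
    exact (hS.val m i hm).symm
  exact tendsto_nhds_unique h1 h2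

theorem limit_range (hS : Seq G Z L e f P η) (hLi : ∀ k, L k ⊆ interior (L (k + 1))) (hLU : ⋃ k, L k = univ)
    (hΦ : ∀ k, ∀ x ∈ L k, ∀ m, k ≤ m → dist (P m x) (Φ x) ≤ 2 * (1 / 2) ^ m) (he : Function.Surjective e) (hZ : IsClosed Z)
    (z : Z) (hz : (z : X) ∈ range Φ) : z ∈ range f := by
  obtain ⟨x, hx⟩ := hz
  have h1 := LimInj_zero hS hLi hLU hΦ x
  have h2 : x ∈ Z := by
    refine hZ.mem_of_tendsto h1 (Eventually.of_forall fun k => ?_)
    rw [hx]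
    have h3 : (z : X) ∈ P k '' Z := by
      rw [hS.img k]
      exact z.2
    obtain ⟨w, hw, hwz⟩ := h3
    rw [← hwz, (P k).symm_apply_apply]
    exact hw
  refine ⟨⟨x, h2⟩, ?_⟩
  have h3 := limit_val hS hLi hLU hΦ he ⟨x, h2⟩
  exact Subtype.ext (h3.symm.trans hx)

end Pool.Agent.Lib.MP_c05f88_an
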