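import Pool.Agent.Lib.MP_c05f88_an.Cover
import Pool.Agent.Lib.MP_c05f88_an.Baire

/-!
# Uniform local realisation of permutations (job LocE)

For each permutation `σ` of `Z` choose `F σ ∈ G` with `F σ = σ` on `Z` (`PermBy`). With `W` from `exists_countable_cover` let
`C j = {σ | F σ ∈ W j}` and apply `exists_dense_class`: `j`, `σ₀`, `A₀`. Let `A = A₀ ∪ σ₀⁻¹(A₀)` (`A₀ ∪ A₀.image σ₀.symm`). Let `π` fix `A` pointwise and let `B` be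
finite. Choose `τ₁ ∈ C j` with `τ₁ = σ₀` on `A₀ ∪ σ₀⁻¹(A₀)` (the class applied to `σ = σ₀`). Then `τ₁⁻¹ = σ₀⁻¹` on `A₀` (for `a ∈ A₀`, `c = σ₀⁻¹ a` is in
`σ₀⁻¹(A₀)` so `τ₁ c = σ₀ c = a`). The permutation `σ = τ₁ * π` satisfies `σ a = τ₁ a = σ₀ a` and `σ⁻¹ a = π⁻¹ (τ₁⁻¹ a) = π⁻¹ (σ₀⁻¹ a) = σ₀⁻¹ a` for `a ∈ A₀`. So there is
`τ₂ ∈ C j` with `τ₂ = τ₁ * π` on `B`. Put `H = (F τ₁)⁻¹ * F τ₂ ∈ G`. On `Z` it is `τ₁⁻¹ τ₂`, so `H '' Z = Z` and `H = π` on `B`. As `F τ₁, F τ₂ ∈ W j`,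
`H` and `H⁻¹ = (F τ₂)⁻¹ * F τ₁` are `ε`-close to the identity on `K`.
-/

namespace Pool.Agent.Lib.MP_c05f88_an

open Set Filter Topology

theorem exists_loc {X : Type*} [MetricSpace X] [LocallyCompactSpace X] [SecondCountableTopology X] (G : Subgroup (X ≃ₜ X)) {Z : Set X}
    (hc : Z.Countable) (hZ : PermBy G Z) {K : Set X} (hK : IsCompact K) {ε : ℝ} (hε : 0 < ε) : ∃ A : Finset Z, Loc G Z K ε A := by
  classical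
  haveI : Countable Z := hc.to_subtype
  choose F hFG hF using hZ
  obtain ⟨W, hW1, hW2⟩ := exists_countable_cover hK hε
  obtain ⟨j, σ₀, A₀, hA⟩ := exists_dense_class (fun j => {σ : Equiv.Perm Z | F σ ∈ W j}) (fun σ => hW1 (F σ))
  refine ⟨A₀ ∪ A₀.image σ₀.symm, ?_⟩
  intro π hπ B
  obtain ⟨τ₁, hτ₁, hτ₁'⟩ := hA σ₀ (fun a _ => ⟨rfl, rfl⟩) (A₀ ∪ A₀.image σ₀.symm)
  have hsymm : ∀ a ∈ A₀, τ₁.symm a = σ₀.symm a := by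
    intro a ha
    rw [Equiv.symm_apply_eq, hτ₁' (σ₀.symm a) (Finset.mem_union_right _ (Finset.mem_image_of_mem _ ha)), Equiv.apply_symm_apply]
  obtain ⟨τ₂, hτ₂, hτ₂'⟩ := hA (τ₁ * π) (by
    intro a ha
    refine ⟨?_, ?_⟩
    · rw [Equiv.Perm.mul_apply, hπ a (Finset.mem_union_left _ ha), hτ₁' a (Finset.mem_union_left _ ha)]
    · rw [Equiv.symm_apply_eq, Equiv.Perm.mul_apply,
        hπ (σ₀.symm a) (Finset.mem_union_right _ (Finset.mem_image_of_mem _ ha)), ← hsymm a ha, Equiv.apply_symm_apply]) B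
  have hval : ∀ z : Z, (F τ₁).symm (F τ₂ z) = (τ₁.symm (τ₂ z) : Z) := by
    intro z
    rw [hF τ₂ z, Homeomorph.symm_apply_eq, hF τ₁ (τ₁.symm (τ₂ z)), Equiv.apply_symm_apply]
  refine ⟨(F τ₁)⁻¹ * F τ₂, G.mul_mem (G.inv_mem (hFG τ₁)) (hFG τ₂), ?_, ?_, ?_, ?_⟩
  · ext x
    constructor
    · rintro ⟨z, hz, rfl⟩
      have h1 : ((F τ₁)⁻¹ * F τ₂) z = (τ₁.symm (τ₂ ⟨z, hz⟩) : Z) := hval ⟨z, hz⟩
      rw [h1]
      exact Subtype.coe_prop _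
    · intro hx
      refine ⟨(τ₂.symm (τ₁ ⟨x, hx⟩) : Z), Subtype.coe_prop _, ?_⟩
      have h1 : ((F τ₁)⁻¹ * F τ₂) ((τ₂.symm (τ₁ ⟨x, hx⟩) : Z) : X) = (τ₁.symm (τ₂ (τ₂.symm (τ₁ ⟨x, hx⟩))) : Z) :=
        hval (τ₂.symm (τ₁ ⟨x, hx⟩))
      rw [h1, Equiv.apply_symm_apply, Equiv.symm_apply_apply]
  · intro b hb
    have h1 : ((F τ₁)⁻¹ * F τ₂) (b : X) = (τ₁.symm (τ₂ b) : Z) := hval b
    rw [h1, hτ₂' b hb, Equiv.Perm.mul_apply, Equiv.symm_apply_apply]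
  · intro x hx
    exact hW2 j (F τ₁) hτ₁ (F τ₂) hτ₂ x hx
  · intro x hx
    exact hW2 j (F τ₂) hτ₂ (F τ₁) hτ₁ x hx

end Pool.Agent.Lib.MP_c05f88_an
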