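import Pool.Agent.Lib.MP_c05f88_an.Abs
import Pool.Agent.Lib.MP_c05f88_an.EquiG
import Pool.Agent.Lib.MP_c05f88_an.LimHol

/-!
# Assembly: permutable sets of complex manifolds
-/

namespace Pool.Agent.Lib.MP_c05f88_an

open Set Filter Topology Manifold

section Metric

variable {E : Type*} [NormedAddCommGroup E] [NormedSpace ℂ E] [ProperSpace E] {X : Type*} [MetricSpace X]
  [LocallyCompactSpace X] [SecondCountableTopology X] [ChartedSpace E X] [IsManifold 𝓘(ℂ, E) 1 X] {Z : Set X}

theorem hol_continuous {F : X → X} (h : Hol E F) : Continuous F := MDifferentiable.continuous h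

/-- an automorphism as a homeomorphism -/
def toHomeo (F : X ≃ X) (h : IsAut E F) : X ≃ₜ X where
  toEquiv := F
  continuous_toFun := hol_continuous h.1
  continuous_invFun := hol_continuous h.2

theorem toHomeo_mem (F : X ≃ X) (h : IsAut E F) : toHomeo F h ∈ AutG E X := mem_AutG.2 ⟨h.1, h.2⟩

theorem permBy_of_permutable (hZ : Permutable E Z) : PermBy (AutG E X) Z := by
  intro σ
  obtain ⟨F, hF, h⟩ := hZ σ
  exact ⟨toHomeo F hF, toHomeo_mem F hF, h⟩

theorem isAut_of_mem {F : X ≃ₜ X} (h : F ∈ AutG E X) : IsAut E F.toEquiv := mem_AutG.1 h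

theorem closed_discrete_metric (hZ : Permutable E Z) {A : Set X} (hA : A ⊆ Z) : IsClosed A ∧ DiscreteTopology A :=
  closed_discrete (G := AutG E X) equi_hol (permBy_mono (permBy_of_permutable hZ) hA)

theorem injection_metric (hinf : Z.Infinite) (hZ : Permutable E Z) {f : Z → Z} (hf : Function.Injective f) :
    ∃ Φ : C(X, X), Hol E Φ ∧ IsOpenEmbedding Φ ∧ (∀ z : Z, Φ z = f z) ∧ (∀ z : Z, (z : X) ∈ range Φ → z ∈ range f) ∧
      ∃ P : ℕ → C(X, X), (∀ k, ∃ F : X ≃ X, IsAut E F ∧ F '' Z = Z ∧ ⇑(P k) = ⇑F) ∧ Tendsto P atTop (𝓝 Φ) := by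
  obtain ⟨Φ, P, hP, hlim, hc, hinj, hop, hval, hran⟩ :=
    exists_limit_map (G := AutG E X) equi_hol hinf (permBy_of_permutable hZ) hf
  have hhol : Hol E Φ := hol_of_limit (P := fun m x => P m x) (fun n => (mem_AutG.1 (hP n).1).1) hlim
  refine ⟨⟨Φ, hc⟩, hhol, IsOpenEmbedding.of_continuous_injective_isOpenMap hc hinj hop, hval, hran,
    fun k => ⟨P k, (P k).continuous⟩, fun k => ⟨(P k).toEquiv, isAut_of_mem (hP k).1, (hP k).2, rfl⟩, ?_⟩
  rw [ContinuousMap.tendsto_iff_tendstoLocallyUniformly]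
  exact hlim

end Metric

section General

variable {E : Type*} [NormedAddCommGroup E] [NormedSpace ℂ E] [FiniteDimensional ℂ E] {X : Type*} [TopologicalSpace X]
  [T2Space X] [SecondCountableTopology X] [ChartedSpace E X] [IsManifold 𝓘(ℂ, E) 1 X] {Z : Set X}

theorem closed_discrete_general (hZ : Permutable E Z) {A : Set X} (hA : A ⊆ Z) : IsClosed A ∧ DiscreteTopology A := by
  have : ProperSpace E := FiniteDimensional.proper ℂ E
  have : LocallyCompactSpace X := ChartedSpace.locallyCompactSpace E X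
  let _ : MetricSpace X := TopologicalSpace.metrizableSpaceMetric X
  exact closed_discrete_metric hZ hA

theorem injection_general (hinf : Z.Infinite) (hZ : Permutable E Z) {f : Z → Z} (hf : Function.Injective f) :
    ∃ Φ : C(X, X), Hol E Φ ∧ IsOpenEmbedding Φ ∧ (∀ z : Z, Φ z = f z) ∧ (∀ z : Z, (z : X) ∈ range Φ → z ∈ range f) ∧
      ∃ P : ℕ → C(X, X), (∀ k, ∃ F : X ≃ X, IsAut E F ∧ F '' Z = Z ∧ ⇑(P k) = ⇑F) ∧ Tendsto P atTop (𝓝 Φ) := by
  have : ProperSpace E := FiniteDimensional.proper ℂ E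
  have : LocallyCompactSpace X := ChartedSpace.locallyCompactSpace E X
  let _ : MetricSpace X := TopologicalSpace.metrizableSpaceMetric X
  exact injection_metric hinf hZ hf

theorem countable_general (hZ : Permutable E Z) : Z.Countable := by
  have := (closed_discrete_general hZ Subset.rfl).2
  exact Set.countable_coe_iff.1 (TopologicalSpace.separableSpace_iff_countable.1 inferInstance)

theorem coinfinite_general (hZ : Permutable E Z) {A : Set X} (hA : A ⊆ Z) (hAi : A.Infinite) (hc : (Z \ A).Infinite) : Tame E A := by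
  obtain ⟨h3, h4⟩ := closed_discrete_general hZ hA
  refine ⟨hAi, h3, h4, fun f hf => ?_⟩
  obtain ⟨σ, hσ⟩ := perm_of_coinfinite (countable_general hZ) hA hc f hf
  obtain ⟨F, hF, hFσ⟩ := hZ σ
  exact ⟨F, hF, fun a => by rw [← hσ a, ← hFσ]⟩

end General

end Pool.Agent.Lib.MP_c05f88_an
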