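import Pool.Agent.Lib.MP_c05f88_an.Analytic
import Pool.Agent.Lib.MP_c05f88_an.Holo

/-!
# Bijections which fix finitely many points are induced by automorphisms near the identity
-/

set_option autoImplicit false

namespace Pool.Agent.Lib.MP_c05f88_an

open Set Filter Topology Metric MeasureTheory TopologicalSpace

variable {E : Type*} [NormedAddCommGroup E] [NormedSpace ℂ E]

/-- Every bijection of `Z` is the restriction of a holomorphic automorphism of `E`. -/
def AutPerm (Z : Set E) : Prop :=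
  ∀ f : Z ≃ Z, ∃ F : E ≃ E, Differentiable ℂ F ∧ Differentiable ℂ F.symm ∧ ∀ z : Z, F z = f z

/-- Automorphisms (with their inverses) which preserve `Z`. -/
def GZ (Z : Set E) : Set (C(E, E) × C(E, E)) :=
  {p | (∀ x, p.1 (p.2 x) = x) ∧ (∀ x, p.2 (p.1 x) = x) ∧ Differentiable ℂ p.1 ∧ Differentiable ℂ p.2 ∧
    (∀ z ∈ Z, p.1 z ∈ Z) ∧ (∀ z ∈ Z, p.2 z ∈ Z)}

theorem isClosed_diff [FiniteDimensional ℂ E] : IsClosed {f : C(E, E) | Differentiable ℂ f} := by
  have : ProperSpace E := FiniteDimensional.proper ℂ E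
  have : CompleteSpace E := FiniteDimensional.complete ℂ E
  apply IsSeqClosed.isClosed
  intro f g hf hg
  rw [ContinuousMap.tendsto_iff_forall_isCompact_tendstoUniformlyOn] at hg
  exact differentiable_of_tendsto hf fun R => hg _ (isCompact_closedBall 0 R)

theorem isClosed_GZ [FiniteDimensional ℂ E] {Z : Set E} (hZ : IsClosed Z) : IsClosed (GZ Z) := by
  have : ProperSpace E := FiniteDimensional.proper ℂ E
  have h1 : IsClosed {p : C(E, E) × C(E, E) | ∀ x, p.1 (p.2 x) = x} := by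
    simp only [ofPred_forall]
    exact isClosed_iInter fun x => isClosed_eq (by fun_prop) continuous_const
  have h2 : IsClosed {p : C(E, E) × C(E, E) | ∀ x, p.2 (p.1 x) = x} := by
    simp only [ofPred_forall]
    exact isClosed_iInter fun x => isClosed_eq (by fun_prop) continuous_const
  have h3 : IsClosed {p : C(E, E) × C(E, E) | Differentiable ℂ p.1} :=
    isClosed_diff.preimage continuous_fst
  have h4 : IsClosed {p : C(E, E) × C(E, E) | Differentiable ℂ p.2} :=
    isClosed_diff.preimage continuous_snd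
  have h5 : IsClosed {p : C(E, E) × C(E, E) | ∀ z ∈ Z, p.1 z ∈ Z} := by
    simp only [ofPred_forall]
    exact isClosed_iInter fun x => isClosed_iInter fun _ => hZ.preimage (by fun_prop)
  have h6 : IsClosed {p : C(E, E) × C(E, E) | ∀ z ∈ Z, p.2 z ∈ Z} := by
    simp only [ofPred_forall]
    exact isClosed_iInter fun x => isClosed_iInter fun _ => hZ.preimage (by fun_prop)
  exact h1.inter (h2.inter (h3.inter (h4.inter (h5.inter h6))))

/-- Permutations of `ℕ` with their inverses, as a subspace of a product. -/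
abbrev HN : Type := {q : (ℕ → ℕ) × (ℕ → ℕ) // (∀ n, q.1 (q.2 n) = n) ∧ ∀ n, q.2 (q.1 n) = n}

theorem cont_app {T : Type*} [TopologicalSpace T] {f : T → ℕ → ℕ} {g : T → ℕ} (hf : Continuous f)
    (hg : Continuous g) : Continuous fun t => f t (g t) := by
  rw [continuous_iff_continuousAt]
  intro t
  have h1 : ∀ᶠ s in 𝓝 t, g s = g t :=
    hg.continuousAt.eventually (show ∀ᶠ m in 𝓝 (g t), m = g t by rw [nhds_discrete]; simp)
  have h2 : ContinuousAt (fun s => f s (g t)) t := ((continuous_apply (g t)).comp hf).continuousAt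
  refine h2.congr ?_
  filter_upwards [h1] with s hs
  rw [hs]

instance : PolishSpace HN := by
  apply IsClosed.polishSpace
  have h1 : IsClosed {q : (ℕ → ℕ) × (ℕ → ℕ) | ∀ n, q.1 (q.2 n) = n} := by
    simp only [ofPred_forall]
    exact isClosed_iInter fun n => isClosed_eq
      (cont_app continuous_fst ((continuous_apply n).comp continuous_snd)) continuous_const
  have h2 : IsClosed {q : (ℕ → ℕ) × (ℕ → ℕ) | ∀ n, q.2 (q.1 n) = n} := by
    simp only [ofPred_forall]
    exact isClosed_iInter fun n => isClosed_eq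
      (cont_app continuous_snd ((continuous_apply n).comp continuous_fst)) continuous_const
  exact h1.inter h2

/-- Right multiplication by a permutation. -/
def RM (σ : Equiv.Perm ℕ) : HN ≃ₜ HN where
  toFun q := ⟨(fun n => q.1.1 (σ n), fun n => σ.symm (q.1.2 n)), fun n => by simp [q.2.1],
    fun n => by simp [q.2.2]⟩
  invFun q := ⟨(fun n => q.1.1 (σ.symm n), fun n => σ (q.1.2 n)), fun n => by simp [q.2.1],
    fun n => by simp [q.2.2]⟩
  left_inv q := by
    apply Subtype.ext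
    simp
  right_inv q := by
    apply Subtype.ext
    simp
  continuous_toFun := by
    refine Continuous.subtype_mk (Continuous.prodMk ?_ ?_) _
    · exact continuous_pi fun n => (continuous_apply (σ n)).comp (continuous_fst.comp continuous_subtype_val)
    · exact continuous_pi fun n => (continuous_of_discreteTopology (f := σ.symm)).comp
        ((continuous_apply n).comp (continuous_snd.comp continuous_subtype_val))
  continuous_invFun := by
    refine Continuous.subtype_mk (Continuous.prodMk ?_ ?_) _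
    · exact continuous_pi fun n =>
        (continuous_apply (σ.symm n)).comp (continuous_fst.comp continuous_subtype_val)
    · exact continuous_pi fun n => (continuous_of_discreteTopology (f := σ)).comp
        ((continuous_apply n).comp (continuous_snd.comp continuous_subtype_val))

/-- Basic neighbourhoods in the space of permutations. -/
theorem HN_nhds (q : HN) {O : Set HN} (hO : O ∈ 𝓝 q) : ∃ N : ℕ, ∀ q' : HN,
    (∀ i < N, q'.1.1 i = q.1.1 i) → (∀ i < N, q'.1.2 i = q.1.2 i) → q' ∈ O := by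
  rw [nhds_subtype_eq_comap, Filter.mem_comap] at hO
  obtain ⟨U, hU, hUO⟩ := hO
  rw [nhds_prod_eq, Filter.mem_prod_iff] at hU
  obtain ⟨U1, hU1, U2, hU2, hsub⟩ := hU
  obtain ⟨k1, hk1⟩ := nhds_cyl _ hU1
  obtain ⟨k2, hk2⟩ := nhds_cyl _ hU2
  refine ⟨max k1 k2, fun q' h1 h2 => hUO ?_⟩
  apply hsub
  have hpre : ∀ (x y : ℕ → ℕ) (k : ℕ), (∀ i < k, x i = y i) → pre x k = pre y k := by
    intro x y k h
    apply List.map_congr_left
    intro i hi
    exact h i (List.mem_range.mp hi)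
  constructor
  · apply hk1
    show pre q'.1.1 (pre q.1.1 k1).length = pre q.1.1 k1
    rw [pre_length]
    exact hpre _ _ _ fun i hi => h1 i (hi.trans_le (le_max_left _ _))
  · apply hk2
    show pre q'.1.2 (pre q.1.2 k2).length = pre q.1.2 k2
    rw [pre_length]
    exact hpre _ _ _ fun i hi => h2 i (hi.trans_le (le_max_right _ _))

section

variable {Z : Set E}

/-- The permutation of `ℕ` induced by an automorphism. -/
def rho (e : Z ≃ ℕ) (p : GZ Z) : HN :=
  ⟨(fun n => e ⟨p.1.1 (e.symm n), p.2.2.2.2.2.1 _ (e.symm n).2⟩,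
    fun n => e ⟨p.1.2 (e.symm n), p.2.2.2.2.2.2 _ (e.symm n).2⟩), by
    constructor
    · intro n
      simp [p.2.1]
    · intro n
      simp [p.2.2.1]⟩

theorem continuous_rho [DiscreteTopology Z] (e : Z ≃ ℕ) : Continuous (rho e) := by
  refine Continuous.subtype_mk (Continuous.prodMk ?_ ?_) _
  · refine continuous_pi fun n => (continuous_of_discreteTopology (f := e)).comp ?_
    refine Continuous.subtype_mk ?_ _
    fun_prop
  · refine continuous_pi fun n => (continuous_of_discreteTopology (f := e)).comp ?_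
    refine Continuous.subtype_mk ?_ _
    fun_prop

/-- Automorphisms near the identity on the ball of radius `R`. -/
def VN (Z : Set E) (R ε : ℝ) : Set (GZ Z) :=
  {p | (∀ x, ‖x‖ ≤ R → ‖p.1.1 x - x‖ < ε) ∧ (∀ x, ‖x‖ ≤ R → ‖p.1.2 x - x‖ < ε)}

theorem isOpen_near [ProperSpace E] (R ε : ℝ) :
    IsOpen {f : C(E, E) | ∀ x, ‖x‖ ≤ R → ‖f x - x‖ < ε} := by
  have h1 : IsOpen {f : C(E, E) | MapsTo f (closedBall (0 : E) R) (ball (0 : E) ε)} :=
    ContinuousMap.isOpen_setOfPred_mapsTo (isCompact_closedBall 0 R) isOpen_ball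
  have h2 : Continuous fun f : C(E, E) => f - ContinuousMap.id E := continuous_id.sub continuous_const
  have h3 := h1.preimage h2
  convert h3 using 1
  ext f
  constructor
  · intro h x hx
    rw [mem_closedBall_zero_iff] at hx
    rw [mem_ball_zero_iff]
    exact h x hx
  · intro h x hx
    have h4 := h (mem_closedBall_zero_iff.mpr hx)
    rw [mem_ball_zero_iff] at h4
    exact h4

theorem isOpen_VN [ProperSpace E] (R ε : ℝ) : IsOpen (VN Z R ε) :=
  ((isOpen_near R ε).preimage (continuous_fst.comp continuous_subtype_val)).inter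
    ((isOpen_near R ε).preimage (continuous_snd.comp continuous_subtype_val))

/-- `F⁻¹ ∘ G`. -/
def quo (F G : GZ Z) : GZ Z :=
  ⟨(F.1.2.comp G.1.1, G.1.2.comp F.1.1), fun x => by simp [G.2.1, F.2.2.1],
    fun x => by simp [F.2.1, G.2.2.1], F.2.2.2.2.1.comp G.2.2.2.1, G.2.2.2.2.1.comp F.2.2.2.1,
    fun z hz => F.2.2.2.2.2.2 _ (G.2.2.2.2.2.1 z hz), fun z hz => G.2.2.2.2.2.2 _ (F.2.2.2.2.2.1 z hz)⟩

theorem continuous_quo (F : GZ Z) : Continuous (quo F) := by
  refine Continuous.subtype_mk (Continuous.prodMk ?_ ?_) _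
  · exact (ContinuousMap.continuous_postcomp F.1.2).comp (continuous_fst.comp continuous_subtype_val)
  · exact (ContinuousMap.continuous_precomp F.1.1).comp (continuous_snd.comp continuous_subtype_val)

theorem quo_self_mem (F : GZ Z) (R : ℝ) {ε : ℝ} (hε : 0 < ε) : quo F F ∈ VN Z R ε := by
  constructor
  · intro x _
    show ‖F.1.2 (F.1.1 x) - x‖ < ε
    rw [F.2.2.1, sub_self, norm_zero]
    exact hε
  · intro x _
    show ‖F.1.2 (F.1.1 x) - x‖ < ε
    rw [F.2.2.1, sub_self, norm_zero]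
    exact hε

/-- Openness: bijections of `Z` which fix a finite set are induced by automorphisms near the
identity. -/
theorem open_property [FiniteDimensional ℂ E] (hcl : IsClosed Z) (hd : DiscreteTopology Z)
    (e : Z ≃ ℕ) (hZ : AutPerm Z) (R ε : ℝ) (hε : 0 < ε) :
    ∃ S : Set Z, S.Finite ∧ ∀ f : Z ≃ Z, (∀ z ∈ S, f z = z) →
      ∃ p ∈ VN Z R ε, ∀ z : Z, p.1.1 z = f z := by
  have : ProperSpace E := FiniteDimensional.proper ℂ E
  have i1 : PolishSpace (GZ Z) := (isClosed_GZ hcl).polishSpace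
  set δ := min (ε / 2) 1 with hδ
  have hδ0 : 0 < δ := lt_min (by linarith) one_pos
  set V := VN Z (R + 1) δ with hV
  -- countably many translates of `V`
  obtain ⟨s, hs, hcov⟩ := TopologicalSpace.countable_cover_nhds (f := fun F : GZ Z => quo F ⁻¹' V)
    (fun F => (continuous_quo F).continuousAt.preimage_mem_nhds
      ((isOpen_VN _ _).mem_nhds (quo_self_mem F _ hδ0)))
  -- surjectivity
  have hsurj : Function.Surjective (rho e) := by
    intro q
    let σ : Equiv.Perm ℕ := ⟨q.1.1, q.1.2, q.2.2, q.2.1⟩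
    obtain ⟨F, hF1, hF2, hF⟩ := hZ ((e.trans σ).trans e.symm)
    have hF' : ∀ z : Z, F.symm z = e.symm (σ.symm (e z)) := by
      intro z
      rw [Equiv.symm_apply_eq, hF]
      simp
    let p : GZ Z := ⟨(⟨F, hF1.continuous⟩, ⟨F.symm, hF2.continuous⟩), fun x => F.apply_symm_apply x,
      fun x => F.symm_apply_apply x, hF1, hF2, fun z hz => by
        show F z ∈ Z
        rw [hF ⟨z, hz⟩]
        exact Subtype.coe_prop _, fun z hz => by
        show F.symm z ∈ Z
        rw [hF' ⟨z, hz⟩]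
        exact Subtype.coe_prop _⟩
    refine ⟨p, ?_⟩
    apply Subtype.ext
    apply Prod.ext
    · funext n
      show e ⟨F (e.symm n), _⟩ = q.1.1 n
      have h1 : (⟨F (e.symm n), p.2.2.2.2.2.1 _ (e.symm n).2⟩ : Z) = e.symm (σ n) := by
        apply Subtype.ext
        show F (e.symm n) = _
        rw [hF]
        simp
      rw [h1]
      simp [σ]
    · funext n
      show e ⟨F.symm (e.symm n), _⟩ = q.1.2 n
      have h1 : (⟨F.symm (e.symm n), p.2.2.2.2.2.2 _ (e.symm n).2⟩ : Z) = e.symm (σ.symm n) := by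
        apply Subtype.ext
        show F.symm (e.symm n) = _
        rw [hF']
        simp
      rw [h1]
      simp [σ]
  -- one translate has nonmeagre image
  have hne : Nonempty HN := ⟨⟨(id, id), fun _ => rfl, fun _ => rfl⟩⟩
  have hcov2 : (univ : Set HN) ⊆ ⋃ F ∈ s, rho e '' (quo F ⁻¹' V) := by
    intro q _
    obtain ⟨p, rfl⟩ := hsurj q
    have h1 : p ∈ ⋃ F ∈ s, quo F ⁻¹' V := by rw [hcov]; exact mem_univ p
    simp only [mem_iUnion] at h1 ⊢
    obtain ⟨F, hF, hp⟩ := h1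
    exact ⟨F, hF, p, hp, rfl⟩
  have hnm : ¬ IsMeagre (⋃ F ∈ s, rho e '' (quo F ⁻¹' V)) := fun h =>
    not_isMeagre_of_isOpen isOpen_univ univ_nonempty (IsMeagre.mono hcov2 h)
  obtain ⟨F, -, hF⟩ := exists_of_not_isMeagre_biUnion hs hnm
  have hopen : IsOpen (quo F ⁻¹' V) := (isOpen_VN _ _).preimage (continuous_quo F)
  obtain ⟨O, hO, ⟨π, hπ⟩, hOm⟩ :=
    residual_of_analytic (hopen.analyticSet_image (continuous_rho e)) hF
  obtain ⟨N, hN⟩ := HN_nhds π (hO.mem_nhds hπ)
  refine ⟨e.symm '' ({i | i < N} ∪ π.1.2 '' {i | i < N}),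
    (((finite_lt_nat N).union ((finite_lt_nat N).image _)).image _), fun f hf => ?_⟩
  let σ : Equiv.Perm ℕ := (e.symm.trans f).trans e
  have hσ : ∀ i, e.symm i ∈ e.symm '' ({i | i < N} ∪ π.1.2 '' {i | i < N}) → σ i = i := by
    intro i hi
    show e (f (e.symm i)) = i
    rw [hf _ hi, e.apply_symm_apply]
  have hπσ : RM σ π ∈ O := by
    apply hN
    · intro i hi
      show π.1.1 (σ i) = π.1.1 i
      rw [hσ i ⟨i, Or.inl hi, rfl⟩]
    · intro i hi
      show σ.symm (π.1.2 i) = π.1.2 i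
      rw [Equiv.symm_apply_eq]
      exact (hσ _ ⟨π.1.2 i, Or.inr ⟨i, hi, rfl⟩, rfl⟩).symm
  have hO'  : IsOpen (O ∩ RM σ ⁻¹' O) := hO.inter (hO.preimage (RM σ).continuous)
  have hnm2 : ¬ IsMeagre (O ∩ RM σ ⁻¹' O) := not_isMeagre_of_isOpen hO' ⟨π, hπ, hπσ⟩
  obtain ⟨q, hq1, hq2⟩ : ∃ q, q ∈ rho e '' (quo F ⁻¹' V) ∧ RM σ q ∈ rho e '' (quo F ⁻¹' V) := by
    by_contra hcon
    push Not at hcon
    apply hnm2
    have h1 : O ∩ RM σ ⁻¹' O ⊆ (O \ rho e '' (quo F ⁻¹' V)) ∪ RM σ ⁻¹' (O \ rho e '' (quo F ⁻¹' V)) := by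
      rintro q ⟨h2, h3⟩
      by_cases h4 : q ∈ rho e '' (quo F ⁻¹' V)
      · exact Or.inr ⟨h3, hcon q h4⟩
      · exact Or.inl ⟨h2, h4⟩
    exact IsMeagre.mono h1 (hOm.union (hOm.preimage_of_isOpenMap (RM σ).continuous (RM σ).isOpenMap))
  obtain ⟨G1, hG1, rfl⟩ := hq1
  obtain ⟨G2, hG2, hG12⟩ := hq2
  refine ⟨quo G1 G2, ⟨fun x hx => ?_, fun x hx => ?_⟩, fun z => ?_⟩
  · -- `G1⁻¹ (G2 x)`
    show ‖G1.1.2 (G2.1.1 x) - x‖ < ε
    have h1 := hG2.1 x (by linarith)
    have h1' : ‖F.1.2 (G2.1.1 x) - x‖ < δ := h1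
    have h3 : ‖F.1.2 (G2.1.1 x)‖ ≤ R + 1 := by
      calc ‖F.1.2 (G2.1.1 x)‖ = ‖(F.1.2 (G2.1.1 x) - x) + x‖ := by rw [sub_add_cancel]
        _ ≤ ‖F.1.2 (G2.1.1 x) - x‖ + ‖x‖ := norm_add_le _ _
        _ ≤ R + 1 := by
          have : δ ≤ 1 := min_le_right _ _
          linarith
    have h2 := hG1.2 _ h3
    have h2' : ‖G1.1.2 (F.1.1 (F.1.2 (G2.1.1 x))) - F.1.2 (G2.1.1 x)‖ < δ := h2
    rw [F.2.1] at h2'
    have h4 : δ ≤ ε / 2 := min_le_left _ _
    calc ‖G1.1.2 (G2.1.1 x) - x‖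
        = ‖(G1.1.2 (G2.1.1 x) - F.1.2 (G2.1.1 x)) + (F.1.2 (G2.1.1 x) - x)‖ := by
          rw [sub_add_sub_cancel]
      _ ≤ ‖G1.1.2 (G2.1.1 x) - F.1.2 (G2.1.1 x)‖ + ‖F.1.2 (G2.1.1 x) - x‖ := norm_add_le _ _
      _ < ε := by linarith
  · -- `G2⁻¹ (G1 x)`
    show ‖G2.1.2 (G1.1.1 x) - x‖ < ε
    have h1 := hG1.1 x (by linarith)
    have h1' : ‖F.1.2 (G1.1.1 x) - x‖ < δ := h1
    have h3 : ‖F.1.2 (G1.1.1 x)‖ ≤ R + 1 := by
      calc ‖F.1.2 (G1.1.1 x)‖ = ‖(F.1.2 (G1.1.1 x) - x) + x‖ := by rw [sub_add_cancel]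
        _ ≤ ‖F.1.2 (G1.1.1 x) - x‖ + ‖x‖ := norm_add_le _ _
        _ ≤ R + 1 := by
          have : δ ≤ 1 := min_le_right _ _
          linarith
    have h2 := hG2.2 _ h3
    have h2' : ‖G2.1.2 (F.1.1 (F.1.2 (G1.1.1 x))) - F.1.2 (G1.1.1 x)‖ < δ := h2
    rw [F.2.1] at h2'
    have h4 : δ ≤ ε / 2 := min_le_left _ _
    calc ‖G2.1.2 (G1.1.1 x) - x‖
        = ‖(G2.1.2 (G1.1.1 x) - F.1.2 (G1.1.1 x)) + (F.1.2 (G1.1.1 x) - x)‖ := by
          rw [sub_add_sub_cancel]
      _ ≤ ‖G2.1.2 (G1.1.1 x) - F.1.2 (G1.1.1 x)‖ + ‖F.1.2 (G1.1.1 x) - x‖ := norm_add_le _ _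
      _ < ε := by linarith
  · show G1.1.2 (G2.1.1 z) = f z
    -- `rho G2 = rho G1 ∘ σ`
    have h1 : (rho e G2).1.1 (e z) = (rho e G1).1.1 (σ (e z)) := by rw [hG12]; rfl
    have h2 : e ⟨G2.1.1 (e.symm (e z)), G2.2.2.2.2.2.1 _ (e.symm (e z)).2⟩ =
      e ⟨G1.1.1 (e.symm (σ (e z))), G1.2.2.2.2.2.1 _ (e.symm (σ (e z))).2⟩ := h1
    have h3 := congrArg (fun z : Z => (z : E)) (e.injective h2)
    have h4 : e.symm (σ (e z)) = f z := by
      show e.symm (e (f (e.symm (e z)))) = f z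
      rw [e.symm_apply_apply, e.symm_apply_apply]
    simp only [Equiv.symm_apply_apply, h4] at h3
    rw [h3, G1.2.2.1]

end

end Pool.Agent.Lib.MP_c05f88_an
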