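import Pool.Agent.Lib.MP_c05f88_an.Open
import Pool.Agent.Lib.MP_c05f88_an.Comm

/-!
# The finite set does not depend on the precision
-/

set_option autoImplicit false

namespace Pool.Agent.Lib.MP_c05f88_an

open Set Filter Topology Metric

variable {E : Type*} [NormedAddCommGroup E] [NormedSpace ℂ E]

theorem near_id' {f : E → E} (hf : Differentiable ℂ f) {R r η : ℝ} (hr : 0 < r)
    (h : ∀ x, ‖x‖ ≤ R + r → ‖f x - x‖ ≤ η) {x y : E} (hx : ‖x‖ ≤ R) (hy : ‖y‖ ≤ R) :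
    ‖(f x - x) - (f y - y)‖ ≤ η / r * ‖x - y‖ := by
  have hd : Differentiable ℂ fun x => f x - x := hf.sub differentiable_id
  have h1 := Convex.norm_image_sub_le_of_norm_fderiv_le (𝕜 := ℂ) (f := fun x => f x - x)
    (s := closedBall (0 : E) R) (C := η / r) (x := y) (y := x) (fun z _ => hd z) (fun z hz => by
      exact norm_fderiv_le (r := r) (M := η) hd (x := z) hr (fun w hw => by
        apply h
        rw [mem_closedBall_zero_iff] at hz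
        calc ‖w‖ = ‖(w - z) + z‖ := by rw [sub_add_cancel]
          _ ≤ ‖w - z‖ + ‖z‖ := norm_add_le _ _
          _ ≤ R + r := by linarith)) (convex_closedBall 0 R) (by simpa using hy) (by simpa using hx)
  exact h1

/-- `f` is `η`-near the identity on the ball of radius `ρ` -/
def Nid (f : E → E) (ρ η : ℝ) : Prop := ∀ x, ‖x‖ ≤ ρ → ‖f x - x‖ ≤ η

omit [NormedSpace ℂ E] in
theorem Nid.norm_le {f : E → E} {ρ η r : ℝ} (h : Nid f ρ η) {x : E} (hr : r ≤ ρ) (hx : ‖x‖ ≤ r) :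
    ‖f x‖ ≤ r + η := by
  have h1 := h x (hx.trans hr)
  calc ‖f x‖ = ‖(f x - x) + x‖ := by rw [sub_add_cancel]
    _ ≤ ‖f x - x‖ + ‖x‖ := norm_add_le _ _
    _ ≤ r + η := by linarith

/-- commutators of maps near the identity are much nearer the identity -/
theorem comm_est {A B A' B' : E → E} (hA : Differentiable ℂ A) (hB : Differentiable ℂ B) {ρ η δ : ℝ}
    (hη : 0 ≤ η) (hδ : 0 < δ) (h6 : 6 * η ≤ δ) (nA : Nid A ρ η) (nB : Nid B ρ η) (nA' : Nid A' ρ η)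
    (nB' : Nid B' ρ η) (iA : ∀ x, A (A' x) = x) (iB : ∀ x, B (B' x) = x) :
    Nid (fun x => A (B (A' (B' x)))) (ρ - δ) (4 * η ^ 2 / δ) := by
  intro x hx
  have h1 : ‖B' x‖ ≤ ρ - δ + η := nB'.norm_le (by linarith) hx
  obtain ⟨y, hy⟩ : ∃ y, A' (B' x) = y := ⟨_, rfl⟩
  have h2 : ‖y‖ ≤ ρ - δ + η + η := by
    rw [← hy]
    exact nA'.norm_le (by linarith) h1
  have h3 : ‖B y‖ ≤ ρ - δ + η + η + η := nB.norm_le (by linarith) h2
  have h4 : ‖A y‖ ≤ ρ - δ + η + η + η := nA.norm_le (by linarith) h2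
  have hx2 : x = B (A y) := by rw [← hy, iA, iB]
  have e1 := near_id' hA (R := ρ - δ / 2) (r := δ / 2) (η := η) (by linarith)
    (fun z hz => nA z (by linarith)) (x := B y) (y := y) (by linarith) (by linarith)
  have e2 := near_id' hB (R := ρ - δ / 2) (r := δ / 2) (η := η) (by linarith)
    (fun z hz => nB z (by linarith)) (x := A y) (y := y) (by linarith) (by linarith)
  have b1 : ‖B y - y‖ ≤ η := nB y (by linarith)
  have b2 : ‖A y - y‖ ≤ η := nA y (by linarith)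
  have hc : 0 ≤ η / (δ / 2) := by positivity
  show ‖A (B (A' (B' x))) - x‖ ≤ _
  have e3 : A (B (A' (B' x))) - x = ((A (B y) - B y) - (A y - y)) - ((B (A y) - A y) - (B y - y)) := by
    rw [hy, hx2]
    abel
  rw [e3]
  calc _ ≤ ‖(A (B y) - B y) - (A y - y)‖ + ‖(B (A y) - A y) - (B y - y)‖ := norm_sub_le _ _
    _ ≤ η / (δ / 2) * η + η / (δ / 2) * η :=
      add_le_add (e1.trans (mul_le_mul_of_nonneg_left b1 hc)) (e2.trans (mul_le_mul_of_nonneg_left b2 hc))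
    _ = _ := by
      field_simp
      ring

section

variable {Z : Set E}

/-- composition -/
def mulG (p q : GZ Z) : GZ Z :=
  ⟨(p.1.1.comp q.1.1, q.1.2.comp p.1.2), fun x => by simp [q.2.1, p.2.1],
    fun x => by simp [q.2.2.1, p.2.2.1], p.2.2.2.1.comp q.2.2.2.1, q.2.2.2.2.1.comp p.2.2.2.2.1,
    fun z hz => p.2.2.2.2.2.1 _ (q.2.2.2.2.2.1 z hz), fun z hz => q.2.2.2.2.2.2 _ (p.2.2.2.2.2.2 z hz)⟩

/-- inverse -/
def invG (p : GZ Z) : GZ Z :=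
  ⟨(p.1.2, p.1.1), p.2.2.1, p.2.1, p.2.2.2.2.1, p.2.2.2.1, p.2.2.2.2.2.2, p.2.2.2.2.2.1⟩

/-- the permutation `f` is induced by `p` -/
def Ind (p : GZ Z) (f : Equiv.Perm Z) : Prop := ∀ z : Z, p.1.1 z = f z

theorem Ind.mul {p q : GZ Z} {f g : Equiv.Perm Z} (hp : Ind p f) (hq : Ind q g) :
    Ind (mulG p q) (f * g) := by
  intro z
  show p.1.1 (q.1.1 z) = f (g z)
  rw [hq z, hp]

theorem Ind.inv {p : GZ Z} {f : Equiv.Perm Z} (hp : Ind p f) : Ind (invG p) f⁻¹ := by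
  intro z
  show p.1.2 z = f.symm z
  have h1 : p.1.1 (f.symm z) = z := by
    rw [hp, Equiv.apply_symm_apply]
  have h2 := p.2.2.1 (f.symm z)
  rw [h1] at h2
  exact h2

/-- both directions near the identity -/
def NN (p : GZ Z) (ρ η : ℝ) : Prop := Nid p.1.1 ρ η ∧ Nid p.1.2 ρ η

theorem NN.comm {p q : GZ Z} {ρ η δ : ℝ} (hη : 0 ≤ η) (hδ : 0 < δ) (h6 : 6 * η ≤ δ) (hp : NN p ρ η)
    (hq : NN q ρ η) : NN (mulG (mulG (mulG p q) (invG p)) (invG q)) (ρ - δ) (4 * η ^ 2 / δ) :=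
  ⟨comm_est (A := p.1.1) (B := q.1.1) (A' := p.1.2) (B' := q.1.2) p.2.2.2.1 q.2.2.2.1 hη hδ h6
      hp.1 hq.1 hp.2 hq.2 p.2.1 q.2.1,
    comm_est (A := q.1.1) (B := p.1.1) (A' := q.1.2) (B' := p.1.2) q.2.2.2.1 p.2.2.2.1 hη hδ h6
      hq.1 hp.1 hq.2 hp.2 q.2.1 p.2.1⟩

omit [NormedSpace ℂ E] in
theorem Nid.comp {f g : E → E} {ρ κ δ : ℝ} (hκ : κ ≤ δ) (hδ : 0 ≤ δ) (hf : Nid f (ρ - δ) κ)
    (hg : Nid g (ρ - δ) κ) : Nid (fun x => f (g x)) (ρ - 2 * δ) (2 * κ) := by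
  intro x hx
  have h1 : ‖g x‖ ≤ ρ - 2 * δ + κ := hg.norm_le (by linarith) hx
  calc ‖f (g x) - x‖ = ‖(f (g x) - g x) + (g x - x)‖ := by rw [sub_add_sub_cancel]
    _ ≤ ‖f (g x) - g x‖ + ‖g x - x‖ := norm_add_le _ _
    _ ≤ κ + κ := add_le_add (hf _ (by linarith)) (hg _ (by linarith))
    _ = 2 * κ := by ring

theorem unif_step [Countable Z] [Infinite Z] {S : Set Z} (hS : S.Finite) {ρ η δ : ℝ} (hη : 0 ≤ η)
    (hδ : 0 < δ) (h6 : 6 * η ≤ δ)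
    (h : ∀ f : Equiv.Perm Z, (∀ z ∈ S, f z = z) → ∃ p : GZ Z, NN p ρ η ∧ Ind p f)
    (f : Equiv.Perm Z) (hf : ∀ z ∈ S, f z = z) :
    ∃ p : GZ Z, NN p (ρ - 2 * δ) (8 * η ^ 2 / δ) ∧ Ind p f := by
  obtain ⟨a, b, c, d, ha, hb, hc, hd, hfe⟩ := two_comm_fix S hS f hf
  obtain ⟨pa, na, ia⟩ := h a ha
  obtain ⟨pb, nb, ib⟩ := h b hb
  obtain ⟨pc, nc, ic⟩ := h c hc
  obtain ⟨pd, nd, id⟩ := h d hd
  have n1 := na.comm hη hδ h6 nb
  have n2 := nc.comm hη hδ h6 nd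
  have hκ : 4 * η ^ 2 / δ ≤ δ := by
    rw [div_le_iff₀ hδ]
    nlinarith
  set P1 := mulG (mulG (mulG pa pb) (invG pa)) (invG pb)
  set P2 := mulG (mulG (mulG pc pd) (invG pc)) (invG pd)
  refine ⟨mulG P1 P2, ?_, ?_⟩
  · have e : 8 * η ^ 2 / δ = 2 * (4 * η ^ 2 / δ) := by ring
    rw [e]
    exact ⟨Nid.comp (f := P1.1.1) (g := P2.1.1) hκ hδ.le n1.1 n2.1,
      Nid.comp (f := P2.1.2) (g := P1.1.2) hκ hδ.le n2.2 n1.2⟩
  · rw [hfe]
    exact (((ia.mul ib).mul ia.inv).mul ib.inv).mul (((ic.mul id).mul ic.inv).mul id.inv)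

theorem unif_iter [Countable Z] [Infinite Z] {S : Set Z} (hS : S.Finite) {R : ℝ}
    (h : ∀ f : Equiv.Perm Z, (∀ z ∈ S, f z = z) → ∃ p : GZ Z, NN p (R + 1) ((1 / 4) ^ 4) ∧ Ind p f)
    (k : ℕ) : ∀ f : Equiv.Perm Z, (∀ z ∈ S, f z = z) →
      ∃ p : GZ Z, NN p (R + (1 / 2) ^ k) ((1 / 4) ^ (k + 4)) ∧ Ind p f := by
  induction k with
  | zero => simpa using h
  | succ k ih =>
    intro f hf
    have hp2 : (0 : ℝ) < (1 / 2) ^ k := by positivity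
    have hp4 : (0 : ℝ) < (1 / 4) ^ k := by positivity
    have h42 : (1 / 4 : ℝ) ^ k = (1 / 2) ^ k * (1 / 2) ^ k := by
      rw [← mul_pow]
      norm_num
    have hle : (1 / 2 : ℝ) ^ k ≤ 1 := pow_le_one₀ (by norm_num) (by norm_num)
    have h3 : (1 / 4 : ℝ) ^ k ≤ (1 / 2) ^ k := by
      rw [h42]
      nlinarith
    obtain ⟨p, hp, hi⟩ := unif_step hS (ρ := R + (1 / 2) ^ k) (η := (1 / 4) ^ (k + 4))
      (δ := (1 / 4) * (1 / 2) ^ k) (by positivity) (by positivity) (by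
        rw [pow_add]
        norm_num
        nlinarith) ih f hf
    have e1 : R + (1 / 2 : ℝ) ^ k - 2 * (1 / 4 * (1 / 2) ^ k) = R + (1 / 2) ^ (k + 1) := by
      rw [pow_succ]
      ring
    have e2 : 8 * ((1 / 4 : ℝ) ^ (k + 4)) ^ 2 / (1 / 4 * (1 / 2) ^ k) ≤ (1 / 4) ^ (k + 1 + 4) := by
      rw [div_le_iff₀ (by positivity)]
      have e3 : ((1 / 4 : ℝ) ^ (k + 4)) ^ 2 = ((1 / 2) ^ k) ^ 4 * (1 / 65536) := by
        rw [pow_add, h42]
        ring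
      have e4 : (1 / 4 : ℝ) ^ (k + 1 + 4) = ((1 / 2) ^ k) ^ 2 * (1 / 1024) := by
        rw [add_assoc, pow_add, h42]
        ring
      rw [e3, e4]
      have e5 : ((1 / 2 : ℝ) ^ k) ^ 4 ≤ ((1 / 2) ^ k) ^ 3 := by
        calc ((1 / 2 : ℝ) ^ k) ^ 4 = ((1 / 2) ^ k) ^ 3 * (1 / 2) ^ k := by ring
          _ ≤ ((1 / 2) ^ k) ^ 3 * 1 := mul_le_mul_of_nonneg_left hle (by positivity)
          _ = _ := mul_one _
      have e6 : (0 : ℝ) < ((1 / 2 : ℝ) ^ k) ^ 3 := by positivity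
      nlinarith
    rw [e1] at hp
    exact ⟨p, ⟨fun x hx => (hp.1 x hx).trans e2, fun x hx => (hp.2 x hx).trans e2⟩, hi⟩

/-- For every radius there is a finite set such that the bijections of `Z` which fix it are induced by
automorphisms arbitrarily near the identity on the ball. -/
theorem unif_open [FiniteDimensional ℂ E] (hinf : Z.Infinite) (hcl : IsClosed Z)
    (hd : DiscreteTopology Z) (hZ : AutPerm Z) (R : ℝ) :
    ∃ S : Set Z, S.Finite ∧ ∀ ε : ℝ, 0 < ε → ∀ f : Z ≃ Z, (∀ z ∈ S, f z = z) →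
      ∃ p ∈ VN Z R ε, ∀ z : Z, p.1.1 z = f z := by
  have : ProperSpace E := FiniteDimensional.proper ℂ E
  have hcount : Countable Z := TopologicalSpace.separableSpace_iff_countable.mp inferInstance
  have : Infinite Z := hinf.to_subtype
  obtain ⟨den⟩ := nonempty_denumerable Z
  obtain ⟨S, hS, h⟩ := open_property hcl hd (Denumerable.eqv Z) hZ (R + 1) ((1 / 4) ^ 4) (by positivity)
  refine ⟨S, hS, fun ε hε f hf => ?_⟩
  have h1 : ∃ k : ℕ, (1 / 4 : ℝ) ^ (k + 4) < ε := by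
    obtain ⟨k, hk⟩ := exists_pow_lt_of_lt_one hε (show (1 / 4 : ℝ) < 1 by norm_num)
    refine ⟨k, lt_of_le_of_lt ?_ hk⟩
    exact pow_le_pow_of_le_one (by norm_num) (by norm_num) (by omega)
  obtain ⟨k, hk⟩ := h1
  obtain ⟨p, hp, hi⟩ := unif_iter hS (R := R) (fun g hg => by
    obtain ⟨q, hq, hq2⟩ := h g hg
    exact ⟨q, ⟨fun x hx => (hq.1 x hx).le, fun x hx => (hq.2 x hx).le⟩, hq2⟩) k f hf
  have h2 : (0 : ℝ) < (1 / 2) ^ k := by positivity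
  exact ⟨p, ⟨fun x hx => (hp.1 x (by linarith)).trans_lt hk, fun x hx => (hp.2 x (by linarith)).trans_lt hk⟩, hi⟩

end

end Pool.Agent.Lib.MP_c05f88_an
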