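import Pool.Agent.Lib.MP_c05f88_an.Basic
import Pool.Agent.Lib.MP_c05f88_an.Open

/-!
# Sets in a vector space all of whose bijections extend are closed and discrete
-/

set_option autoImplicit false

namespace Pool.Agent.Lib.MP_c05f88_an

open Set Filter Topology

variable {E : Type*} [NormedAddCommGroup E] [NormedSpace ℂ E]

theorem no_acc_vec {Z : Set E} (hZ : AutPerm Z) (p : E) : ∃ U ∈ 𝓝 p, (U ∩ Z).Finite := by
  by_contra hcon
  push Not at hcon
  have hstep : ∀ δ : ℝ, 0 < δ → ∃ z : E, (z ∈ Z ∧ 0 < ‖z - p‖) ∧ ‖z - p‖ < δ := by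
    intro δ hδ
    have h1 : {x : E | ‖x - p‖ < δ} ∈ 𝓝 p := by
      have h2 : ContinuousAt (fun x : E => ‖x - p‖) p := by fun_prop
      have h3 : (fun x : E => ‖x - p‖) p < δ := by simpa using hδ
      exact h2.eventually_lt continuousAt_const h3
    have h4 := hcon _ h1
    obtain ⟨z, hz, hzp⟩ := h4.exists_notMem_finite (finite_singleton p)
    refine ⟨z, ⟨hz.2, ?_⟩, hz.1⟩
    rw [norm_pos_iff, sub_ne_zero]
    exact hzp
  let T := {z : E // z ∈ Z ∧ 0 < ‖z - p‖}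
  have hstep2 : ∀ (n : ℕ) (x : T), ∃ y : T, ‖y.1 - p‖ < ‖x.1 - p‖ / (n + 2) := by
    intro n x
    obtain ⟨y, hy, hy2⟩ := hstep (‖x.1 - p‖ / (n + 2)) (div_pos x.2.2 (by positivity))
    exact ⟨⟨y, hy⟩, hy2⟩
  choose nx hnx using hstep2
  obtain ⟨x0, hx0, -⟩ := hstep 1 one_pos
  let s : ℕ → T := fun n => Nat.rec ⟨x0, hx0⟩ (fun n x => nx n x) n
  have hs : ∀ n, ‖(s (n + 1)).1 - p‖ < ‖(s n).1 - p‖ / (n + 2) := fun n => hnx n (s n)
  have hpos : ∀ n, 0 < ‖(s n).1 - p‖ := fun n => (s n).2.2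
  have hlt : ∀ n, ‖(s (n + 1)).1 - p‖ < ‖(s n).1 - p‖ := fun n => by
    refine (hs n).trans_le (div_le_self (hpos n).le ?_)
    have : (0 : ℝ) ≤ n := Nat.cast_nonneg n
    linarith
  have hanti : StrictAnti fun n => ‖(s n).1 - p‖ := strictAnti_nat_of_succ_lt hlt
  have hinj : Function.Injective fun n => (⟨(s n).1, (s n).2.1⟩ : Z) := by
    intro m n hmn
    have h1 : (s m).1 = (s n).1 := congrArg (fun z : Z => z.1) hmn
    exact hanti.injective (by simp only [h1])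
  obtain ⟨F, hF1, -, hF⟩ := hZ (sw.viaEmbedding ⟨_, hinj⟩)
  have hFs : ∀ n, F (s n).1 = (s (sw n)).1 := by
    intro n
    have h1 := hF ⟨(s n).1, (s n).2.1⟩
    have h2 := Equiv.Perm.viaEmbedding_apply sw ⟨_, hinj⟩ n
    simp only [Function.Embedding.coeFn_mk] at h2
    rw [h2] at h1
    exact h1
  have hhalf : ∀ n, ‖(s n).1 - p‖ ≤ ‖(s 0).1 - p‖ * (1 / 2) ^ n := by
    intro n
    induction n with
    | zero => simp
    | succ n ih =>
      have h1 : ‖(s n).1 - p‖ / (n + 2) ≤ ‖(s n).1 - p‖ / 2 := by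
        apply div_le_div_of_nonneg_left (hpos n).le (by norm_num)
        have : (0 : ℝ) ≤ n := Nat.cast_nonneg n
        linarith
      calc ‖(s (n + 1)).1 - p‖ ≤ ‖(s n).1 - p‖ / 2 := (hs n).le.trans h1
        _ ≤ ‖(s 0).1 - p‖ * (1 / 2) ^ n / 2 := by linarith
        _ = _ := by rw [pow_succ]; ring
  have hlim0 : Tendsto (fun n => ‖(s n).1 - p‖) atTop (𝓝 0) := by
    refine squeeze_zero (fun n => (hpos n).le) hhalf ?_
    have := (tendsto_pow_atTop_nhds_zero_of_lt_one (r := (1 / 2 : ℝ)) (by norm_num)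
      (by norm_num)).const_mul ‖(s 0).1 - p‖
    simpa using this
  have hlim : Tendsto (fun n => (s n).1) atTop (𝓝 p) :=
    tendsto_iff_norm_sub_tendsto_zero.mpr hlim0
  have hsw : Tendsto sw atTop atTop := by
    refine tendsto_atTop_mono (fun n => ?_) (tendsto_sub_atTop_nat 1)
    have := sw_ge n
    omega
  have hFp : F p = p := by
    have h1 : Tendsto (fun n => F (s n).1) atTop (𝓝 (F p)) :=
      (hF1.continuous.tendsto p).comp hlim
    have h2 : Tendsto (fun n => F (s n).1) atTop (𝓝 p) := by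
      simp only [hFs]
      exact hlim.comp hsw
    exact tendsto_nhds_unique h1 h2
  obtain ⟨C, hC⟩ := (hF1 p).isBigO_sub.bound
  have h5 := hlim.eventually hC
  have h6 : Tendsto (fun k : ℕ => 2 * k + 1) atTop atTop := by
    refine tendsto_atTop_mono (fun n => ?_) tendsto_id
    show n ≤ 2 * n + 1
    omega
  have h7 := (h6.eventually h5).and (eventually_gt_atTop ⌈C⌉₊)
  obtain ⟨k, hk, hk2⟩ := h7.exists
  simp only [hFs, hFp, sw_odd] at hk
  have e3 := hs (2 * k)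
  have e4 := hpos (2 * k + 1)
  have e5 : C ≤ (⌈C⌉₊ : ℝ) := Nat.le_ceil C
  have e6 : (⌈C⌉₊ : ℝ) < k := by exact_mod_cast hk2
  rw [lt_div_iff₀ (by positivity)] at e3
  push_cast at e3
  have e7 : C * ‖(s (2 * k + 1)).1 - p‖ ≤ (2 * (k : ℝ) + 2) * ‖(s (2 * k + 1)).1 - p‖ := by
    apply mul_le_mul_of_nonneg_right _ e4.le
    have : (0 : ℝ) ≤ k := Nat.cast_nonneg k
    linarith
  nlinarith

theorem AutPerm.closed_discrete {Z : Set E} (hZ : AutPerm Z) : IsClosed Z ∧ DiscreteTopology Z :=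
  closed_discrete_of (no_acc_vec hZ)

end Pool.Agent.Lib.MP_c05f88_an
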